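import Pool.Agent.Mont.NFT

/-!
Montesinos knots: normal form of lists of rational tangles.
-/

namespace Pool.Agent.Mont

open Pool.Agent.LibH11 Pool.Agent.LibH11.Sliced Pool.Agent.TB Pool.Agent.TwoBr

/-- the flag of a position of the minimum -/
def fp : Fin 2 → Bool
  | 0 => true
  | 1 => false

theorem Tt_Tg (p : Fin 2) (x : List ℤ) : EqD 2 (Tt (fp p, x)) (Tg p (W (p + 1) x)) := by
  have h := Tg_wd p (wordOf (p + 1) x)
  rw [bw_wordOf] at h
  fin_cases p
  · exact h
  · exact h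

theorem nvec_eq (p : Fin 2) (x : List ℤ) : nvec (fp p, x) = act (bv p) (W (p + 1) x) := by
  fin_cases p
  · exact tvec_wd _ _
  · exact tvec_wd _ _

theorem cnt_Tt (t : NT) : cnt 2 (Tt t) = some 2 := by
  obtain ⟨f, x⟩ := t
  have h : ∀ p : Fin 2, cnt 2 (Tt (fp p, x)) = some 2 := by
    intro p
    rw [(Tt_Tg p x).cnt_eq]
    exact cnt_Tg p _
  cases f
  · exact h 1
  · exact h 0

theorem Tt_tgl (t : NT) : ∃ w : List (Fin 2 × Bool), EqD 2 (Tt t) (tgl w) := by
  obtain ⟨f, x⟩ := t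
  cases f
  · refine ⟨wordOf 0 x, ?_⟩
    have : Tt (false, x) = tgl (wordOf 0 x) := by
      rw [tgl, bw_wordOf]
      rfl
    rw [this]
    exact EqD.refl _
  · refine ⟨rep (sg 0 * sg 1 * W 1 x), ?_⟩
    exact (Tt_Tg 0 x).trans (Tg_flip _).symm

/-- Half twists pass through a tangle in normal form. -/
theorem Tt_ht (t : NT) (c : ℤ) : EqD 2 (ht c ++ Tt t) (Tt t ++ ht c) := by
  obtain ⟨w, hw⟩ := Tt_tgl t
  have s1 := hw.left (ht c) (cnt_ht c)
  have s2 := flype_ht w c
  have s3 := hw.symm.right (ht c) (by rw [cnt_app (cnt_tgl w), cnt_ht]; simp)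
  exact (s1.trans s2).trans s3

theorem slope_of_PM {v v' : ℤ × ℤ} {c : ℤ} (h : PM v (shv c v')) (h0 : v'.2 ≠ 0) :
    (v.1 : ℚ) / (v.2 : ℚ) = (v'.1 : ℚ) / (v'.2 : ℚ) - c := by
  have h1 : ((v'.2 : ℤ) : ℚ) ≠ 0 := by exact_mod_cast h0
  have key : ((shv c v').1 : ℚ) / ((shv c v').2 : ℚ) = (v'.1 : ℚ) / (v'.2 : ℚ) - c := by
    simp only [shv]
    push_cast
    field_simp
  rcases h with rfl | rfl
  · exact key
  · rw [← key]
    simp only [Prod.fst_neg, Prod.snd_neg]
    push_cast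
    rw [neg_div_neg_eq]

theorem abs_of_PM {v v' : ℤ × ℤ} {c : ℤ} (h : PM v (shv c v')) : |v.2| = |v'.2| := by
  rcases h with rfl | rfl
  · rfl
  · simp only [Prod.snd_neg, shv, abs_neg]

/-- from `Frm` to normal forms -/
theorem nf_of_Frm {D : Diag} {v : ℤ × ℤ} {p : Fin 2} {x : List ℤ} {c : ℤ}
    (h : Frm D v p x c) (hx : ∀ a ∈ x, a ≠ 0) (hl : x = [] ∨ p + pl x.length = 1)
    (hv : 2 ≤ |v.2|) :
    NOk (fp p, x) ∧ EqD 2 D (Tt (fp p, x) ++ ht c) ∧
      (v.1 : ℚ) / (v.2 : ℚ) = nslope (fp p, x) - c ∧ 2 ≤ |(nvec (fp p, x)).2| := by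
  obtain ⟨h1, h2⟩ := h
  rw [← nvec_eq] at h2
  have h3 := abs_of_PM h2
  rw [h3] at hv
  have h0 : (nvec (fp p, x)).2 ≠ 0 := by
    intro h0
    rw [h0] at hv
    simp at hv
  have hne : x ≠ [] := by
    rintro rfl
    rw [nvec_eq, W_nil, act_one] at hv
    fin_cases p <;> simp [bv] at hv
  refine ⟨?_, ?_, slope_of_PM h2 h0, hv⟩
  · rcases hl with hl | hl
    · exact absurd hl hne
    · fin_cases p
      · refine ⟨hx, ?_⟩
        rw [← Nat.not_even_iff_odd]
        intro he
        rw [pl_even he] at hl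
        simp at hl
      · refine ⟨hx, ?_, hne⟩
        by_contra he
        rw [pl_odd he] at hl
        simp at hl
  · exact h1.trans ((Tt_Tg p x).symm.right (ht c) (by rw [cnt_app (cnt_Tg p _), cnt_ht]; simp))

/-- **Normal form of rational tangles.** -/
theorem tangle_nf (w : List (Fin 2 × Bool)) (hw : 2 ≤ |den w|) : ∃ (t : NT) (c : ℤ), NOk t ∧
    EqD 2 (tgl w) (Tt t ++ ht c) ∧ slope w = nslope t - c ∧ 2 ≤ |(nvec t).2| := by
  obtain ⟨p, x, c, -, h1, h2, h3⟩ := frm_tgl w
  obtain ⟨k1, k2, k3, k4⟩ := nf_of_Frm h3 h1 h2 hw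
  exact ⟨(fp p, x), c, k1, k2, k3, k4⟩

/-- One half twist is absorbed by a tangle with flag `true`. -/
theorem tangle_adj (x : List ℤ) (hx : 2 ≤ |(nvec (true, x)).2|) : ∃ (y : List ℤ) (c : ℤ),
    Even c ∧ NOk (true, y) ∧ EqD 2 (Tt (true, x) ++ ht 1) (Tt (true, y) ++ ht c) ∧
      nslope (true, x) - 1 = nslope (true, y) - c ∧ 2 ≤ |(nvec (true, y)).2| := by
  have hm : (sg 0)⁻¹ * W 1 x * sg 0 ∈ H := by
    have hW : ∀ (x : List ℤ) (q : Fin 2), W q x ∈ H := by
      intro x
      induction x with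
      | nil => intro q; rw [W_nil]; exact H.one_mem
      | cons a l ih =>
        intro q
        rw [W_cons]
        refine H.mul_mem ?_ (ih _)
        rw [zpow_mul]
        refine H.zpow_mem ?_ a
        fin_cases q
        · exact s0_H
        · exact s1_H
    have := H_normal.conj_mem _ (hW x 1) (sg 0)⁻¹
    simpa using this
  obtain ⟨y, hy1, hy2⟩ := frm_pure 0 hm
  obtain ⟨z, c, k0, k1, k2, k3⟩ := frm_red 0 y.length y le_rfl
  have e : W 1 x * sg 0 = sg 0 * ((sg 0)⁻¹ * W 1 x * sg 0) := by group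
  have hf : Frm (Tt (true, x) ++ ht 1) (shv 1 (nvec (true, x))) 0 y 0 := by
    constructor
    · have s1 := (Tt_Tg 0 x).right (ht 1) (by
        rw [cnt_app (cnt_Tt _), cnt_ht]; simp)
      have s2 := Tg_s0z 0 (W 1 x) 1
      rw [zpow_one, e] at s2
      exact ((s1.trans s2.symm).trans (Tg_sp 0 _)).trans hy1
    · have e1 : nvec (true, x) = act (bv 0) (W 1 x) := nvec_eq 0 x
      have e2 := act_s0z (act (bv 0) (W 1 x)) 1
      rw [zpow_one, ← act_mul, e, act_mul] at e2
      have e3 := act_bv 0 1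
      rw [zpow_one] at e3
      rw [e3] at e2
      rw [e1, ← e2]
      exact hy2
  have hg := hf.trans k3
  have hv : 2 ≤ |(shv 1 (nvec (true, x))).2| := hx
  obtain ⟨g1, g2, g3, g4⟩ := nf_of_Frm hg k1 k2 hv
  refine ⟨z, 0 + c, by simpa using k0, g1, g2, ?_, g4⟩
  refine Eq.trans ?_ g3
  have h0 : (nvec (true, x)).2 ≠ 0 := by
    intro h0
    rw [h0] at hx
    simp at hx
  have := slope_of_PM (PM.refl (shv 1 (nvec (true, x)))) h0
  rw [this]
  simp [nslope]

/-! ### Lists of tangles -/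

theorem cnt_flat : ∀ ts : List NT, cnt 2 ((ts.map Tt).flatten) = some 2 := by
  intro ts
  induction ts with
  | nil => rfl
  | cons t ts ih => rw [List.map_cons, List.flatten_cons, cnt_app (cnt_Tt t), ih]

theorem flat_ht (ts : List NT) (c : ℤ) :
    EqD 2 (ht c ++ (ts.map Tt).flatten) ((ts.map Tt).flatten ++ ht c) := by
  induction ts with
  | nil => simpa using EqD.refl (ht c)
  | cons t ts ih =>
    rw [List.map_cons, List.flatten_cons]
    have s1 := (Tt_ht t c).right ((ts.map Tt).flatten) (by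
      rw [List.append_assoc, cnt_app (cnt_ht c), cnt_app (cnt_Tt t), cnt_flat]; simp)
    have s2 := ih.left (Tt t) (cnt_Tt t)
    rw [List.append_assoc, List.append_assoc] at s1
    rw [← List.append_assoc] at s2
    rw [List.append_assoc]
    rw [List.append_assoc] at s2
    exact s1.trans s2

/-- **Normal form of lists of rational tangles.** -/
theorem list_nf : ∀ us : List (List (Fin 2 × Bool)), (∀ u ∈ us, 2 ≤ |den u|) →
    ∃ (ts : List NT) (e : ℤ), List.Forall₂ (fun u t => ∃ m : ℤ, slope u = nslope t - m) us ts ∧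
      (∀ t ∈ ts, NOk t ∧ 2 ≤ |(nvec t).2|) ∧
      EqD 2 ((us.map tgl).flatten) ((ts.map Tt).flatten ++ ht e) ∧
      (us.map slope).sum = (ts.map nslope).sum - e := by
  intro us
  induction us with
  | nil => intro _; exact ⟨[], 0, List.Forall₂.nil, by simp, EqD.refl _, by simp⟩
  | cons u us ih =>
    intro h
    obtain ⟨ts, e, h1, h2, h3, h4⟩ := ih fun v hv => h v (List.mem_cons_of_mem _ hv)
    obtain ⟨t, c, k1, k2, k3, k4⟩ := tangle_nf u (h u List.mem_cons_self)
    refine ⟨t :: ts, c + e, List.Forall₂.cons ⟨c, k3⟩ h1, ?_, ?_, ?_⟩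
    · intro s hs
      rcases List.mem_cons.1 hs with rfl | hs
      · exact ⟨k1, k4⟩
      · exact h2 s hs
    · rw [List.map_cons, List.flatten_cons, List.map_cons, List.flatten_cons]
      have s1 := h3.left (tgl u) (cnt_tgl u)
      have s2 := k2.right ((ts.map Tt).flatten ++ ht e) (by
        rw [cnt_app (cnt_tgl u), cnt_app (cnt_flat ts), cnt_ht]; simp)
      have s3 := (flat_ht ts c).ctx (Tt t) (ht e) (cnt_Tt t) (by
        rw [List.append_assoc, cnt_app (cnt_Tt t), List.append_assoc, cnt_app (cnt_ht c),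
          cnt_app (cnt_flat ts), cnt_ht]
        simp)
      have s4 := (ht_add c e).left (Tt t ++ (ts.map Tt).flatten) (show _ = some 2 by
        rw [cnt_app (cnt_Tt t), cnt_flat])
      have e1 : Tt t ++ ht c ++ ((ts.map Tt).flatten ++ ht e) =
          Tt t ++ (ht c ++ (ts.map Tt).flatten) ++ ht e := by simp
      have e2 : Tt t ++ ((ts.map Tt).flatten ++ ht c) ++ ht e =
          Tt t ++ (ts.map Tt).flatten ++ (ht c ++ ht e) := by simp
      rw [e1] at s2
      rw [e2] at s3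
      exact ((s1.trans s2).trans s3).trans s4
    · rw [List.map_cons, List.sum_cons, List.map_cons, List.sum_cons, h4, k3]
      push_cast
      ring

/-- Changing the parity of the number of half twists. -/
theorem list_adj (l1 l2 : List NT) (x : List ℤ) (e : ℤ) (hx : 2 ≤ |(nvec (true, x)).2|) :
    ∃ (y : List ℤ) (c : ℤ), Even c ∧ NOk (true, y) ∧ 2 ≤ |(nvec (true, y)).2| ∧
      nslope (true, x) - 1 = nslope (true, y) - c ∧
      EqD 2 (((l1 ++ (true, x) :: l2).map Tt).flatten ++ ht e)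
        (((l1 ++ (true, y) :: l2).map Tt).flatten ++ ht (c + (e - 1))) := by
  obtain ⟨y, c, k0, k1, k2, k3, k4⟩ := tangle_adj x hx
  refine ⟨y, c, k0, k1, k4, k3, ?_⟩
  have ex : ∀ z : List ℤ, ((l1 ++ (true, z) :: l2).map Tt).flatten =
      (l1.map Tt).flatten ++ (Tt (true, z) ++ (l2.map Tt).flatten) := by
    intro z
    simp
  rw [ex, ex]
  have c1 := cnt_flat l1
  have c2 := cnt_flat l2
  have cx := cnt_Tt (true, x)
  have cy := cnt_Tt (true, y)
  -- take one half twist out, and move it to the tangle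
  have s1 := (ht_add 1 (e - 1)).symm.left
    ((l1.map Tt).flatten ++ (Tt (true, x) ++ (l2.map Tt).flatten)) (show _ = some 2 by
      rw [cnt_app c1, cnt_app cx, c2])
  rw [show (1 : ℤ) + (e - 1) = e by ring] at s1
  have s2 := (flat_ht l2 1).symm.ctx ((l1.map Tt).flatten ++ Tt (true, x)) (ht (e - 1))
    (show _ = some 2 by rw [cnt_app c1, cx]) (by
      rw [List.append_assoc, List.append_assoc, cnt_app c1, cnt_app cx, List.append_assoc,
        cnt_app c2, cnt_app (cnt_ht 1), cnt_ht]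
      simp)
  have s3 := k2.ctx ((l1.map Tt).flatten) ((l2.map Tt).flatten ++ ht (e - 1)) c1 (by
    rw [List.append_assoc, cnt_app c1, List.append_assoc, cnt_app cx, cnt_app (cnt_ht 1),
      cnt_app c2, cnt_ht]
    simp)
  have s4 := (flat_ht l2 c).ctx ((l1.map Tt).flatten ++ Tt (true, y)) (ht (e - 1))
    (show _ = some 2 by rw [cnt_app c1, cy]) (by
      rw [List.append_assoc, List.append_assoc, cnt_app c1, cnt_app cy, List.append_assoc,
        cnt_app (cnt_ht c), cnt_app c2, cnt_ht]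
      simp)
  have s5 := (ht_add c (e - 1)).left
    ((l1.map Tt).flatten ++ (Tt (true, y) ++ (l2.map Tt).flatten)) (show _ = some 2 by
      rw [cnt_app c1, cnt_app cy, c2])
  simp only [List.append_assoc] at s1 s2 s3 s4 s5 ⊢
  exact (((s1.trans s2).trans s3).trans s4).trans s5

end Pool.Agent.Mont
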