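import Pool.Agent.Mont.Nvec
import Pool.Agent.TwoBr.Concl

/-!
Montesinos knots: finite type invariants determine the slopes.
-/

namespace Pool.Agent.Mont

open Pool.Agent.LibH11 Pool.Agent.LibH11.Sliced Pool.Agent.TB Pool.Agent.TwoBr Pool.Agent.MTR

/-- the result in normal form, for general diagrams -/
theorem concl_nf (hf : MTA.FINM_Stmt) (us vs : List (List (Fin 2 × Bool)))
    (h : IsLongKnot (mont us)) (h' : IsLongKnot (mont vs))
    (hd : ∀ u ∈ us, 2 ≤ |den u|) (hd' : ∀ u ∈ vs, 2 ≤ |den u|) (h3 : 3 ≤ us.length)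
    (hn : NDu us) (hn' : vs.length ≤ us.length ∨ NDu vs)
    (hv : ∀ v : Sliced.Knot → ℚ, Sliced.IsFiniteType v → v (ofDiag (mont us) h) = v (ofDiag (mont vs) h')) :
    ∃ (ts ts' : List NT) (e : ℤ), Nrm ts e ∧ ts.Perm ts' ∧ EqD 1 (mont us) (mdiag ts e) ∧
      EqD 1 (mont vs) (mdiag ts' e) ∧
      List.Forall₂ (fun u t => ∃ m : ℤ, slope u = nslope t - m) us ts ∧
      (us.map slope).sum = (ts.map nslope).sum - e ∧
      List.Forall₂ (fun u t => ∃ m : ℤ, slope u = nslope t - m) vs ts' ∧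
      (vs.map slope).sum = (ts'.map nslope).sum - e := by
  obtain ⟨ts, e, a1, a2, a3, a4⟩ := mont_nf us h hd
  obtain ⟨ts', e', b1, b2, b3, b4⟩ := mont_nf vs h' hd'
  have ha := a2.isLongKnot h
  have hb := b2.isLongKnot h'
  have hK : ofDiag (mont us) h = ofDiag (mdiag ts e) ha := a2.knot h
  have hK' : ofDiag (mont vs) h' = ofDiag (mdiag ts' e') hb := b2.knot h'
  rw [hK, hK'] at hv
  have hv' := fun v (hfv : Sliced.IsFiniteType v) => TwoBr.complex_of_rat hv v hfv
  have hlen := a3.length_eq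
  have hlen' := b3.length_eq
  have key : ∀ (D D' : Diag) (hD : IsLongKnot D) (hD' : IsLongKnot D'), mdiag ts e = D →
      mdiag ts' e' = D' → D = MT.mdiag ts e → D' = MT.mdiag ts' e' →
      (∀ v : Sliced.Knot → ℂ, Sliced.IsFiniteType v → v (ofDiag D hD) = v (ofDiag D' hD')) →
      e = e' ∧ ts.Perm ts' := by
    intro D D' hD hD' _ _ e3 e4 hv
    subst e3 e4
    refine hf ts ts' e e' hD hD' a1.nft b1.nft (by omega) ?_ ?_ hv
    · refine nd_of e (forall2_lsl a1.ok a3) ?_ hn
      intro x hx a ha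
      rw [MTA.wrds, List.mem_map] at hx
      obtain ⟨t, ht, rfl⟩ := hx
      exact (a1.nft.2 t ht).2 a (List.mem_reverse.1 ha)
    · rcases hn' with hn' | hn'
      · left; omega
      · right
        refine nd_of e' (forall2_lsl b1.ok b3) ?_ hn'
        intro x hx a ha
        rw [MTA.wrds, List.mem_map] at hx
        obtain ⟨t, ht, rfl⟩ := hx
        exact (b1.nft.2 t ht).2 a (List.mem_reverse.1 ha)
  obtain ⟨h1, h2⟩ := key _ _ ha hb rfl rfl (mdiag_eq ts e) (mdiag_eq ts' e') hv'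
  subst h1
  exact ⟨ts, ts', e, a1, h2, a2, b2, a3, a4, b3, b4⟩

/-- finite type invariants determine the slopes -/
theorem concl (hf : MTA.FINM_Stmt) (us vs : List (List (Fin 2 × Bool)))
    (h : IsLongKnot (mont us)) (h' : IsLongKnot (mont vs))
    (hd : ∀ u ∈ us, 2 ≤ |den u|) (hd' : ∀ u ∈ vs, 2 ≤ |den u|) (h3 : 3 ≤ us.length)
    (hn : NDu us) (hn' : vs.length ≤ us.length ∨ NDu vs)
    (hv : ∀ v : Sliced.Knot → ℚ, Sliced.IsFiniteType v → v (ofDiag (mont us) h) = v (ofDiag (mont vs) h')) :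
    (us.map slope).sum = (vs.map slope).sum ∧
      (us.map fun u => Int.fract (slope u)).Perm (vs.map fun u => Int.fract (slope u)) := by
  obtain ⟨ts, ts', e, _, h1, _, _, h2, h3, h4, h5⟩ := concl_nf hf us vs h h' hd hd' h3 hn hn' hv
  refine ⟨?_, ?_⟩
  · rw [h3, h5, (h1.map nslope).sum_eq]
  · rw [fract_forall2 h2, fract_forall2 h4]
    exact h1.map _

/-- three tangles are nondegenerate -/
theorem ndu_three {us : List (List (Fin 2 × Bool))} (hl : us.length = 3)
    (hd : ∀ u ∈ us, 2 ≤ |den u|)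
    (hc : ∀ u : List (Fin 2 × Bool), IsCoprime (tvec (0, 1) u).1 (tvec (0, 1) u).2) : NDu us := by
  intro u v rest hp m hm
  have h1 := hp.length_eq
  rw [hl] at h1
  simp only [List.length_cons] at h1
  have h2 : rest.length = 1 := by omega
  obtain ⟨w, rfl⟩ := List.length_eq_one_iff.1 h2
  have hw : w ∈ us := by
    rw [hp.mem_iff]
    simp
  have h3 := hd w hw
  have h4 := hc w
  simp only [List.map_cons, List.map_nil, List.sum_cons, List.sum_nil, add_zero] at hm
  rw [slope] at hm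
  have h5 : ((tvec (0, 1) w).2 : ℚ) ≠ 0 := by
    have : (tvec (0, 1) w).2 ≠ 0 := by
      intro h0
      unfold den at h3
      rw [h0, abs_zero] at h3
      omega
    exact_mod_cast this
  rw [div_eq_iff h5] at hm
  have h6 : (tvec (0, 1) w).1 = m * (tvec (0, 1) w).2 := by exact_mod_cast hm
  rw [h6] at h4
  have h7 : IsUnit (tvec (0, 1) w).2 := by
    have := h4.symm
    rw [IsCoprime] at this
    obtain ⟨a, b, hab⟩ := this
    refine isUnit_of_dvd_one ⟨a + b * m, ?_⟩
    linear_combination -hab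
  have h8 := Int.isUnit_iff_abs_eq.1 h7
  unfold den at h3
  omega

theorem lact_det (p : Fin 2 × Bool) (v w : ℤ × ℤ) : det2 (lact p v) (lact p w) = det2 v w := by
  obtain ⟨i, e⟩ := p
  obtain ⟨a, b⟩ := v
  obtain ⟨c, d⟩ := w
  fin_cases i <;> cases e <;> simp [lact, det2] <;> ring

theorem tvec_det (u : List (Fin 2 × Bool)) : ∀ v w : ℤ × ℤ,
    det2 (tvec v u) (tvec w u) = det2 v w := by
  induction u with
  | nil => intro v w; rfl
  | cons p u ih => intro v w; exact (ih _ _).trans (lact_det p v w)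

theorem tvec_coprime (u : List (Fin 2 × Bool)) :
    IsCoprime (tvec (0, 1) u).1 (tvec (0, 1) u).2 := by
  have h := tvec_det u (1, 0) (0, 1)
  rw [det2, det2] at h
  refine ⟨-(tvec (1, 0) u).2, (tvec (1, 0) u).1, ?_⟩
  simp only at h
  linear_combination h

end Pool.Agent.Mont
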