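import Pool.Agent.Mont.NF2

/-!
Montesinos knots: finite type invariants determine the tangles up to their order, and, for three
tangles, the knot up to its orientation.
-/

namespace Pool.Agent.Mont

open Pool.Agent.LibH11 Pool.Agent.LibH11.Sliced Pool.Agent.TB Pool.Agent.TwoBr Pool.Agent.MTR

/-- `K'` is the knot `K` with the reversed orientation. -/
def Rv (K K' : Sliced.Knot) : Prop :=
  ∃ (w : Diag) (h : IsLongKnot w) (h' : IsLongKnot (flipD w)),
    K = ofDiag w h ∧ K' = ofDiag (flipD w) h'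

theorem concl2 (hf : MTA.FINM_Stmt) (us vs : List (List (Fin 2 × Bool)))
    (h : IsLongKnot (mont us)) (h' : IsLongKnot (mont vs))
    (hd : ∀ u ∈ us, 2 ≤ |den u|) (hd' : ∀ u ∈ vs, 2 ≤ |den u|) (h3 : 3 ≤ us.length)
    (hn : NDu us) (hn' : vs.length ≤ us.length ∨ NDu vs)
    (hv : ∀ v : Sliced.Knot → ℚ, Sliced.IsFiniteType v →
      v (ofDiag (mont us) h) = v (ofDiag (mont vs) h')) :
    ((us.map slope).sum = (vs.map slope).sum ∧
      (us.map fun u => Int.fract (slope u)).Perm (vs.map fun u => Int.fract (slope u))) ∧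
    (∃ us' : List (List (Fin 2 × Bool)), us.Perm us' ∧
      ∃ h'' : IsLongKnot (mont us'), ofDiag (mont vs) h' = ofDiag (mont us') h'') ∧
    (us.length = 3 → ofDiag (mont vs) h' = ofDiag (mont us) h ∨
      Rv (ofDiag (mont us) h) (ofDiag (mont vs) h')) := by
  obtain ⟨ts, e, a1, a2, a3, a4⟩ := mont_nf2 us h hd
  obtain ⟨ts', e', b1, b2, b3, b4⟩ := mont_nf2 vs h' hd'
  have ha := a2.isLongKnot h
  have hb := b2.isLongKnot h'
  have hK : ofDiag (mont us) h = ofDiag (mdiag ts e) ha := a2.knot h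
  have hK' : ofDiag (mont vs) h' = ofDiag (mdiag ts' e') hb := b2.knot h'
  rw [hK, hK'] at hv
  have hv' := fun v (hfv : Sliced.IsFiniteType v) => TwoBr.complex_of_rat hv v hfv
  have hlen := a3.length_eq
  have hlen' := b3.length_eq
  have a3' := RR_split a3
  have b3' := RR_split b3
  have key : ∀ (D D' : Diag) (hD : IsLongKnot D) (hD' : IsLongKnot D'), mdiag ts e = D →
      mdiag ts' e' = D' → D = MT.mdiag ts e → D' = MT.mdiag ts' e' →
      (∀ v : Sliced.Knot → ℂ, Sliced.IsFiniteType v → v (ofDiag D hD) = v (ofDiag D' hD')) →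
      e = e' ∧ ts.Perm ts' := by
    intro D D' hD hD' _ _ e3 e4 hv
    subst e3 e4
    refine hf ts ts' e e' hD hD' a1.nft b1.nft (by omega) ?_ ?_ hv
    · refine nd_of e (forall2_lsl a1.ok a3') ?_ hn
      intro x hx a ha
      rw [MTA.wrds, List.mem_map] at hx
      obtain ⟨t, ht, rfl⟩ := hx
      exact (a1.nft.2 t ht).2 a (List.mem_reverse.1 ha)
    · rcases hn' with hn' | hn'
      · left; omega
      · right
        refine nd_of e' (forall2_lsl b1.ok b3') ?_ hn'
        intro x hx a ha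
        rw [MTA.wrds, List.mem_map] at hx
        obtain ⟨t, ht, rfl⟩ := hx
        exact (b1.nft.2 t ht).2 a (List.mem_reverse.1 ha)
  obtain ⟨h1, h2⟩ := key _ _ ha hb rfl rfl (mdiag_eq ts e) (mdiag_eq ts' e') hv'
  subst h1
  refine ⟨⟨?_, ?_⟩, ?_, ?_⟩
  · rw [a4, b4, (h2.map nslope).sum_eq]
  · rw [fract_forall2 a3', fract_forall2 b3']
    exact h2.map _
  · obtain ⟨us', p1, p2⟩ := perm_RR a3 h2
    obtain ⟨e'', q1, q2⟩ := sum_RR p2
    have he : e'' = e := by
      have h9 : (e'' : ℚ) = e := by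
        have h10 := (p1.map slope).sum_eq
        have h11 := (h2.map nslope).sum_eq
        rw [a4, q2, h11] at h10
        linarith
      exact_mod_cast h9
    subst he
    have h5 : EqD 1 (mont us') (mdiag ts' e'') := close_eqd q1 (cnt_tgls us')
    have h6 : EqD 1 (mont vs) (mont us') := b2.trans h5.symm
    exact ⟨us', p1, h6.isLongKnot h', h6.knot h'⟩
  · intro hl
    have hl' : ts.length = 3 := by omega
    rcases three_mdiag a1 hl' h2 with h4 | h4
    · left
      have h6 : EqD 1 (mont vs) (mont us) := (b2.trans h4.symm).trans a2.symm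
      exact h6.knot h'
    · right
      have h6 : EqD 1 (mont vs) (flipD (mdiag ts e)) := b2.trans h4.symm
      exact ⟨mdiag ts e, ha, h6.isLongKnot h', hK, h6.knot h'⟩

end Pool.Agent.Mont
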