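import Pool.Agent.Mont.Top
import Pool.Agent.TS.Natx

/-!
Long diagrams: the place where the knot is cut is moved through a tangle (cyclic rotation).
-/

namespace Pool.Agent.Mont

open Pool.Agent.LibH11 Pool.Agent.LibH11.Sliced Pool.Agent.TB Pool.Agent.TwoBr Pool.Agent.TS

/-- the long closure of a diagram on two strands -/
def Lc (Z : Diag) : Diag := (.cup, 1) :: (Z ++ ([(.cap, 1)] : List (Kind × ℕ)))

/-- the long closure of a diagram on four strands -/
def L4 (w : Diag) : Diag := ([(.cup, 1), (.cup, 2), (.cup, 3)] : List (Kind × ℕ)) ++ w ++ ([(.cap, 3), (.cap, 2), (.cap, 1)] : List (Kind × ℕ))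

/-- The closing strand passes to the other side of the diagram. -/
theorem swing (e : Bool) {G : Diag} (hG : cnt 2 G = some 2) :
    EqD 1 (([(.cup, 1), (.crs e, 0)] : List (Kind × ℕ)) ++ G ++ ([(.crs (!e), 0), (.cap, 1)] : List (Kind × ℕ)))
      (([(.cup, 0)] : List (Kind × ℕ)) ++ sh 1 G ++ ([(.cap, 0)] : List (Kind × ℕ))) := by
  have cG3 : cnt 3 G = some 3 := cnt_widen 1 _ _ _ hG
  have cS3 : cnt 3 (sh 1 G) = some 3 := by
    rw [show (3 : ℕ) = 2 + 1 from rfl, cnt_sh, hG]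
    rfl
  -- passing a strand
  have hn : EqD 3 (G ++ XX e 2) (XX e 2 ++ sh 1 G) := natx e G 2 2 hG
  have hX : XX e 2 = ([(.crs e, 1), (.crs e, 0)] : List (Kind × ℕ)) := rfl
  rw [hX] at hn
  have cX : cnt 3 ([(Kind.crs e, 1), (.crs e, 0)] : List (Kind × ℕ)) = some 3 := rfl
  have cY : cnt 3 ([(Kind.crs (!e), 0), (.crs (!e), 1)] : List (Kind × ℕ)) = some 3 := rfl
  have hYX : EqD 3 (([(Kind.crs (!e), 0), (.crs (!e), 1)] : List (Kind × ℕ)) ++ ([(Kind.crs e, 1), (.crs e, 0)] : List (Kind × ℕ))) [] := by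
    cases e
    · exact EqD.of_chk [(1, false, .r2 1 true), (0, false, .r2 0 true)] rfl
    · exact EqD.of_chk [(1, false, .r2 1 false), (0, false, .r2 0 false)] rfl
  have hXY : EqD 3 (([(Kind.crs e, 1), (.crs e, 0)] : List (Kind × ℕ)) ++ ([(Kind.crs (!e), 0), (.crs (!e), 1)] : List (Kind × ℕ))) [] := by
    cases e
    · exact EqD.of_chk [(1, false, .r2 0 false), (0, false, .r2 1 false)] rfl
    · exact EqD.of_chk [(1, false, .r2 0 true), (0, false, .r2 1 true)] rfl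
  have hn2 : EqD 3 (([(Kind.crs (!e), 0), (.crs (!e), 1)] : List (Kind × ℕ)) ++ G)
      (sh 1 G ++ ([(Kind.crs (!e), 0), (.crs (!e), 1)] : List (Kind × ℕ))) := by
    have h1 := hXY.symm.left (([(Kind.crs (!e), 0), (.crs (!e), 1)] : List (Kind × ℕ)) ++ G) (M := 3) (by
      rw [cnt_app cY, cG3])
    rw [List.append_nil] at h1
    have h2 := hn.ctx ([(Kind.crs (!e), 0), (.crs (!e), 1)] : List (Kind × ℕ)) ([(Kind.crs (!e), 0), (.crs (!e), 1)] : List (Kind × ℕ)) cY
      (by rw [List.append_assoc, cnt_app cY, List.append_assoc, cnt_app cG3]; simp [cnt, Kind.ins, Kind.outs])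
    have h3 := hYX.right (sh 1 G ++ ([(Kind.crs (!e), 0), (.crs (!e), 1)] : List (Kind × ℕ))) (by
      rw [List.append_assoc, cnt_app cY, cnt_app cX, cnt_app cS3]; simp [cnt, Kind.ins, Kind.outs])
    simp only [List.append_assoc, List.nil_append] at h1 h2 h3 ⊢
    exact (h1.trans h2).trans h3
  -- bottom
  have hb : EqD 1 ([(.cup, 1), (.crs e, 0)] : List (Kind × ℕ)) (([(.cup, 0)] : List (Kind × ℕ)) ++ ([(Kind.crs (!e), 0), (.crs (!e), 1)] : List (Kind × ℕ))) := by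
    cases e
    · exact EqD.of_chk [(0, true, .su 0 true), (0, true, .u1 0 true)] rfl
    · exact EqD.of_chk [(0, true, .su 0 false), (0, true, .u1 0 false)] rfl
  have ht : EqD 3 (([(Kind.crs (!e), 0), (.crs (!e), 1)] : List (Kind × ℕ)) ++ ([(.crs (!e), 0), (.cap, 1)] : List (Kind × ℕ)))
      ([(.cap, 0)] : List (Kind × ℕ)) := by
    cases e
    · exact EqD.of_chk [(2, true, .sa 0 false), (1, false, .r2 1 true), (0, false, .a1 0 true)] rfl
    · exact EqD.of_chk [(2, true, .sa 0 true), (1, false, .r2 1 false), (0, false, .a1 0 false)] rfl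
  have c1 : cnt 1 ([(Kind.cup, 0)] : List (Kind × ℕ)) = some 3 := rfl
  have s1 := hb.right (G ++ ([(.crs (!e), 0), (.cap, 1)] : List (Kind × ℕ))) (by
    rw [cnt_app (show cnt 1 ([((.cup : Kind), 1), (.crs e, 0)] : List (Kind × ℕ)) = some 3 from rfl), cnt_app cG3]
    simp [cnt, Kind.ins, Kind.outs])
  have s2 := hn2.ctx ([(.cup, 0)] : List (Kind × ℕ)) ([(.crs (!e), 0), (.cap, 1)] : List (Kind × ℕ)) c1 (by
    rw [List.append_assoc, cnt_app c1, List.append_assoc, cnt_app cY, cnt_app cG3]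
    simp [cnt, Kind.ins, Kind.outs])
  have s3 := ht.left (([(.cup, 0)] : List (Kind × ℕ)) ++ sh 1 G) (N := 1) (by rw [cnt_app c1, cS3])
  simp only [List.append_assoc] at s1 s2 s3 ⊢
  exact (s1.trans s2).trans s3

theorem cnt_L4_top (n : ℕ) : cnt (n + 7) ([((.cap : Kind), 3), (.cap, 2), (.cap, 1)] : List (Kind × ℕ)) = some (n + 1) := by
  simp only [cnt, Kind.ins, Kind.outs]
  rw [if_pos (by omega), if_pos (by omega), if_pos (by omega)]
  simp

/-- half twists of the first two strands on both sides -/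
theorem L4_conj (e : Bool) {w : Diag} (hw : cnt 4 w = some 4) :
    EqD 1 (L4 (([(.crs e, 0)] : List (Kind × ℕ)) ++ w ++ ([(.crs (!e), 0)] : List (Kind × ℕ))))
      (([(.cup, 0)] : List (Kind × ℕ)) ++ sh 1 (([(.cup, 2), (.cup, 3)] : List (Kind × ℕ)) ++ w ++ ([(.cap, 3), (.cap, 2)] : List (Kind × ℕ))) ++ ([(.cap, 0)] : List (Kind × ℕ))) := by
  have cw : cnt 7 w = some 7 := cnt_widen 3 _ _ _ hw
  have cw6 : cnt 6 w = some 6 := cnt_widen 2 _ _ _ hw
  have hG : cnt 2 (([(.cup, 2), (.cup, 3)] : List (Kind × ℕ)) ++ w ++ ([(.cap, 3), (.cap, 2)] : List (Kind × ℕ))) = some 2 := by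
    rw [List.append_assoc, cnt_app (show cnt 2 ([((.cup : Kind), 2), (.cup, 3)] : List (Kind × ℕ)) = some 6 from rfl),
      cnt_app cw6]
    rfl
  have hb : EqD 1 (([(.cup, 1), (.cup, 2), (.cup, 3)] : List (Kind × ℕ)) ++ ([(.crs e, 0)] : List (Kind × ℕ)))
      (([(.cup, 1), (.crs e, 0)] : List (Kind × ℕ)) ++ ([(.cup, 2), (.cup, 3)] : List (Kind × ℕ))) := by
    cases e
    · exact EqD.of_chk [(2, true, .far (.crs false) .cup 0 1), (1, true, .far (.crs false) .cup 0 0)] rfl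
    · exact EqD.of_chk [(2, true, .far (.crs true) .cup 0 1), (1, true, .far (.crs true) .cup 0 0)] rfl
  have ht : EqD 7 (([(.crs (!e), 0)] : List (Kind × ℕ)) ++ ([(.cap, 3), (.cap, 2), (.cap, 1)] : List (Kind × ℕ)))
      (([(.cap, 3), (.cap, 2)] : List (Kind × ℕ)) ++ ([(.crs (!e), 0), (.cap, 1)] : List (Kind × ℕ))) := by
    cases e
    · exact EqD.of_chk [(0, false, .far (.crs true) .cap 0 1), (1, false, .far (.crs true) .cap 0 0)] rfl
    · exact EqD.of_chk [(0, false, .far (.crs false) .cap 0 1), (1, false, .far (.crs false) .cap 0 0)] rfl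
  have c1 : cnt 1 (([(.cup, 1), (.cup, 2), (.cup, 3)] : List (Kind × ℕ)) ++ ([(Kind.crs e, 0)] : List (Kind × ℕ))) = some 7 := rfl
  have c2 : cnt 1 (([(.cup, 1), (Kind.crs e, 0)] : List (Kind × ℕ)) ++ ([(.cup, 2), (.cup, 3)] : List (Kind × ℕ))) = some 7 := rfl
  have s1 := hb.right (w ++ (([(.crs (!e), 0)] : List (Kind × ℕ)) ++ ([(.cap, 3), (.cap, 2), (.cap, 1)] : List (Kind × ℕ)))) (by
    rw [cnt_app c1, cnt_app cw, cnt_app (show cnt 7 ([(Kind.crs (!e), 0)] : List (Kind × ℕ)) = some 7 from rfl)]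
    exact (by decide))
  have s2 := ht.left (([(.cup, 1), (Kind.crs e, 0)] : List (Kind × ℕ)) ++ ([(.cup, 2), (.cup, 3)] : List (Kind × ℕ)) ++ w) (N := 1) (by
    rw [cnt_app c2, cw])
  have s3 := swing e hG
  unfold L4
  simp only [List.append_assoc] at s1 s2 s3 ⊢
  exact (s1.trans s2).trans s3

theorem cnt_cr2 (e : Bool) (n : ℕ) : cnt (n + 4) ([(Kind.crs e, 0)] : List (Kind × ℕ)) = some (n + 4) := by
  simp [cnt, Kind.ins, Kind.outs]

theorem r2_cancel (e : Bool) : EqD 7 (([(Kind.crs e, 0)] : List (Kind × ℕ)) ++ ([(Kind.crs (!e), 0)] : List (Kind × ℕ))) [] := by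
  cases e
  · exact EqD.of_chk [(0, false, .r2 0 false)] rfl
  · exact EqD.of_chk [(0, false, .r2 0 true)] rfl

theorem L4_congr {x y : Diag} (h : EqD 7 x y) (hx : cnt 7 x = some 7) : EqD 1 (L4 x) (L4 y) :=
  h.ctx _ _ (show cnt 1 ([((.cup : Kind), 1), (.cup, 2), (.cup, 3)] : List (Kind × ℕ)) = some 7 from rfl) (by
    rw [List.append_assoc, cnt_app (show cnt 1 ([((.cup : Kind), 1), (.cup, 2), (.cup, 3)] : List (Kind × ℕ)) = some 7 from rfl),
      cnt_app hx]
    decide)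

/-- full twists with the long strand move to the other end -/
theorem L4_full (e : Bool) {w : Diag} (hw : cnt 4 w = some 4) :
    EqD 1 (L4 (([(.crs e, 0), (.crs e, 0)] : List (Kind × ℕ)) ++ w)) (L4 (w ++ ([(.crs e, 0), (.crs e, 0)] : List (Kind × ℕ)))) := by
  have cw : cnt 7 w = some 7 := cnt_widen 3 _ _ _ hw
  have ce : ∀ e : Bool, cnt 7 ([(Kind.crs e, 0)] : List (Kind × ℕ)) = some 7 := fun e => rfl
  have hm : cnt 4 (([(.crs e, 0)] : List (Kind × ℕ)) ++ w ++ ([(.crs e, 0)] : List (Kind × ℕ))) = some 4 := by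
    rw [List.append_assoc, cnt_app (show cnt 4 ([(Kind.crs e, 0)] : List (Kind × ℕ)) = some 4 from rfl), cnt_app hw]
    rfl
  have h1 := L4_conj e hm
  have h2 := L4_conj (!e) hm
  rw [Bool.not_not] at h2
  have h3 : EqD 7 (([(.crs e, 0)] : List (Kind × ℕ)) ++ (([(.crs e, 0)] : List (Kind × ℕ)) ++ w ++ ([(.crs e, 0)] : List (Kind × ℕ))) ++ ([(.crs (!e), 0)] : List (Kind × ℕ)))
      (([(.crs e, 0), (.crs e, 0)] : List (Kind × ℕ)) ++ w) := by
    have h := (r2_cancel e).left (([(.crs e, 0)] : List (Kind × ℕ)) ++ (([(.crs e, 0)] : List (Kind × ℕ)) ++ w)) (N := 7) (by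
      rw [cnt_app (ce e), cnt_app (ce e), cw])
    simpa using h
  have h4 : EqD 7 (([(.crs (!e), 0)] : List (Kind × ℕ)) ++ (([(.crs e, 0)] : List (Kind × ℕ)) ++ w ++ ([(.crs e, 0)] : List (Kind × ℕ))) ++ ([(.crs e, 0)] : List (Kind × ℕ)))
      (w ++ ([(.crs e, 0), (.crs e, 0)] : List (Kind × ℕ))) := by
    have h := (r2_cancel (!e)).right (w ++ ([(.crs e, 0), (.crs e, 0)] : List (Kind × ℕ))) (by
      rw [List.append_assoc, cnt_app (ce _), cnt_app (ce _), cnt_app cw]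
      simp [cnt, Kind.ins, Kind.outs])
    rw [Bool.not_not] at h
    simpa using h
  have c3 : cnt 7 (([(.crs e, 0)] : List (Kind × ℕ)) ++ (([(.crs e, 0)] : List (Kind × ℕ)) ++ w ++ ([(.crs e, 0)] : List (Kind × ℕ))) ++ ([(.crs (!e), 0)] : List (Kind × ℕ))) =
      some 7 := by
    rw [List.append_assoc, cnt_app (ce _), List.append_assoc, List.append_assoc, cnt_app (ce _),
      cnt_app cw, cnt_app (ce _), ce]
  have c4 : cnt 7 (([(.crs (!e), 0)] : List (Kind × ℕ)) ++ (([(.crs e, 0)] : List (Kind × ℕ)) ++ w ++ ([(.crs e, 0)] : List (Kind × ℕ))) ++ ([(.crs e, 0)] : List (Kind × ℕ))) =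
      some 7 := by
    rw [List.append_assoc, cnt_app (ce _), List.append_assoc, List.append_assoc, cnt_app (ce _),
      cnt_app cw, cnt_app (ce _), ce]
  exact (((L4_congr h3 c3).symm.trans h1).trans h2.symm).trans (L4_congr h4 c4)

/-- a crossing of two strands that are closed moves to the other end -/
theorem L4_crs (e : Bool) {w : Diag} (hw : cnt 4 w = some 4) :
    EqD 1 (L4 (([(.crs e, 1)] : List (Kind × ℕ)) ++ w)) (L4 (w ++ ([(.crs e, 1)] : List (Kind × ℕ)))) := by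
  have cw : cnt 7 w = some 7 := cnt_widen 3 _ _ _ hw
  have hb : EqD 1 (([(.cup, 1), (.cup, 2), (.cup, 3)] : List (Kind × ℕ)) ++ ([(.crs e, 1)] : List (Kind × ℕ)))
      (([(.cup, 1), (.cup, 2), (.cup, 3)] : List (Kind × ℕ)) ++ ([(.crs e, 5)] : List (Kind × ℕ))) := by
    cases e
    · exact EqD.of_chk [(2, true, .far (.crs false) .cup 1 0), (1, true, .su 1 true),
        (0, true, .far .cup .cup 1 0), (1, true, .su 2 false),
        (2, true, .far .cup (.crs false) 3 0)] rfl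
    · exact EqD.of_chk [(2, true, .far (.crs true) .cup 1 0), (1, true, .su 1 false),
        (0, true, .far .cup .cup 1 0), (1, true, .su 2 true),
        (2, true, .far .cup (.crs true) 3 0)] rfl
  have ht : EqD 7 (([(.crs e, 5)] : List (Kind × ℕ)) ++ ([(.cap, 3), (.cap, 2), (.cap, 1)] : List (Kind × ℕ)))
      (([(.crs e, 1)] : List (Kind × ℕ)) ++ ([(.cap, 3), (.cap, 2), (.cap, 1)] : List (Kind × ℕ))) := by
    cases e
    · exact EqD.of_chk [(0, true, .far .cap (.crs false) 3 0), (1, false, .sa 2 false),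
        (2, true, .far .cap .cap 1 0), (1, false, .sa 1 true),
        (0, true, .far (.crs false) .cap 1 0)] rfl
    · exact EqD.of_chk [(0, true, .far .cap (.crs true) 3 0), (1, false, .sa 2 true),
        (2, true, .far .cap .cap 1 0), (1, false, .sa 1 false),
        (0, true, .far (.crs true) .cap 1 0)] rfl
  have hf : EqD 7 (w ++ ([(.crs e, 5)] : List (Kind × ℕ))) (([(.crs e, 5)] : List (Kind × ℕ)) ++ w) :=
    far_words w ([(.crs e, 1)] : List (Kind × ℕ)) 4 4 3 hw (by simp [cnt, Kind.ins, Kind.outs])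
  have c1 : cnt 1 ([((.cup : Kind), 1), (.cup, 2), (.cup, 3)] : List (Kind × ℕ)) = some 7 := rfl
  have c5 : ∀ i, i ≤ 5 → cnt 7 ([(Kind.crs e, i)] : List (Kind × ℕ)) = some 7 := by
    intro i hi
    simp only [cnt, Kind.ins, Kind.outs]
    rw [if_pos (by omega)]
  have s1 := hb.right (w ++ ([(.cap, 3), (.cap, 2), (.cap, 1)] : List (Kind × ℕ))) (by
    rw [cnt_app (show cnt 1 (([(.cup, 1), (.cup, 2), (.cup, 3)] : List (Kind × ℕ)) ++ ([(Kind.crs e, 1)] : List (Kind × ℕ))) = some 7 from rfl),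
      cnt_app cw]
    decide)
  have s2 := hf.symm.ctx ([((.cup : Kind), 1), (.cup, 2), (.cup, 3)] : List (Kind × ℕ)) ([(.cap, 3), (.cap, 2), (.cap, 1)] : List (Kind × ℕ)) c1 (by
    rw [List.append_assoc, cnt_app c1, List.append_assoc, cnt_app (c5 5 le_rfl), cnt_app cw]
    decide)
  have s3 := ht.left (([((.cup : Kind), 1), (.cup, 2), (.cup, 3)] : List (Kind × ℕ)) ++ w) (N := 1) (by
    rw [cnt_app c1, cw])
  unfold L4
  simp only [List.append_assoc] at s1 s2 s3 ⊢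
  exact (s1.trans s2).trans s3

/-- the minimum moves to the other end -/
theorem L4_cup {w : Diag} (hw : cnt 4 w = some 2) :
    EqD 1 (Lc (([(.cup, 1)] : List (Kind × ℕ)) ++ w)) (L4 (w ++ ([(.cup, 1)] : List (Kind × ℕ)))) := by
  have cw5 : cnt 5 w = some 3 := cnt_widen 1 _ _ _ hw
  have cw : cnt 7 w = some 5 := cnt_widen 3 _ _ _ hw
  have ht : EqD 5 (([(.cup, 1)] : List (Kind × ℕ)) ++ ([(.cap, 3), (.cap, 2), (.cap, 1)] : List (Kind × ℕ))) (([(.cap, 3)] : List (Kind × ℕ)) ++ ([(.cap, 1)] : List (Kind × ℕ))) :=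
    EqD.of_chk [(0, false, .far .cup .cap 1 0), (1, false, .zz 1), (0, false, .far .cap .cap 1 0)]
      rfl
  have hb : EqD 1 (([(.cup, 1), (.cup, 2), (.cup, 3)] : List (Kind × ℕ)) ++ ([(.cap, 5)] : List (Kind × ℕ))) ([(.cup, 1), (.cup, 1)] : List (Kind × ℕ)) :=
    EqD.of_chk [(2, false, .far .cup .cap 3 0), (1, false, .zz 2), (0, false, .far .cup .cup 1 0)]
      rfl
  have hf : EqD 7 (w ++ ([(.cap, 3)] : List (Kind × ℕ))) (([(.cap, 5)] : List (Kind × ℕ)) ++ w) :=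
    far_words w ([(.cap, 1)] : List (Kind × ℕ)) 4 2 3 hw (by decide)
  have c1 : cnt 1 ([((.cup : Kind), 1), (.cup, 2), (.cup, 3)] : List (Kind × ℕ)) = some 7 := rfl
  have s1 := ht.left (([((.cup : Kind), 1), (.cup, 2), (.cup, 3)] : List (Kind × ℕ)) ++ w) (N := 1) (by
    rw [cnt_app c1, cw])
  have s2 := hf.ctx ([((.cup : Kind), 1), (.cup, 2), (.cup, 3)] : List (Kind × ℕ)) ([(.cap, 1)] : List (Kind × ℕ)) c1 (by
    rw [List.append_assoc, cnt_app c1, List.append_assoc, cnt_app cw]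
    decide)
  have s3 := hb.right (w ++ ([(.cap, 1)] : List (Kind × ℕ))) (by
    rw [List.append_assoc, cnt_app c1, cnt_app (show cnt 7 ([((.cap : Kind), 5)] : List (Kind × ℕ)) = some 5 from rfl),
      cnt_app cw5]
    decide)
  unfold L4 Lc
  simp only [List.append_assoc, List.cons_append, List.nil_append] at s1 s2 s3 ⊢
  exact ((s1.trans s2).trans s3).symm

/-- the maximum moves to the other end -/
theorem L4_cap {w : Diag} (hw : cnt 2 w = some 4) :
    EqD 1 (L4 (([(.cap, 2)] : List (Kind × ℕ)) ++ w)) (Lc (w ++ ([(.cap, 2)] : List (Kind × ℕ)))) := by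
  have cw3 : cnt 3 w = some 5 := cnt_widen 1 _ _ _ hw
  have cw5 : cnt 5 w = some 7 := cnt_widen 3 _ _ _ hw
  have hb : EqD 1 (([(.cup, 1), (.cup, 2), (.cup, 3)] : List (Kind × ℕ)) ++ ([(.cap, 2)] : List (Kind × ℕ))) (([(.cup, 1)] : List (Kind × ℕ)) ++ ([(.cup, 2)] : List (Kind × ℕ))) :=
    EqD.of_chk [(2, false, .zg 2)] rfl
  have hf : EqD 3 (w ++ ([(.cup, 4)] : List (Kind × ℕ))) (([(.cup, 2)] : List (Kind × ℕ)) ++ w) :=
    far_words w ([(.cup, 0)] : List (Kind × ℕ)) 2 4 1 hw (by decide)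
  have ht : EqD 5 (([(.cup, 4)] : List (Kind × ℕ)) ++ ([(.cap, 3), (.cap, 2), (.cap, 1)] : List (Kind × ℕ))) ([(.cap, 2), (.cap, 1)] : List (Kind × ℕ)) :=
    EqD.of_chk [(0, false, .zg 3)] rfl
  have c1 : cnt 1 ([((.cup : Kind), 1)] : List (Kind × ℕ)) = some 3 := rfl
  have s1 := hb.right (w ++ ([(.cap, 3), (.cap, 2), (.cap, 1)] : List (Kind × ℕ))) (by
    rw [List.append_assoc,
      cnt_app (show cnt 1 ([((.cup : Kind), 1), (.cup, 2), (.cup, 3)] : List (Kind × ℕ)) = some 7 from rfl),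
      cnt_app (show cnt 7 ([((.cap : Kind), 2)] : List (Kind × ℕ)) = some 5 from rfl), cnt_app cw5]
    decide)
  have s2 := hf.symm.ctx ([((.cup : Kind), 1)] : List (Kind × ℕ)) ([(.cap, 3), (.cap, 2), (.cap, 1)] : List (Kind × ℕ)) c1 (by
    rw [List.append_assoc, cnt_app c1, List.append_assoc,
      cnt_app (show cnt 3 ([((.cup : Kind), 2)] : List (Kind × ℕ)) = some 5 from rfl), cnt_app cw5]
    decide)
  have s3 := ht.left (([((.cup : Kind), 1)] : List (Kind × ℕ)) ++ w) (N := 1) (by rw [cnt_app c1, cw3])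
  unfold L4 Lc
  simp only [List.append_assoc, List.cons_append, List.nil_append] at s1 s2 s3 ⊢
  exact (s1.trans s2).trans s3

end Pool.Agent.Mont
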