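import Pool.Agent.Mont.Cyc

/-!
Long Montesinos diagrams: cyclic rotation of the tangles.
-/

namespace Pool.Agent.Mont

open Pool.Agent.LibH11 Pool.Agent.LibH11.Sliced Pool.Agent.TB Pool.Agent.TwoBr Pool.Agent.TS

theorem cnt_rep (e : Bool) (p : ℕ) {N : ℕ} (h : p + 2 ≤ N) : ∀ k : ℕ,
    cnt N (List.replicate k (Kind.crs e, p)) = some N := by
  intro k
  induction k with
  | zero => rfl
  | succ k ih =>
    rw [List.replicate_succ]
    simp only [cnt, Kind.ins, Kind.outs]
    rw [if_pos h, show N - 2 + 2 = N by omega, ih]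

theorem cnt_twN (a : ℤ) (p : ℕ) {N : ℕ} (h : p + 2 ≤ N) : cnt N (tw p a) = some N :=
  cnt_rep _ p h _

theorem cnt_twdN : ∀ (x : List ℤ) (p : ℕ) {N : ℕ}, p ≤ 1 → 3 ≤ N → cnt N (twd p x) = some N := by
  intro x
  induction x with
  | nil => intro p N _ _; rfl
  | cons a x ih =>
    intro p N hp hN
    rw [twd, cnt_app (cnt_twN a p (by omega)), ih (1 - p) (by omega) hN]

theorem rep_comm {α : Type*} (c : α) (k : ℕ) : List.replicate k c ++ [c] = c :: List.replicate k c := by
  rw [← List.replicate_succ', List.replicate_succ]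

theorem L4_rep0 (e : Bool) : ∀ (k : ℕ) {w : Diag}, cnt 4 w = some 4 →
    EqD 1 (L4 (List.replicate (2 * k) (Kind.crs e, 0) ++ w))
      (L4 (w ++ List.replicate (2 * k) (Kind.crs e, 0))) := by
  intro k
  induction k with
  | zero =>
    intro w _
    simp only [Nat.mul_zero, List.replicate_zero, List.nil_append, List.append_nil]
    exact EqD.refl _
  | succ k ih =>
    intro w hw
    have e1 : List.replicate (2 * (k + 1)) (Kind.crs e, 0) =
        [(Kind.crs e, 0), (Kind.crs e, 0)] ++ List.replicate (2 * k) (Kind.crs e, 0) := by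
      rw [show 2 * (k + 1) = 2 * k + 1 + 1 by ring, List.replicate_succ, List.replicate_succ]
      rfl
    have cr : cnt 4 (List.replicate (2 * k) (Kind.crs e, 0)) = some 4 := cnt_rep e 0 (by omega) _
    have c2 : cnt 4 [(Kind.crs e, 0), (Kind.crs e, 0)] = some 4 := rfl
    have h1 := L4_full e (w := List.replicate (2 * k) (Kind.crs e, 0) ++ w) (by
      rw [cnt_app cr, hw])
    have h2 := ih (w := w ++ [(Kind.crs e, 0), (Kind.crs e, 0)]) (by rw [cnt_app hw, c2])
    rw [e1]
    simp only [List.append_assoc] at h1 h2 ⊢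
    exact h1.trans h2

theorem L4_rep1 (e : Bool) : ∀ (k : ℕ) {w : Diag}, cnt 4 w = some 4 →
    EqD 1 (L4 (List.replicate k (Kind.crs e, 1) ++ w))
      (L4 (w ++ List.replicate k (Kind.crs e, 1))) := by
  intro k
  induction k with
  | zero =>
    intro w _
    simp only [List.replicate_zero, List.nil_append, List.append_nil]
    exact EqD.refl _
  | succ k ih =>
    intro w hw
    have e1 : List.replicate (k + 1) (Kind.crs e, 1) =
        [(Kind.crs e, 1)] ++ List.replicate k (Kind.crs e, 1) := List.replicate_succ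
    have cr : cnt 4 (List.replicate k (Kind.crs e, 1)) = some 4 := cnt_rep e 1 (by omega) _
    have c2 : cnt 4 [(Kind.crs e, 1)] = some 4 := rfl
    have h1 := L4_crs e (w := List.replicate k (Kind.crs e, 1) ++ w) (by rw [cnt_app cr, hw])
    have h2 := ih (w := w ++ [(Kind.crs e, 1)]) (by rw [cnt_app hw, c2])
    rw [e1]
    simp only [List.append_assoc] at h1 h2 ⊢
    exact h1.trans h2

theorem L4_twd : ∀ (x : List ℤ) (p : ℕ), p ≤ 1 → ∀ {w : Diag}, cnt 4 w = some 4 →
    EqD 1 (L4 (twd p x ++ w)) (L4 (w ++ twd p x)) := by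
  intro x
  induction x with
  | nil =>
    intro p _ w _
    simp only [twd, List.nil_append, List.append_nil]
    exact EqD.refl _
  | cons a x ih =>
    intro p hp w hw
    have c1 : cnt 4 (tw p a) = some 4 := cnt_twN a p (by omega)
    have c2 : cnt 4 (twd (1 - p) x) = some 4 := cnt_twdN x (1 - p) (by omega) (by omega)
    have h1 : EqD 1 (L4 (tw p a ++ (twd (1 - p) x ++ w))) (L4 ((twd (1 - p) x ++ w) ++ tw p a)) := by
      interval_cases p
      · exact L4_rep0 _ _ (by rw [cnt_app c2, hw])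
      · exact L4_rep1 _ _ (by rw [cnt_app c2, hw])
    have h2 := ih (1 - p) (by omega) (w := w ++ tw p a) (by rw [cnt_app hw, c1])
    rw [twd]
    simp only [List.append_assoc] at h1 h2 ⊢
    exact h1.trans h2

/-- **Cyclic rotation** of one tangle through which the long strand runs. -/
theorem cyc_one {t : NT} (ht : t.1 = false) {Y : Diag} (hY : cnt 2 Y = some 2) :
    EqD 1 (Lc (Tt t ++ Y)) (Lc (Y ++ Tt t)) := by
  obtain ⟨f, x⟩ := t
  simp only at ht
  subst ht
  have cY4 : cnt 4 Y = some 4 := cnt_widen 2 _ _ _ hY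
  have ct : cnt 4 (twd 0 x) = some 4 := cnt_twdN x 0 (by omega) (by omega)
  have cc : cnt 4 [((.cap : Kind), 2)] = some 2 := rfl
  have cu : cnt 2 [((.cup : Kind), 1)] = some 4 := rfl
  have h1 := L4_cup (w := twd 0 x ++ ([(.cap, 2)] ++ Y)) (by
    rw [cnt_app ct, cnt_app cc, hY])
  have h2 := L4_twd x 0 (by omega) (w := [(.cap, 2)] ++ (Y ++ [(.cup, 1)])) (by
    rw [cnt_app cc, cnt_app hY, cu])
  have h3 := L4_cap (w := Y ++ ([(.cup, 1)] ++ twd 0 x)) (by
    rw [cnt_app hY, cnt_app cu, ct])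
  have e1 : Tt (false, x) = [(.cup, 1)] ++ (twd 0 x ++ [(.cap, 2)]) := rfl
  rw [e1]
  simp only [List.append_assoc] at h1 h2 h3 ⊢
  exact (h1.trans h2).trans h3

theorem cnt_Tts : ∀ ts : List NT, cnt 2 ((ts.map Tt).flatten) = some 2 := by
  intro ts
  induction ts with
  | nil => rfl
  | cons t ts ih => rw [List.map_cons, List.flatten_cons, cnt_app (cnt_Tt t), ih]

theorem cyc_list : ∀ (ts : List NT), (∀ t ∈ ts, t.1 = false) → ∀ {Y : Diag}, cnt 2 Y = some 2 →
    EqD 1 (Lc ((ts.map Tt).flatten ++ Y)) (Lc (Y ++ (ts.map Tt).flatten)) := by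
  intro ts
  induction ts with
  | nil =>
    intro _ Y _
    simp only [List.map_nil, List.flatten_nil, List.nil_append, List.append_nil]
    exact EqD.refl _
  | cons t ts ih =>
    intro h Y hY
    have h1 := cyc_one (h t List.mem_cons_self) (Y := (ts.map Tt).flatten ++ Y) (by
      rw [cnt_app (cnt_Tts ts), hY])
    have h2 := ih (fun s hs => h s (List.mem_cons_of_mem _ hs)) (Y := Y ++ Tt t) (by
      rw [cnt_app hY, cnt_Tt])
    rw [List.map_cons, List.flatten_cons]
    simp only [List.append_assoc] at h1 h2 ⊢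
    exact h1.trans h2

end Pool.Agent.Mont
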