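import Pool.Agent.TwoBr.NF
import Pool.Agent.TwoBr.Rev

/-!
Montesinos knots: long diagrams, slopes, normal forms.

`mont us`: one minimum, the rational tangles `tgl u` (on two strands, one above the other), one
maximum. The slope of `tgl u` is `β / α` with `(β, α) = tvec (0, 1) u`.
-/

namespace Pool.Agent.Mont

open Pool.Agent.LibH11 Pool.Agent.LibH11.Sliced Pool.Agent.TB Pool.Agent.TwoBr

/-- The rational tangle (from two strands to two strands) of a word in the two crossings of three
strands: one minimum, the crossings on the first three strands, one maximum. -/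
def tgl (u : List (Fin 2 × Bool)) : Diag := (.cup, 1) :: (bw u ++ [(.cap, 2)])

/-- The long diagram of the Montesinos knot with the tangles `us`. -/
def mont (us : List (List (Fin 2 × Bool))) : Diag :=
  (.cup, 1) :: ((us.map tgl).flatten ++ [(.cap, 1)])

/-- The action of a crossing on the vector `(β, α)`. -/
def lact : Fin 2 × Bool → ℤ × ℤ → ℤ × ℤ
  | (0, true), (b, a) => (b - a, a)
  | (0, false), (b, a) => (b + a, a)
  | (1, true), (b, a) => (b, a + b)
  | (1, false), (b, a) => (b, a - b)

/-- The vector `(β, α)` after the crossings of a word, starting with `v`. -/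
def tvec (v : ℤ × ℤ) (u : List (Fin 2 × Bool)) : ℤ × ℤ := u.foldl (fun v p => lact p v) v

/-- The denominator of the slope of the tangle `tgl u` (up to sign). -/
def den (u : List (Fin 2 × Bool)) : ℤ := (tvec (0, 1) u).2

/-- The slope of the tangle `tgl u`. -/
def slope (u : List (Fin 2 × Bool)) : ℚ := ((tvec (0, 1) u).1 : ℚ) / ((tvec (0, 1) u).2 : ℚ)

/-! ### Normal forms -/

/-- A tangle in normal form: a flag and the word of twist regions. -/
abbrev NT := Bool × List ℤ

/-- The tangle in normal form: `cup 1, (crs 0)^(2 x_1), (crs 1)^(2 x_2), ..., cap 2`, respectively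
(if the flag is `true`) `cup 0, (crs 1)^(2 x_1), (crs 0)^(2 x_2), ..., cap 2`. -/
def Tt : NT → Diag
  | (false, x) => (.cup, 1) :: (twd 0 x ++ [(.cap, 2)])
  | (true, x) => (.cup, 0) :: (twd 1 x ++ [(.cap, 2)])

/-- half twists of the first two strands -/
def ht (e : ℤ) : Diag := List.replicate e.natAbs (Kind.crs (decide (0 < e)), 0)

/-- the diagram in normal form -/
def mdiag (ts : List NT) (e : ℤ) : Diag :=
  (.cup, 1) :: ((ts.map Tt).flatten ++ ht e ++ [(.cap, 1)])

/-- The vector `(β, α)` of a tangle in normal form. -/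
def nvec : NT → ℤ × ℤ
  | (false, x) => tvec (0, 1) (wordOf 0 x)
  | (true, x) => tvec (1, 0) (wordOf 1 x)

/-- its slope -/
def nslope (t : NT) : ℚ := ((nvec t).1 : ℚ) / ((nvec t).2 : ℚ)

/-- A tangle in normal form: no empty twist regions; the last twist region is at the position 1. -/
def NOk : NT → Prop
  | (false, x) => (∀ a ∈ x, a ≠ 0) ∧ Even x.length ∧ x ≠ []
  | (true, x) => (∀ a ∈ x, a ≠ 0) ∧ Odd x.length

/-- The normal form of long Montesinos diagrams. -/
structure Nrm (ts : List NT) (e : ℤ) : Prop where
  ok : ∀ t ∈ ts, NOk t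
  par : ((∀ t ∈ ts, t.1 = false) ∧ Odd e) ∨ ((ts.filter fun t => t.1).length = 1 ∧ Even e)

end Pool.Agent.Mont
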