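import Pool.Agent.Mont.Cyc2

/-!
Diagrams turned upside down (rotated about a horizontal axis); long Montesinos diagrams turned
upside down.
-/

namespace Pool.Agent.Mont

open Pool.Agent.LibH11 Pool.Agent.LibH11.Sliced Pool.Agent.TB Pool.Agent.TwoBr Pool.Agent.TS

/-- a slice turned upside down -/
def flipK : Kind → Kind
  | .cup => .cap
  | .cap => .cup
  | .crs e => .crs e

/-- the diagram turned upside down -/
def flipD (w : Diag) : Diag := (w.map fun p => (flipK p.1, p.2)).reverse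

theorem flipD_nil : flipD [] = [] := rfl

theorem flipD_cons (p : Kind × ℕ) (w : Diag) : flipD (p :: w) = flipD w ++ [(flipK p.1, p.2)] := by
  simp [flipD]

theorem flipD_append (u v : Diag) : flipD (u ++ v) = flipD v ++ flipD u := by simp [flipD]

theorem flipK_ins (k : Kind) : (flipK k).ins = k.outs := by cases k <;> rfl

theorem flipK_outs (k : Kind) : (flipK k).outs = k.ins := by cases k <;> rfl

theorem cnt_flip : ∀ (w : Diag) {N M : ℕ}, cnt N w = some M → cnt M (flipD w) = some N := by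
  intro w
  induction w with
  | nil =>
    intro N M h
    simp only [cnt, Option.some.injEq] at h
    subst h
    rfl
  | cons p w ih =>
    obtain ⟨k, i⟩ := p
    intro N M h
    obtain ⟨h1, h2⟩ := cnt_cons_some h
    rw [flipD_cons, cnt_app (ih h2)]
    simp only [cnt, flipK_ins, flipK_outs]
    rw [if_pos (by omega)]
    congr 1
    omega

theorem move_flip {a b : Diag} (h : Move a b) :
    Move (flipD a) (flipD b) ∨ Move (flipD b) (flipD a) := by
  cases h with
  | far p q i k =>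
    right
    have := Move.far (flipK p) (flipK q) i k
    rw [flipK_ins, flipK_outs] at this
    exact this
  | zigzag i => exact Or.inl (Move.zagzig i)
  | zagzig i => exact Or.inl (Move.zigzag i)
  | slideCap i e => exact Or.inl (Move.slideCup i e)
  | slideCup i e => exact Or.inl (Move.slideCap i e)
  | r1Cap i e => exact Or.inl (Move.r1Cup i e)
  | r1Cup i e => exact Or.inl (Move.r1Cap i e)
  | r2 i e =>
    left
    have := Move.r2 i (!e)
    rw [Bool.not_not] at this
    exact this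
  | r3 i => exact Or.inl (Move.r3 i)

theorem EqD_flip {N M : ℕ} {x y : Diag} (h : EqD N x y) (hx : cnt N x = some M) :
    EqD M (flipD x) (flipD y) := by
  induction h with
  | rel x y h =>
    have hy : cnt N y = some M := by rw [← h.cnt_eq]; exact hx
    obtain ⟨u, a, b, v, hm, rfl, rfl, -, -⟩ := h
    have cx := cnt_flip _ hx
    have cy := cnt_flip _ hy
    have e1 : ∀ c : Diag, flipD (u ++ c ++ v) = flipD v ++ flipD c ++ flipD u := by
      intro c
      rw [flipD_append, flipD_append, List.append_assoc]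
    rcases move_flip hm with h1 | h1
    · exact Relation.EqvGen.rel _ _ ⟨_, _, _, _, h1, e1 _, e1 _, by rw [cx]; simp, by rw [cy]; simp⟩
    · exact Relation.EqvGen.symm _ _
        (Relation.EqvGen.rel _ _ ⟨_, _, _, _, h1, e1 _, e1 _, by rw [cy]; simp, by rw [cx]; simp⟩)
  | refl x => exact EqD.refl _
  | symm x y h ih =>
    have h1 := EqD.cnt_eq h
    exact (ih (by rw [h1]; exact hx)).symm
  | trans x y z h _ ih1 ih2 =>
    have h1 := EqD.cnt_eq h
    exact (ih1 hx).trans (ih2 (by rw [← h1]; exact hx))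

/-! ### Rational tangles -/

/-- a horizontal twist moves from the upper right to the lower right end -/
theorem hor_twist (e : Bool) {T : Diag} (hT : cnt 2 T = some 2) :
    EqD 2 (([(.cup, 1)] : List (Kind × ℕ)) ++ T ++ ([(.crs e, 1), (.cap, 2)] : List (Kind × ℕ))) (([(.cup, 2), (.crs e, 1)] : List (Kind × ℕ)) ++ T ++ ([(.cap, 1)] : List (Kind × ℕ))) := by
  have cT : cnt 4 T = some 4 := cnt_widen 2 _ _ _ hT
  have ht : EqD 4 ([(.crs e, 1), (.cap, 2)] : List (Kind × ℕ)) (([(.crs (!e), 2)] : List (Kind × ℕ)) ++ ([(.cap, 1)] : List (Kind × ℕ))) := by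
    cases e
    · exact EqD.of_chk [(0, true, .sa 1 true)] rfl
    · exact EqD.of_chk [(0, true, .sa 1 false)] rfl
  have hb : EqD 2 (([(.cup, 1)] : List (Kind × ℕ)) ++ ([(.crs (!e), 2)] : List (Kind × ℕ))) ([(.cup, 2), (.crs e, 1)] : List (Kind × ℕ)) := by
    cases e
    · exact EqD.of_chk [(0, false, .su 1 true)] rfl
    · exact EqD.of_chk [(0, false, .su 1 false)] rfl
  have hf : EqD 4 (T ++ ([(.crs (!e), 2)] : List (Kind × ℕ))) (([(.crs (!e), 2)] : List (Kind × ℕ)) ++ T) :=
    far_words T ([(.crs (!e), 0)] : List (Kind × ℕ)) 2 2 2 hT (by simp [cnt, Kind.ins, Kind.outs])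
  have c1 : cnt 2 ([((.cup : Kind), 1)] : List (Kind × ℕ)) = some 4 := rfl
  have s1 := ht.left (([(.cup, 1)] : List (Kind × ℕ)) ++ T) (N := 2) (by rw [cnt_app c1, cT])
  have s2 := hf.ctx ([(.cup, 1)] : List (Kind × ℕ)) ([(.cap, 1)] : List (Kind × ℕ)) c1 (by
    rw [List.append_assoc, cnt_app c1, List.append_assoc, cnt_app cT]
    simp [cnt, Kind.ins, Kind.outs])
  have s3 := hb.right (T ++ ([(.cap, 1)] : List (Kind × ℕ))) (by
    rw [List.append_assoc, cnt_app c1, cnt_app (show cnt 4 ([(Kind.crs (!e), 2)] : List (Kind × ℕ)) = some 4 from rfl),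
      cnt_app cT]
    decide)
  simp only [List.append_assoc] at s1 s2 s3 ⊢
  exact (s1.trans s2).trans s3

theorem tgl_snoc0 (u : List (Fin 2 × Bool)) (e : Bool) :
    EqD 2 (tgl (u ++ [(0, e)])) (tgl u ++ ([(.crs e, 0)] : List (Kind × ℕ))) := by
  have c1 : cnt 2 ((.cup, 1) :: bw u) = some 4 := cnt_bwk u 1
  have h : EqD 4 ([(.crs e, 0), (.cap, 2)] : List (Kind × ℕ)) ([(.cap, 2), (.crs e, 0)] : List (Kind × ℕ)) := by
    cases e
    · exact EqD.of_chk [(0, false, .far (.crs false) .cap 0 0)] rfl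
    · exact EqD.of_chk [(0, false, .far (.crs true) .cap 0 0)] rfl
  have s := h.left _ c1
  have e1 : tgl (u ++ [(0, e)]) = (.cup, 1) :: bw u ++ ([(.crs e, 0), (.cap, 2)] : List (Kind × ℕ)) := by
    rw [tgl, bw_append]
    simp [bw]
  have e2 : tgl u ++ ([(.crs e, 0)] : List (Kind × ℕ)) = (.cup, 1) :: bw u ++ ([(.cap, 2), (.crs e, 0)] : List (Kind × ℕ)) := by
    rw [tgl]
    simp
  rw [e1, e2]
  exact s

theorem tgl_snoc1 (u : List (Fin 2 × Bool)) (e : Bool) :
    EqD 2 (tgl (u ++ [(1, e)])) (([(.cup, 1)] : List (Kind × ℕ)) ++ tgl u ++ ([(.crs e, 1), (.cap, 2)] : List (Kind × ℕ))) := by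
  have cb : cnt 4 (bw u) = some 4 := cnt_bwk u 1
  have cb6 : cnt 6 (bw u) = some 6 := cnt_bwk u 3
  have h1 : EqD 2 ([(.cup, 1), (.cup, 1)] : List (Kind × ℕ)) (([(.cup, 1)] : List (Kind × ℕ)) ++ ([(.cup, 3)] : List (Kind × ℕ))) :=
    EqD.of_chk [(0, true, .far .cup .cup 1 0)] rfl
  have h2 : EqD 4 (bw u ++ ([(.cup, 3)] : List (Kind × ℕ))) (([(.cup, 3)] : List (Kind × ℕ)) ++ bw u) :=
    far_words (bw u) ([(.cup, 0)] : List (Kind × ℕ)) 3 3 1 (cnt_bw u) (by decide)
  have h3 : EqD 4 (([(.cup, 3)] : List (Kind × ℕ)) ++ ([(.cap, 2)] : List (Kind × ℕ))) [] := EqD.of_chk [(0, false, .zg 2)] rfl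
  have c1 : cnt 2 ([((.cup : Kind), 1)] : List (Kind × ℕ)) = some 4 := rfl
  have s1 := h1.right (bw u ++ (([(.cap, 2)] : List (Kind × ℕ)) ++ ([(.crs e, 1), (.cap, 2)] : List (Kind × ℕ)))) (by
    rw [cnt_app (show cnt 2 ([((.cup : Kind), 1), (.cup, 1)] : List (Kind × ℕ)) = some 6 from rfl), cnt_app cb6]
    simp [cnt, Kind.ins, Kind.outs])
  have s2 := h2.symm.ctx ([(.cup, 1)] : List (Kind × ℕ)) (([(.cap, 2)] : List (Kind × ℕ)) ++ ([(.crs e, 1), (.cap, 2)] : List (Kind × ℕ))) c1 (by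
    rw [List.append_assoc, cnt_app c1, List.append_assoc,
      cnt_app (show cnt 4 ([((.cup : Kind), 3)] : List (Kind × ℕ)) = some 6 from rfl), cnt_app cb6]
    simp [cnt, Kind.ins, Kind.outs])
  have s3 := h3.ctx (([(.cup, 1)] : List (Kind × ℕ)) ++ bw u) ([(.crs e, 1), (.cap, 2)] : List (Kind × ℕ)) (N := 2) (by
    rw [cnt_app c1, cb]) (by
    rw [List.append_assoc, List.append_assoc, cnt_app c1, cnt_app cb]
    simp [cnt, Kind.ins, Kind.outs])
  have e1 : tgl (u ++ [(1, e)]) = ([(.cup, 1)] : List (Kind × ℕ)) ++ bw u ++ [] ++ ([(.crs e, 1), (.cap, 2)] : List (Kind × ℕ)) := by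
    rw [tgl, bw_append]
    simp [bw]
  have e2 : ([(.cup, 1)] : List (Kind × ℕ)) ++ tgl u ++ ([(.crs e, 1), (.cap, 2)] : List (Kind × ℕ)) =
      ([(.cup, 1), (.cup, 1)] : List (Kind × ℕ)) ++ (bw u ++ (([(.cap, 2)] : List (Kind × ℕ)) ++ ([(.crs e, 1), (.cap, 2)] : List (Kind × ℕ)))) := by
    rw [tgl]
    simp
  rw [e1, e2]
  simp only [List.append_assoc] at s1 s2 s3 ⊢
  exact ((s1.trans s2).trans s3).symm

theorem flype_crs (e : Bool) (u : List (Fin 2 × Bool)) :
    EqD 2 (([(.crs e, 0)] : List (Kind × ℕ)) ++ tgl u) (tgl u ++ ([(.crs e, 0)] : List (Kind × ℕ))) := by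
  cases e
  · exact flype_ht u (-1)
  · exact flype_ht u 1

/-- rational tangles are invariant under the rotation about the horizontal axis -/
theorem flip_tgl (u : List (Fin 2 × Bool)) : EqD 2 (flipD (tgl u)) (tgl u) := by
  induction u using List.reverseRecOn with
  | nil => exact EqD.of_chk [(0, false, .zg 1), (0, true, .zz 1)] rfl
  | append_singleton u p ih =>
    obtain ⟨i, e⟩ := p
    fin_cases i
    · have h0 := tgl_snoc0 u e
      have h1 := EqD_flip h0 (cnt_tgl _)
      rw [flipD_append] at h1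
      have h2 := ih.left ([(.crs e, 0)] : List (Kind × ℕ)) (show cnt 2 ([(Kind.crs e, 0)] : List (Kind × ℕ)) = some 2 from rfl)
      have h3 := flype_crs e u
      exact ((h1.trans h2).trans h3).trans h0.symm
    · have h0 := tgl_snoc1 u e
      have h1 := EqD_flip h0 (cnt_tgl _)
      rw [flipD_append, flipD_append] at h1
      have c1 : cnt 2 ([((.cup : Kind), 2), (.crs e, 1)] : List (Kind × ℕ)) = some 4 := rfl
      have c2 : cnt 4 (flipD (tgl u)) = some 4 := cnt_widen 2 _ _ _ (cnt_flip _ (cnt_tgl u))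
      have h2 := (ih.widen 2).ctx ([(.cup, 2), (.crs e, 1)] : List (Kind × ℕ)) ([(.cap, 1)] : List (Kind × ℕ)) c1 (by
        rw [List.append_assoc, cnt_app c1, cnt_app c2]
        decide)
      have h3 := hor_twist e (cnt_tgl u)
      rw [← List.append_assoc] at h1
      exact ((h1.trans h2).trans h3.symm).trans h0.symm

theorem flip_Tt (t : NT) : EqD 2 (flipD (Tt t)) (Tt t) := by
  obtain ⟨w, hw⟩ := Tt_tgl t
  exact ((EqD_flip hw (cnt_Tt t)).trans (flip_tgl w)).trans hw.symm

theorem flip_ht (e : ℤ) : flipD (ht e) = ht e := by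
  simp [flipD, ht, flipK]

theorem flip_flat (ts : List NT) :
    EqD 2 (flipD ((ts.map Tt).flatten)) ((ts.reverse.map Tt).flatten) := by
  induction ts with
  | nil => exact EqD.refl _
  | cons t ts ih =>
    have e1 : (((t :: ts).reverse).map Tt).flatten = (ts.reverse.map Tt).flatten ++ Tt t := by
      simp
    rw [e1, List.map_cons, List.flatten_cons, flipD_append]
    have c1 : cnt 2 (flipD ((ts.map Tt).flatten)) = some 2 := cnt_flip _ (cnt_flat ts)
    have h1 := (flip_Tt t).left _ c1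
    have h2 := ih.right (Tt t) (by rw [cnt_app c1, cnt_Tt]; simp)
    exact h1.trans h2

theorem mdiag_eq_Lc (ts : List NT) (e : ℤ) : mdiag ts e = Lc ((ts.map Tt).flatten ++ ht e) := rfl

theorem cnt_body (ts : List NT) (e : ℤ) : cnt 2 ((ts.map Tt).flatten ++ ht e) = some 2 := by
  rw [cnt_app (cnt_flat ts), cnt_ht]

theorem flip_Lc (Z : Diag) : flipD (Lc Z) = Lc (flipD Z) := by
  simp [Lc, flipD_cons, flipD_append, flipK, flipD_nil]

/-- A long Montesinos diagram turned upside down: the order of the tangles is reversed. -/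
theorem flip_mdiag (ts : List NT) (e : ℤ) : EqD 1 (flipD (mdiag ts e)) (mdiag ts.reverse e) := by
  rw [mdiag_eq_Lc, mdiag_eq_Lc, flip_Lc]
  have c1 : cnt 2 (flipD ((ts.map Tt).flatten ++ ht e)) = some 2 := cnt_flip _ (cnt_body ts e)
  refine close_eqd ?_ c1
  rw [flipD_append, flip_ht]
  have h1 := (flip_flat ts).left (ht e) (cnt_ht e)
  exact h1.trans (flat_ht _ _)

/-- Cyclic rotation of the tangles. -/
theorem cyc_mdiag (l1 l2 : List NT) (e : ℤ)
    (h : (∀ t ∈ l1, t.1 = false) ∨ (∀ t ∈ l2, t.1 = false)) :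
    EqD 1 (mdiag (l1 ++ l2) e) (mdiag (l2 ++ l1) e) := by
  have key : ∀ l1 l2 : List NT, (∀ t ∈ l1, t.1 = false) →
      EqD 1 (mdiag (l1 ++ l2) e) (mdiag (l2 ++ l1) e) := by
    intro l1 l2 h
    rw [mdiag_eq_Lc, mdiag_eq_Lc]
    have h1 := cyc_list l1 h (cnt_body l2 e)
    have h2 := (flat_ht l1 e).left ((l2.map Tt).flatten) (cnt_flat l2)
    have c2 : cnt 2 ((l2.map Tt).flatten ++ (ht e ++ (l1.map Tt).flatten)) = some 2 := by
      rw [cnt_app (cnt_flat l2), cnt_app (cnt_ht e), cnt_flat]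
    have h3 := close_eqd h2 c2
    rw [List.map_append, List.flatten_append, List.map_append, List.flatten_append]
    simp only [Lc, List.append_assoc] at h1 h3 ⊢
    exact h1.trans h3
  rcases h with h | h
  · exact key l1 l2 h
  · exact (key l2 l1 h).symm

end Pool.Agent.Mont
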