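import Pool.Agent.Mont.Defs

/-!
Rational tangles: half twists pass through them (flype).
-/

namespace Pool.Agent.Mont

open Pool.Agent.LibH11 Pool.Agent.LibH11.Sliced Pool.Agent.TB Pool.Agent.TwoBr

/-- The word with the two crossings exchanged. -/
def fm (u : List (Fin 2 × Bool)) : List (Fin 2 × Bool) := u.map fun p => (p.1 + 1, p.2)

theorem bw_fl (u : List (Fin 2 × Bool)) : bw (fl u) = bw (fm u) := by
  induction u with
  | nil => rfl
  | cons p u ih =>
    obtain ⟨i, e⟩ := p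
    have e1 : fl ((i, e) :: u) = (if i = 0 then 1 else 0, e) :: fl u := rfl
    have e2 : fm ((i, e) :: u) = (i + 1, e) :: fm u := rfl
    rw [e1, e2, bw_cons, bw_cons, ih]
    fin_cases i <;> rfl

theorem fm_fm (u : List (Fin 2 × Bool)) : fm (fm u) = u := by
  induction u with
  | nil => rfl
  | cons p u ih =>
    obtain ⟨i, e⟩ := p
    have e2 : fm (fm ((i, e) :: u)) = (i + 1 + 1, e) :: fm (fm u) := rfl
    rw [e2, ih, fin2_two]

/-- other words of the negative half twist of four strands -/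
def dl1 : List (Fin 3 × Bool) := [(1, false), (2, false), (1, false), (0, false), (1, false), (2, false)]
def dl2 : List (Fin 3 × Bool) := [(1, false), (0, false), (2, false), (1, false), (0, false), (2, false)]

theorem half1 {G : Type*} [Group G] {x y z : G} (h1 : x * y * x = y * x * y)
    (h2 : y * z * y = z * y * z) (h3 : x * z = z * x) :
    z * x * y * z * x * y = x * y * x * z * y * x ∧
      z * y * x * y * z * y = x * y * x * z * y * x := by
  have k : x * z * y * z * x * y = x * y * x * z * y * x := by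
    calc x * z * y * z * x * y = x * (z * y * z) * x * y := by group
      _ = x * (y * z * y) * x * y := by rw [h2]
      _ = x * y * z * (y * x * y) := by group
      _ = x * y * z * (x * y * x) := by rw [h1]
      _ = x * y * (z * x) * y * x := by group
      _ = x * y * (x * z) * y * x := by rw [h3]
      _ = _ := by group
  constructor
  · rw [← h3]; exact k
  · calc z * y * x * y * z * y = z * (y * x * y) * z * y := by group
      _ = z * (x * y * x) * z * y := by rw [h1]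
      _ = (z * x) * y * (x * z) * y := by group
      _ = (x * z) * y * (z * x) * y := by rw [h3]
      _ = x * z * y * z * x * y := by group
      _ = _ := k

theorem wd_dl1 : wd dl1 = wd dl := by
  obtain ⟨h1, h2⟩ := half1 b01 b12 c02
  rw [wd_dl, ← h2]
  simp [dl1, wd, mul_assoc]

theorem wd_dl2 : wd dl2 = wd dl := by
  obtain ⟨h1, h2⟩ := half1 b01 b12 c02
  rw [wd_dl, ← h1]
  simp [dl2, wd, mul_assoc]

theorem fly_cup0 : EqD 2 ((.cup, 1) :: bw dl1) ([(.crs false, 0), (.cup, 1)] : List (Kind × ℕ)) :=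
  EqD.of_chk [(0, false, .u1 1 false), (0, false, .su 1 false), (1, false, .r2 1 true),
    (0, true, .far (.crs false) .cup 0 0), (1, true, .su 1 true), (2, false, .r2 2 true)] rfl

theorem fly_cap0 : EqD 4 (bw dl2 ++ ([(.cap, 2)] : List (Kind × ℕ))) ([(.cap, 0), (.crs false, 0)] : List (Kind × ℕ)) :=
  EqD.of_chk [(5, false, .a1 2 false), (4, false, .far (.crs false) .cap 0 0),
    (3, true, .sa 1 true), (2, false, .r2 2 false), (1, true, .sa 0 true),
    (0, false, .r2 1 false)] rfl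

theorem fly_cup : EqD 2 ((.cup, 1) :: bw dl) ([(.crs false, 0), (.cup, 1)] : List (Kind × ℕ)) := by
  have h := (bw_eqd wd_dl1).left ([(.cup, 1)] : List (Kind × ℕ)) (show cnt 2 ([(.cup, 1)] : List (Kind × ℕ)) = some 4 from rfl)
  exact h.symm.trans fly_cup0

theorem fly_cap : EqD 4 (bw dl ++ ([(.cap, 2)] : List (Kind × ℕ))) ([(.cap, 0), (.crs false, 0)] : List (Kind × ℕ)) := by
  have h := (bw_eqd wd_dl2).right ([(.cap, 2)] : List (Kind × ℕ)) (by decide)
  exact h.symm.trans fly_cap0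

theorem cnt_bwk (w : List (Fin 2 × Bool)) (k : ℕ) : cnt (3 + k) (bw w) = some (3 + k) :=
  cnt_widen k _ _ _ (cnt_bw w)

theorem cnt_tgl (u : List (Fin 2 × Bool)) : cnt 2 (tgl u) = some 2 := by
  show cnt 4 (bw u ++ ([(.cap, 2)] : List (Kind × ℕ))) = some 2
  rw [cnt_app (cnt_bwk u 1)]
  rfl

/-- The rotated tangle. -/
def tglr (u : List (Fin 2 × Bool)) : Diag := (.cup, 1) :: (sh 1 (bw (fm u)) ++ ([(.cap, 0)] : List (Kind × ℕ)))

theorem cnt_tglr (u : List (Fin 2 × Bool)) : cnt 2 (tglr u) = some 2 := by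
  show cnt 4 (sh 1 (bw (fm u)) ++ ([(.cap, 0)] : List (Kind × ℕ))) = some 2
  rw [cnt_app (cnt_shbw2 (fm u) 1 0)]
  rfl

/-- the tangle from the arcs above two parallel minima, on the left -/
theorem tgl_arc (u : List (Fin 2 × Bool)) :
    EqD 2 (sh 1 (C2 ++ bw (up u)) ++ ([(.cap, 0), (.cap, 2)] : List (Kind × ℕ))) (tgl u) := by
  have e0 : sh 1 (C2 ++ bw (up u)) ++ ([(.cap, 0), (.cap, 2)] : List (Kind × ℕ)) =
      ([(.cup, 1), (.cup, 3)] : List (Kind × ℕ)) ++ (sh 2 (bw u) ++ ([(.cap, 0)] : List (Kind × ℕ))) ++ ([(.cap, 2)] : List (Kind × ℕ)) := by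
    rw [bw_up]
    simp [C2, sh_append, sh_sh]
  have c1 : cnt 2 ([((.cup : Kind), 1), (.cup, 3)] : List (Kind × ℕ)) = some 6 := rfl
  have h1 : EqD 6 (([(.cap, 0)] : List (Kind × ℕ)) ++ sh 0 (bw u)) (sh 2 (bw u) ++ ([(.cap, 0)] : List (Kind × ℕ))) :=
    far_words ([(.cap, 0)] : List (Kind × ℕ)) (bw u) 2 0 4 rfl (by rw [cnt_bwk u 1]; simp)
  rw [sh_zero] at h1
  have s1 := h1.symm.ctx ([(.cup, 1), (.cup, 3)] : List (Kind × ℕ)) ([(.cap, 2)] : List (Kind × ℕ)) c1 (by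
    rw [← e0, sh_append, List.append_assoc, cnt_app (show cnt 2 (sh 1 C2) = some 6 from rfl),
      bw_up, cnt_app (show cnt 6 (sh 1 (sh 1 (bw u))) = some 6 by
        rw [sh_sh]; exact cnt_shbw2 u 2 1)]
    decide)
  have h2 : EqD 2 ([(.cup, 1), (.cup, 3), (.cap, 0)] : List (Kind × ℕ)) ([(.cup, 1)] : List (Kind × ℕ)) :=
    EqD.of_chk [(1, true, .far .cap .cup 0 1), (0, false, .zg 0)] rfl
  have s2 := h2.right (bw u ++ ([(.cap, 2)] : List (Kind × ℕ))) (by
    rw [cnt_app (show cnt 2 ([((.cup : Kind), 1), (.cup, 3), (.cap, 0)] : List (Kind × ℕ)) = some 4 from rfl),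
      cnt_app (cnt_bwk u 1)]
    decide)
  rw [e0]
  refine s1.trans ?_
  have e1 : ([((.cup : Kind), 1), (.cup, 3)] : List (Kind × ℕ)) ++ (([(.cap, 0)] : List (Kind × ℕ)) ++ bw u) ++ ([(.cap, 2)] : List (Kind × ℕ)) =
      ([(.cup, 1), (.cup, 3), (.cap, 0)] : List (Kind × ℕ)) ++ (bw u ++ ([(.cap, 2)] : List (Kind × ℕ))) := by simp
  rw [e1]
  exact s2

/-- the tangle from the arcs above two parallel minima, on the right -/
theorem tglr_arc (u : List (Fin 2 × Bool)) :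
    EqD 2 (sh 1 (C2 ++ bw (fl u)) ++ ([(.cap, 0), (.cap, 2)] : List (Kind × ℕ))) (tglr u) := by
  have e0 : sh 1 (C2 ++ bw (fl u)) ++ ([(.cap, 0), (.cap, 2)] : List (Kind × ℕ)) =
      ([(.cup, 1), (.cup, 3)] : List (Kind × ℕ)) ++ sh 1 (bw (fm u)) ++ ([(.cap, 0), (.cap, 2)] : List (Kind × ℕ)) := by
    rw [bw_fl]
    simp [C2, sh_append]
  have c1 : cnt 2 ([((.cup : Kind), 1), (.cup, 3)] : List (Kind × ℕ)) = some 6 := rfl
  have c2 : cnt 6 (sh 1 (bw (fm u))) = some 6 := cnt_shbw2 (fm u) 1 2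
  have c3 : cnt 2 (([(.cup, 1), (.cup, 3)] : List (Kind × ℕ)) ++ sh 1 (bw (fm u))) = some 6 := by
    rw [cnt_app c1, c2]
  have h1 : EqD 6 ([(.cap, 0), (.cap, 2)] : List (Kind × ℕ)) ([(.cap, 4), (.cap, 0)] : List (Kind × ℕ)) :=
    EqD.of_chk [(0, false, .far .cap .cap 0 2)] rfl
  have s1 := h1.left _ c3
  have h2 : EqD 6 (sh 1 (bw (fm u)) ++ sh 4 ([(.cap, 0)] : List (Kind × ℕ))) (sh 4 ([(.cap, 0)] : List (Kind × ℕ)) ++ sh 1 (bw (fm u))) :=
    far_words (sh 1 (bw (fm u))) ([(.cap, 0)] : List (Kind × ℕ)) 4 4 2 (cnt_shbw2 (fm u) 1 0) (by decide)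
  have s2 := h2.ctx ([(.cup, 1), (.cup, 3)] : List (Kind × ℕ)) ([(.cap, 0)] : List (Kind × ℕ)) c1 (by
    rw [List.append_assoc, cnt_app c1, List.append_assoc, cnt_app c2]
    decide)
  have h3 : EqD 2 ([(.cup, 1), (.cup, 3), (.cap, 4)] : List (Kind × ℕ)) ([(.cup, 1)] : List (Kind × ℕ)) :=
    EqD.of_chk [(1, false, .zz 3)] rfl
  have s3 := h3.right (sh 1 (bw (fm u)) ++ ([(.cap, 0)] : List (Kind × ℕ))) (by
    rw [cnt_app (show cnt 2 ([((.cup : Kind), 1), (.cup, 3), (.cap, 4)] : List (Kind × ℕ)) = some 4 from rfl),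
      cnt_app (cnt_shbw2 (fm u) 1 0)]
    decide)
  rw [e0]
  refine s1.trans ?_
  have e1 : ([((.cup : Kind), 1), (.cup, 3)] : List (Kind × ℕ)) ++ sh 1 (bw (fm u)) ++ ([(.cap, 4), (.cap, 0)] : List (Kind × ℕ)) =
      ([(.cup, 1), (.cup, 3)] : List (Kind × ℕ)) ++ (sh 1 (bw (fm u)) ++ sh 4 ([(.cap, 0)] : List (Kind × ℕ))) ++ ([(.cap, 0)] : List (Kind × ℕ)) := by simp
  have e2 : ([((.cup : Kind), 1), (.cup, 3)] : List (Kind × ℕ)) ++ (sh 4 ([(.cap, 0)] : List (Kind × ℕ)) ++ sh 1 (bw (fm u))) ++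
      ([(.cap, 0)] : List (Kind × ℕ)) = ([(.cup, 1), (.cup, 3), (.cap, 4)] : List (Kind × ℕ)) ++ (sh 1 (bw (fm u)) ++ ([(.cap, 0)] : List (Kind × ℕ))) := by
    simp
  rw [e1]
  refine s2.trans ?_
  rw [e2]
  exact s3

/-- **A rational tangle is invariant under rotation.** -/
theorem tgl_rot (u : List (Fin 2 × Bool)) : EqD 2 (tgl u) (tglr u) := by
  have h := ((C2_eqd (mk_up_fl u)).symm.sh 1).widen 1
  have h2 := h.right ([(.cap, 0), (.cap, 2)] : List (Kind × ℕ)) (by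
    rw [sh_append, List.append_assoc, cnt_app (show cnt 2 (sh 1 C2) = some 6 from rfl),
      bw_up, cnt_app (show cnt 6 (sh 1 (sh 1 (bw u))) = some 6 by
        rw [sh_sh]; exact cnt_shbw2 u 2 1)]
    decide)
  exact ((tgl_arc u).symm.trans h2).trans (tglr_arc u)

/-- A negative half twist passes through the tangle, rotating it. -/
theorem fly_r (u : List (Fin 2 × Bool)) :
    EqD 2 ((.crs false, 0) :: tgl u) (tglr u ++ ([(.crs false, 0)] : List (Kind × ℕ))) := by
  have s1 : EqD 2 (([(.crs false, 0), (.cup, 1)] : List (Kind × ℕ)) ++ (bw u ++ ([(.cap, 2)] : List (Kind × ℕ))))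
      (((.cup, 1) :: bw dl) ++ (bw u ++ ([(.cap, 2)] : List (Kind × ℕ)))) := fly_cup.symm.right _ (by
    rw [cnt_app (show cnt 2 ([(.crs false, 0), ((.cup : Kind), 1)] : List (Kind × ℕ)) = some 4 from rfl),
      cnt_app (cnt_bwk u 1)]
    decide)
  have e0 : fl (fm u) = u.map fun p => (p.1.castSucc, p.2) := by
    simp only [fl, fm, List.map_map]
    congr 1
    funext p
    obtain ⟨i, e⟩ := p
    fin_cases i <;> rfl
  have e1 : bw (fl (fm u)) = bw u := by rw [bw_fl, fm_fm]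
  have h2 : EqD 4 (bw (dl ++ fl (fm u))) (bw (up (fm u) ++ dl)) := (bw_eqd (wd_up_dl (fm u))).symm
  rw [bw_append, bw_append, e1, bw_up] at h2
  have s2 := h2.ctx ([(.cup, 1)] : List (Kind × ℕ)) ([(.cap, 2)] : List (Kind × ℕ)) (show cnt 2 ([(.cup, 1)] : List (Kind × ℕ)) = some 4 from rfl) (by
    rw [List.append_assoc, cnt_app (show cnt 2 ([((.cup : Kind), 1)] : List (Kind × ℕ)) = some 4 from rfl),
      List.append_assoc, cnt_app (cnt_bw dl), cnt_app (cnt_bwk u 1)]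
    decide)
  have s3 := fly_cap.left ((.cup, 1) :: sh 1 (bw (fm u)))
    (show cnt 2 ((.cup, 1) :: sh 1 (bw (fm u))) = some 4 from cnt_shbw2 (fm u) 1 0)
  have e2 : ((.cup, 1) :: bw dl) ++ (bw u ++ ([(.cap, 2)] : List (Kind × ℕ))) =
      ([(.cup, 1)] : List (Kind × ℕ)) ++ (bw dl ++ bw u) ++ ([(.cap, 2)] : List (Kind × ℕ)) := by simp
  have e3 : ([((.cup : Kind), 1)] : List (Kind × ℕ)) ++ (sh 1 (bw (fm u)) ++ bw dl) ++ ([(.cap, 2)] : List (Kind × ℕ)) =
      ((.cup, 1) :: sh 1 (bw (fm u))) ++ (bw dl ++ ([(.cap, 2)] : List (Kind × ℕ))) := by simp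
  have e4 : ((.cup, 1) :: sh 1 (bw (fm u))) ++ ([(.cap, 0), (.crs false, 0)] : List (Kind × ℕ)) =
      tglr u ++ ([(.crs false, 0)] : List (Kind × ℕ)) := by simp [tglr]
  have e5 : ((.crs false, 0) :: tgl u : Diag) =
      ([(.crs false, 0), (.cup, 1)] : List (Kind × ℕ)) ++ (bw u ++ ([(.cap, 2)] : List (Kind × ℕ))) := by simp [tgl]
  rw [e5]
  refine s1.trans ?_
  rw [e2]
  refine s2.trans ?_
  rw [e3]
  refine s3.trans ?_
  rw [e4]
  exact EqD.refl _

/-- **Flype.** -/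
theorem flype (u : List (Fin 2 × Bool)) (e : Bool) :
    EqD 2 ((.crs e, 0) :: tgl u) (tgl u ++ ([(.crs e, 0)] : List (Kind × ℕ))) := by
  have hf : EqD 2 ((.crs false, 0) :: tgl u) (tgl u ++ ([(.crs false, 0)] : List (Kind × ℕ))) := by
    refine (fly_r u).trans ((tgl_rot u).symm.right _ ?_)
    rw [cnt_app (cnt_tglr u)]
    decide
  cases e with
  | false => exact hf
  | true =>
    have r1 : EqD 2 ([(.crs true, 0), (.crs false, 0)] : List (Kind × ℕ)) [] :=
      EqD.of_chk [(0, false, .r2 0 true)] rfl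
    have r2 : EqD 2 ([(.crs false, 0), (.crs true, 0)] : List (Kind × ℕ)) [] :=
      EqD.of_chk [(0, false, .r2 0 false)] rfl
    have ct := cnt_tgl u
    have cf : cnt 2 ([(Kind.crs true, 0)] : List (Kind × ℕ)) = some 2 := rfl
    -- `t T ~ t T f t ~ t f T t ~ T t`
    have s1 := r2.symm.left ((.crs true, 0) :: tgl u)
      (show cnt 2 ((.crs true, 0) :: tgl u) = some 2 from ct)
    have s2 := hf.symm.ctx ([(.crs true, 0)] : List (Kind × ℕ)) ([(.crs true, 0)] : List (Kind × ℕ)) cf (by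
      rw [List.append_assoc, cnt_app cf, List.append_assoc, cnt_app ct]
      decide)
    have s3 := r1.right (tgl u ++ ([(.crs true, 0)] : List (Kind × ℕ))) (by
      rw [cnt_app (show cnt 2 ([(.crs true, 0), (.crs false, 0)] : List (Kind × ℕ)) = some 2 from rfl), cnt_app ct]
      decide)
    have e1 : ((.crs true, 0) :: tgl u) ++ ([(.crs false, 0), (.crs true, 0)] : List (Kind × ℕ)) =
        ([(.crs true, 0)] : List (Kind × ℕ)) ++ (tgl u ++ ([(.crs false, 0)] : List (Kind × ℕ))) ++ ([(.crs true, 0)] : List (Kind × ℕ)) := by simp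
    have e2 : ([(.crs true, 0)] : List (Kind × ℕ)) ++ ((.crs false, 0) :: tgl u) ++ ([(.crs true, 0)] : List (Kind × ℕ)) =
        ([(.crs true, 0), (.crs false, 0)] : List (Kind × ℕ)) ++ (tgl u ++ ([(.crs true, 0)] : List (Kind × ℕ))) := by simp
    rw [e1, List.append_nil] at s1
    rw [e2] at s2
    exact (s1.trans s2).trans s3

end Pool.Agent.Mont
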