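import Pool.Agent.Mont.Flip
import Pool.Agent.Mont.Concl

/-!
Montesinos knots: the normal form tangle by tangle; permutations of the tangles.
-/

namespace Pool.Agent.Mont

open Pool.Agent.LibH11 Pool.Agent.LibH11.Sliced Pool.Agent.TB Pool.Agent.TwoBr

/-- The tangle of the word `u` is the tangle `t` followed by half twists. -/
def RR (u : List (Fin 2 × Bool)) (t : NT) : Prop :=
  ∃ m : ℤ, slope u = nslope t - m ∧ EqD 2 (tgl u) (Tt t ++ ht m)

theorem RR_split {us : List (List (Fin 2 × Bool))} {ts : List NT} (h : List.Forall₂ RR us ts) :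
    List.Forall₂ (fun u t => ∃ m : ℤ, slope u = nslope t - m) us ts :=
  h.imp fun _ _ ⟨m, hm, _⟩ => ⟨m, hm⟩

theorem sum_RR {us : List (List (Fin 2 × Bool))} {ts : List NT} (h : List.Forall₂ RR us ts) :
    ∃ e : ℤ, EqD 2 ((us.map tgl).flatten) ((ts.map Tt).flatten ++ ht e) ∧
      (us.map slope).sum = (ts.map nslope).sum - e := by
  induction h with
  | nil => exact ⟨0, EqD.refl _, by simp⟩
  | cons h _ ih =>
    rename_i u t us ts h1
    obtain ⟨c, k3, k2⟩ := h
    obtain ⟨e, h3, h4⟩ := ih
    refine ⟨c + e, ?_, ?_⟩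
    · rw [List.map_cons, List.flatten_cons, List.map_cons, List.flatten_cons]
      have s1 := h3.left (tgl u) (cnt_tgl u)
      have s2 := k2.right ((ts.map Tt).flatten ++ ht e) (by
        rw [cnt_app (cnt_tgl u), cnt_app (cnt_flat ts), cnt_ht]; simp)
      have s3 := (flat_ht ts c).ctx (Tt t) (ht e) (cnt_Tt t) (by
        rw [List.append_assoc, cnt_app (cnt_Tt t), List.append_assoc, cnt_app (cnt_ht c),
          cnt_app (cnt_flat ts), cnt_ht]
        simp)
      have s4 := (ht_add c e).left (Tt t ++ (ts.map Tt).flatten) (show _ = some 2 by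
        rw [cnt_app (cnt_Tt t), cnt_flat])
      have e1 : Tt t ++ ht c ++ ((ts.map Tt).flatten ++ ht e) =
          Tt t ++ (ht c ++ (ts.map Tt).flatten) ++ ht e := by simp
      have e2 : Tt t ++ ((ts.map Tt).flatten ++ ht c) ++ ht e =
          Tt t ++ (ts.map Tt).flatten ++ (ht c ++ ht e) := by simp
      rw [e1] at s2
      rw [e2] at s3
      exact ((s1.trans s2).trans s3).trans s4
    · rw [List.map_cons, List.sum_cons, List.map_cons, List.sum_cons, h4, k3]
      push_cast
      ring

theorem list_RR : ∀ us : List (List (Fin 2 × Bool)), (∀ u ∈ us, 2 ≤ |den u|) →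
    ∃ ts : List NT, List.Forall₂ RR us ts ∧ (∀ t ∈ ts, NOk t ∧ 2 ≤ |(nvec t).2|) := by
  intro us
  induction us with
  | nil => intro _; exact ⟨[], List.Forall₂.nil, by simp⟩
  | cons u us ih =>
    intro h
    obtain ⟨ts, h1, h2⟩ := ih fun v hv => h v (List.mem_cons_of_mem _ hv)
    obtain ⟨t, c, k1, k2, k3, k4⟩ := tangle_nf u (h u List.mem_cons_self)
    refine ⟨t :: ts, List.Forall₂.cons ⟨c, k3, k2⟩ h1, ?_⟩
    intro s hs
    rcases List.mem_cons.1 hs with rfl | hs
    · exact ⟨k1, k4⟩
    · exact h2 s hs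

theorem RR_adj {x : List ℤ} (hx : 2 ≤ |(nvec (true, x)).2|) : ∃ (y : List ℤ) (c : ℤ),
    Even c ∧ NOk (true, y) ∧ nslope (true, x) - 1 = nslope (true, y) - c ∧
      ∀ u, RR u (true, x) → RR u (true, y) := by
  obtain ⟨y, c, k0, k1, k2, k3, -⟩ := tangle_adj x hx
  refine ⟨y, c, k0, k1, k3, ?_⟩
  rintro u ⟨m, hm, he⟩
  refine ⟨c + (m - 1), ?_, ?_⟩
  · rw [hm]
    push_cast
    linarith
  · have cx := cnt_Tt (true, x)
    have cy := cnt_Tt (true, y)
    have s1 := (ht_add 1 (m - 1)).symm.left (Tt (true, x)) cx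
    rw [show (1 : ℤ) + (m - 1) = m by ring] at s1
    have s2 := k2.right (ht (m - 1)) (by
      rw [List.append_assoc, cnt_app cx, cnt_app (cnt_ht 1), cnt_ht]; simp)
    have s3 := (ht_add c (m - 1)).left (Tt (true, y)) cy
    rw [List.append_assoc, List.append_assoc] at s2
    exact ((he.trans s1).trans s2).trans s3

/-- **Normal form of long Montesinos diagrams**, tangle by tangle. -/
theorem mont_nf2 (us : List (List (Fin 2 × Bool))) (h : IsLongKnot (mont us))
    (hd : ∀ u ∈ us, 2 ≤ |den u|) : ∃ (ts : List NT) (e : ℤ), Nrm ts e ∧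
      EqD 1 (mont us) (mdiag ts e) ∧ List.Forall₂ RR us ts ∧
      (us.map slope).sum = (ts.map nslope).sum - e := by
  obtain ⟨ts, h1, h2⟩ := list_RR us hd
  obtain ⟨e, h3, h4⟩ := sum_RR h1
  have h5 : EqD 1 (mont us) (mdiag ts e) := close_eqd h3 (cnt_tgls us)
  have h6 := h5.isLongKnot h
  rcases parity ts e h6 with h7 | h7
  · by_cases he : Even e
    · exact ⟨ts, e, ⟨fun t ht => (h2 t ht).1, Or.inr ⟨h7, he⟩⟩, h5, h1, h4⟩
    · have hex : ∃ t ∈ ts, t.1 = true := by
        have : (ts.filter fun t => t.1) ≠ [] := by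
          intro h8
          rw [h8] at h7
          simp at h7
        obtain ⟨t, ht⟩ := List.exists_mem_of_ne_nil _ this
        rw [List.mem_filter] at ht
        exact ⟨t, ht.1, ht.2⟩
      obtain ⟨⟨f, x⟩, hmem, hf⟩ := hex
      simp only at hf
      subst hf
      obtain ⟨l1, l2, rfl⟩ := List.append_of_mem hmem
      obtain ⟨y, c, k0, k1, k3, k4⟩ := RR_adj (h2 _ hmem).2
      have h1' : List.Forall₂ RR us (l1 ++ (true, y) :: l2) := forall2_split h1 k4
      obtain ⟨e', h3', h4'⟩ := sum_RR h1'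
      have hee : e' = c + (e - 1) := by
        have h9 : (e' : ℚ) = c + (e - 1) := by
          rw [h4] at h4'
          simp only [List.map_append, List.map_cons, List.sum_append, List.sum_cons] at h4'
          linarith
        exact_mod_cast h9
      refine ⟨l1 ++ (true, y) :: l2, e', ⟨?_, Or.inr ⟨?_, ?_⟩⟩, ?_, h1', h4'⟩
      · intro t htt
        rcases List.mem_append.1 htt with h8 | h8
        · exact (h2 t (List.mem_append_left _ h8)).1
        · rcases List.mem_cons.1 h8 with rfl | h8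
          · exact k1
          · exact (h2 t (List.mem_append_right _ (List.mem_cons_of_mem _ h8))).1
      · simpa using h7
      · have h9 : Odd e := Int.not_even_iff_odd.1 he
        rw [hee]
        exact k0.add (h9.sub_odd odd_one)
      · exact close_eqd h3' (cnt_tgls us)
  · exact ⟨ts, e, ⟨fun t ht => (h2 t ht).1, Or.inl h7⟩, h5, h1, h4⟩

/-- Permutations of the normal form come from permutations of the tangles. -/
theorem perm_RR {us : List (List (Fin 2 × Bool))} {ts ts' : List NT}
    (h : List.Forall₂ RR us ts) (hp : ts.Perm ts') :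
    ∃ us' : List (List (Fin 2 × Bool)), us.Perm us' ∧ List.Forall₂ RR us' ts' := by
  have h1 : Relation.Comp (List.Forall₂ RR) List.Perm us ts' := ⟨ts, h, hp⟩
  rw [List.forall₂_comp_perm_eq_perm_comp_forall₂] at h1
  exact h1

/-! ### Three tangles -/

theorem perm2 {α : Type*} {a b x y : α} (h : [a, b].Perm [x, y]) :
    (x = a ∧ y = b) ∨ (x = b ∧ y = a) := by
  have hx : x ∈ [a, b] := h.mem_iff.2 (by simp)
  simp only [List.mem_cons, List.not_mem_nil, or_false] at hx
  rcases hx with rfl | rfl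
  · have h1 := (List.perm_cons x).1 h
    have h2 := h1.symm.eq_singleton
    simp only [List.cons.injEq, and_true] at h2
    exact Or.inl ⟨rfl, h2⟩
  · have h1 := (List.perm_cons x).1 ((List.Perm.swap a x []).trans h)
    have h2 := h1.symm.eq_singleton
    simp only [List.cons.injEq, and_true] at h2
    exact Or.inr ⟨rfl, h2⟩

theorem perm3 {α : Type*} {a b c : α} {l : List α} (h : [a, b, c].Perm l) :
    l = [a, b, c] ∨ l = [b, c, a] ∨ l = [c, a, b] ∨ l = [c, b, a] ∨ l = [b, a, c] ∨
      l = [a, c, b] := by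
  have hl := h.length_eq
  simp only [List.length_cons, List.length_nil] at hl
  obtain ⟨x, y, z, rfl⟩ := List.length_eq_three.1 hl.symm
  have hx : x ∈ [a, b, c] := h.mem_iff.2 (by simp)
  simp only [List.mem_cons, List.not_mem_nil, or_false] at hx
  rcases hx with rfl | rfl | rfl
  · have h1 := (List.perm_cons x).1 h
    rcases perm2 h1 with ⟨rfl, rfl⟩ | ⟨rfl, rfl⟩
    · simp
    · simp
  · have h1 := (List.perm_cons x).1 ((List.Perm.swap a x [c]).trans h)
    rcases perm2 h1 with ⟨rfl, rfl⟩ | ⟨rfl, rfl⟩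
    · simp
    · simp
  · have h0 : [x, a, b].Perm [a, b, x] :=
      (List.Perm.swap a x [b]).trans ((List.Perm.swap b x []).cons a)
    have h1 := (List.perm_cons x).1 (h0.trans h)
    rcases perm2 h1 with ⟨rfl, rfl⟩ | ⟨rfl, rfl⟩
    · simp
    · simp

theorem flags_split {ts : List NT} {e : ℤ} (h : Nrm ts e) {l1 l2 : List NT}
    (hl : ts.Perm (l1 ++ l2)) : (∀ t ∈ l1, t.1 = false) ∨ (∀ t ∈ l2, t.1 = false) := by
  by_contra hcon
  push Not at hcon
  obtain ⟨⟨t1, m1, f1⟩, ⟨t2, m2, f2⟩⟩ := hcon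
  rcases h.par with ⟨h1, -⟩ | ⟨h1, -⟩
  · exact f1 (h1 t1 (hl.mem_iff.2 (List.mem_append_left _ m1)))
  · have h2 := (hl.filter fun t => t.1).length_eq
    rw [h1, List.filter_append, List.length_append] at h2
    have k1 : 0 < (l1.filter fun t => t.1).length := by
      refine List.length_pos_of_mem (a := t1) ?_
      rw [List.mem_filter]
      exact ⟨m1, by simpa using f1⟩
    have k2 : 0 < (l2.filter fun t => t.1).length := by
      refine List.length_pos_of_mem (a := t2) ?_
      rw [List.mem_filter]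
      exact ⟨m2, by simpa using f2⟩
    omega

/-- **Three tangles**: every order of the tangles gives the same knot or its reverse. -/
theorem three_mdiag {ts ts' : List NT} {e : ℤ} (h : Nrm ts e) (h3 : ts.length = 3)
    (hp : ts.Perm ts') :
    EqD 1 (mdiag ts e) (mdiag ts' e) ∨ EqD 1 (flipD (mdiag ts e)) (mdiag ts' e) := by
  obtain ⟨a, b, c, rfl⟩ := List.length_eq_three.1 h3
  rcases perm3 hp with rfl | rfl | rfl | rfl | rfl | rfl
  · exact Or.inl (EqD.refl _)
  · exact Or.inl (cyc_mdiag [a] [b, c] e (flags_split h (List.Perm.refl _)))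
  · exact Or.inl (cyc_mdiag [a, b] [c] e (flags_split h (List.Perm.refl _)))
  · exact Or.inr (flip_mdiag [a, b, c] e)
  · refine Or.inr ((flip_mdiag [a, b, c] e).trans ?_)
    refine cyc_mdiag [c] [b, a] e (flags_split h ?_)
    exact (List.reverse_perm [a, b, c]).symm
  · refine Or.inr ((flip_mdiag [a, b, c] e).trans ?_)
    refine cyc_mdiag [c, b] [a] e (flags_split h ?_)
    exact (List.reverse_perm [a, b, c]).symm

end Pool.Agent.Mont
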