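import Pool.Agent.Mont.Defs

/-!
Rational tangles: the vector `(β, α)` depends only on the braid.
-/

namespace Pool.Agent.Mont

open Pool.Agent.LibH11 Pool.Agent.LibH11.Sliced Pool.Agent.TB Pool.Agent.TwoBr

/-- matrices of the crossings, acting on rows `(β, α)` -/
def sm : Fin 2 → (Matrix (Fin 2) (Fin 2) ℤ)ˣ
  | 0 => ⟨!![1, 0; -1, 1], !![1, 0; 1, 1], by decide, by decide⟩
  | 1 => ⟨!![1, 1; 0, 1], !![1, -1; 0, 1], by decide, by decide⟩

/-- the representation of the braid group -/
noncomputable def phi : Br 2 →* (Matrix (Fin 2) (Fin 2) ℤ)ˣ :=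
  liftBr sm
    (by
      intro i j h
      have hi := i.isLt
      have hj := j.isLt
      omega)
    (by
      intro i j h
      fin_cases i <;> fin_cases j
      · simp at h
      · ext a b
        fin_cases a <;> fin_cases b <;> decide
      · simp at h
      · simp at h)

theorem phi_sg (i : Fin 2) : phi (sg i) = sm i := by simp [phi]

/-- a vector as a row -/
def row (v : ℤ × ℤ) : Fin 2 → ℤ := ![v.1, v.2]

/-- the action of the braid group on the vectors `(β, α)` -/
noncomputable def act (v : ℤ × ℤ) (g : Br 2) : ℤ × ℤ :=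
  (Matrix.vecMul (row v) (phi g : Matrix (Fin 2) (Fin 2) ℤ) 0,
    Matrix.vecMul (row v) (phi g : Matrix (Fin 2) (Fin 2) ℤ) 1)

theorem row_act (v : ℤ × ℤ) (g : Br 2) :
    row (act v g) = Matrix.vecMul (row v) (phi g : Matrix (Fin 2) (Fin 2) ℤ) := by
  funext i
  fin_cases i <;> rfl

theorem act_one (v : ℤ × ℤ) : act v 1 = v := by
  simp [act, row]

theorem act_mul (v : ℤ × ℤ) (g h : Br 2) : act v (g * h) = act (act v g) h := by
  have : row (act v (g * h)) = row (act (act v g) h) := by
    rw [row_act, row_act, row_act, map_mul, Units.val_mul, Matrix.vecMul_vecMul]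
  have h0 := congrFun this 0
  have h1 := congrFun this 1
  exact Prod.ext h0 h1

theorem act_sg (v : ℤ × ℤ) (i : Fin 2) (e : Bool) :
    act v (if e then sg i else (sg i)⁻¹) = lact (i, e) v := by
  obtain ⟨b, a⟩ := v
  fin_cases i <;> cases e
  · simp only [act, row, Fin.zero_eta, Fin.isValue, Bool.false_eq_true, if_false, map_inv, phi_sg,
      sm, lact]
    ext <;> simp [Matrix.vecMul, dotProduct, Fin.sum_univ_two]
  · simp only [act, row, Fin.zero_eta, Fin.isValue, if_true, phi_sg, sm, lact]
    ext <;> simp [Matrix.vecMul, dotProduct, Fin.sum_univ_two]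
    ring
  · simp only [act, row, Fin.mk_one, Fin.isValue, Bool.false_eq_true, if_false, map_inv, phi_sg,
      sm, lact]
    ext <;> simp [Matrix.vecMul, dotProduct, Fin.sum_univ_two]
    ring
  · simp only [act, row, Fin.mk_one, Fin.isValue, if_true, phi_sg, sm, lact]
    ext <;> simp [Matrix.vecMul, dotProduct, Fin.sum_univ_two]
    ring

/-- **The vector depends only on the braid.** -/
theorem tvec_wd (w : List (Fin 2 × Bool)) : ∀ v : ℤ × ℤ, tvec v w = act v (wd w) := by
  induction w with
  | nil => intro v; rw [wd_nil, act_one]; rfl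
  | cons p w ih =>
    obtain ⟨i, e⟩ := p
    intro v
    rw [wd_cons, act_mul, act_sg, ← ih]
    rfl

theorem act_neg (v : ℤ × ℤ) (g : Br 2) : act (-v) g = -act v g := by
  have h : row (-v) = -row v := by
    funext i
    fin_cases i <;> rfl
  have : row (act (-v) g) = row (-act v g) := by
    have h' : row (-act v g) = -row (act v g) := by
      funext i
      fin_cases i <;> rfl
    rw [row_act, h, h', row_act, Matrix.neg_vecMul]
  have h0 := congrFun this 0
  have h1 := congrFun this 1
  exact Prod.ext h0 h1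

theorem phi_D2 : (phi D2 : Matrix (Fin 2) (Fin 2) ℤ) = -1 := by
  simp only [D2, map_mul, phi_sg, Units.val_mul, sm]
  decide

theorem act_D2 (v : ℤ × ℤ) : act v D2 = -v := by
  have : row (act v D2) = row (-v) := by
    rw [row_act, phi_D2]
    funext i
    fin_cases i <;> simp [row, Matrix.vecMul, dotProduct, Fin.sum_univ_two]
  have h0 := congrFun this 0
  have h1 := congrFun this 1
  exact Prod.ext h0 h1

/-- equality up to sign -/
def PM (v w : ℤ × ℤ) : Prop := v = w ∨ v = -w

theorem PM.refl (v : ℤ × ℤ) : PM v v := Or.inl rfl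
theorem PM.symm {v w : ℤ × ℤ} (h : PM v w) : PM w v := by
  rcases h with rfl | rfl
  · exact Or.inl rfl
  · exact Or.inr (neg_neg w).symm
theorem PM.trans {u v w : ℤ × ℤ} (h : PM u v) (h' : PM v w) : PM u w := by
  rcases h with rfl | rfl
  · exact h'
  · rcases h' with rfl | rfl
    · exact Or.inr rfl
    · exact Or.inl (neg_neg w)
theorem PM.act {v w : ℤ × ℤ} (h : PM v w) (g : Br 2) : PM (act v g) (act w g) := by
  rcases h with rfl | rfl
  · exact Or.inl rfl
  · exact Or.inr (act_neg w g)

theorem PM_act_D2 (v : ℤ × ℤ) (c : ℤ) : PM (act v (D2 ^ c)) v := by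
  induction c using Int.induction_on with
  | zero => rw [zpow_zero, act_one]; exact PM.refl v
  | succ n ih =>
    rw [zpow_add_one, act_mul, act_D2]
    exact PM.trans (Or.inr rfl) ih
  | pred n ih =>
    rw [zpow_sub_one, act_mul]
    have h : Mont.act (Mont.act v (D2 ^ (-(n : ℤ)))) D2⁻¹ =
        -Mont.act v (D2 ^ (-(n : ℤ))) := by
      have h1 := act_D2 (Mont.act (Mont.act v (D2 ^ (-(n : ℤ)))) D2⁻¹)
      rw [← act_mul, inv_mul_cancel, act_one] at h1
      have h2 := congrArg Neg.neg h1
      rw [neg_neg] at h2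
      exact h2.symm
    rw [h]
    exact PM.trans (Or.inr rfl) ih

/-- the effect of half twists -/
def shv (c : ℤ) (v : ℤ × ℤ) : ℤ × ℤ := (v.1 - c * v.2, v.2)

theorem act_s0z (v : ℤ × ℤ) (c : ℤ) : act v (sg 0 ^ c) = shv c v := by
  have h0 : ∀ v : ℤ × ℤ, act v (sg 0) = (v.1 - v.2, v.2) := by
    intro v
    have := act_sg v 0 true
    simpa [lact] using this
  have h1 : ∀ v : ℤ × ℤ, act v (sg 0)⁻¹ = (v.1 + v.2, v.2) := by
    intro v
    have := act_sg v 0 false
    simpa [lact] using this
  induction c using Int.induction_on with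
  | zero => rw [zpow_zero, act_one]; simp [shv]
  | succ n ih =>
    rw [zpow_add_one, act_mul, ih, h0]
    simp only [shv]
    ext
    · ring
    · rfl
  | pred n ih =>
    rw [zpow_sub_one, act_mul, ih, h1]
    simp only [shv]
    ext
    · ring
    · rfl

/-- the base vector: `(0, 1)` for a minimum at the position 1, `(1, 0)` for a minimum at the
position 0 -/
def bv : Fin 2 → ℤ × ℤ
  | 0 => (1, 0)
  | 1 => (0, 1)

theorem act_bv (p : Fin 2) (c : ℤ) : act (bv p) (sg p ^ c) = bv p := by
  have key : ∀ e : Bool, act (bv p) (if e then sg p else (sg p)⁻¹) = bv p := by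
    intro e
    rw [act_sg]
    fin_cases p <;> cases e <;> rfl
  have h0 := key true
  have h1 := key false
  simp only [if_true, Bool.false_eq_true, if_false] at h0 h1
  induction c using Int.induction_on with
  | zero => rw [zpow_zero, act_one]
  | succ n ih => rw [zpow_add_one, act_mul, ih, h0]
  | pred n ih => rw [zpow_sub_one, act_mul, ih, h1]

end Pool.Agent.Mont
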