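import Pool.Agent.Mont.Fly
import Pool.Agent.Mont.Vec

/-!
Rational tangles: normal form.
-/

namespace Pool.Agent.Mont

open Pool.Agent.LibH11 Pool.Agent.LibH11.Sliced Pool.Agent.TB Pool.Agent.TwoBr

/-! ### Half twists -/

/-- half twists as a word -/
def htw (c : ℤ) : List (Fin 1 × Bool) := List.replicate c.natAbs (0, decide (0 < c))

theorem bw_htw (c : ℤ) : bw (htw c) = ht c := by
  simp [bw, htw, ht]

theorem wd_htw (c : ℤ) : wd (htw c) = (sg 0 : Br 1) ^ c := by
  have h : wd (htw c) = (if decide (0 < c) then sg 0 else (sg 0)⁻¹ : Br 1) ^ c.natAbs := by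
    simp [wd, htw]
  rw [h]
  by_cases hc : 0 < c
  · rw [decide_eq_true hc, if_pos rfl, ← zpow_natCast]
    congr 1
    omega
  · rw [decide_eq_false hc]
    simp only [Bool.false_eq_true, if_false]
    rw [inv_pow, ← zpow_natCast, ← zpow_neg]
    congr 1
    omega

theorem ht_add (a b : ℤ) : EqD 2 (ht a ++ ht b) (ht (a + b)) := by
  have h : wd (htw a ++ htw b) = wd (htw (a + b)) := by
    rw [wd_append, wd_htw, wd_htw, wd_htw, zpow_add]
  have h2 := bw_eqd h
  rw [bw_append, bw_htw, bw_htw, bw_htw] at h2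
  exact h2

theorem cnt_ht (c : ℤ) : cnt 2 (ht c) = some 2 := by
  rw [← bw_htw]
  exact cnt_bw _

theorem ht_zero : ht 0 = [] := rfl

theorem ht_one : ht 1 = ([(.crs true, 0)] : List (Kind × ℕ)) := rfl

/-- A half twist passes through a rational tangle. -/
theorem flype_ht (u : List (Fin 2 × Bool)) (c : ℤ) : EqD 2 (ht c ++ tgl u) (tgl u ++ ht c) := by
  unfold ht
  generalize c.natAbs = n
  generalize decide (0 < c) = e
  induction n with
  | zero => simpa using EqD.refl (tgl u)
  | succ n ih =>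
    have ct := cnt_tgl u
    have cc : cnt 2 ([(Kind.crs e, 0)] : List (Kind × ℕ)) = some 2 := rfl
    have hcr : cnt 2 (List.replicate n (Kind.crs e, 0)) = some 2 := by
      have : List.replicate n (Kind.crs e, 0) = bw (List.replicate n ((0 : Fin 1), e)) := by
        simp [bw]
      rw [this]
      exact cnt_bw _
    have s1 := ih.left ([(Kind.crs e, 0)] : List (Kind × ℕ)) cc
    have s2 := (flype u e).right (List.replicate n (Kind.crs e, 0)) (by
      rw [show ((.crs e, 0) :: tgl u : Diag) = ([(.crs e, 0)] : List (Kind × ℕ)) ++ tgl u from rfl,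
        List.append_assoc, cnt_app cc, cnt_app ct, hcr]
      simp)
    have e1 : List.replicate (n + 1) (Kind.crs e, 0) ++ tgl u =
        ([(Kind.crs e, 0)] : List (Kind × ℕ)) ++ (List.replicate n (Kind.crs e, 0) ++ tgl u) := by
      simp [List.replicate_succ]
    have e2 : ([(Kind.crs e, 0)] : List (Kind × ℕ)) ++ (tgl u ++ List.replicate n (Kind.crs e, 0)) =
        (.crs e, 0) :: tgl u ++ List.replicate n (Kind.crs e, 0) := by simp
    have e3 : tgl u ++ ([(.crs e, 0)] : List (Kind × ℕ)) ++ List.replicate n (Kind.crs e, 0) =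
        tgl u ++ List.replicate (n + 1) (Kind.crs e, 0) := by
      simp [List.replicate_succ]
    rw [e1]
    rw [e2] at s1
    rw [e3] at s2
    exact s1.trans s2

/-! ### Tangles of braids -/

/-- the tangle of a braid, with the minimum at the position `p` -/
noncomputable def Tg (p : Fin 2) (g : Br 2) : Diag := (.cup, (p : ℕ)) :: (bw (rep g) ++ ([(.cap, 2)] : List (Kind × ℕ)))

theorem cnt_cupp (p : Fin 2) : cnt 2 [((.cup : Kind), (p : ℕ))] = some 4 := by
  fin_cases p <;> rfl

theorem cnt_tg (p : Fin 2) (w : List (Fin 2 × Bool)) :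
    cnt 2 ((.cup, (p : ℕ)) :: (bw w ++ ([(.cap, 2)] : List (Kind × ℕ)))) = some 2 := by
  have h : ((.cup, (p : ℕ)) :: (bw w ++ ([(.cap, 2)] : List (Kind × ℕ))) : Diag) =
      [(.cup, (p : ℕ))] ++ (bw w ++ ([(.cap, 2)] : List (Kind × ℕ))) := rfl
  rw [h, cnt_app (cnt_cupp p), cnt_app (cnt_bwk w 1)]
  rfl

theorem cnt_Tg (p : Fin 2) (g : Br 2) : cnt 2 (Tg p g) = some 2 := cnt_tg p _

theorem Tg_congr (p : Fin 2) {w w' : List (Fin 2 × Bool)} (h : wd w = wd w') :
    EqD 2 ((.cup, (p : ℕ)) :: (bw w ++ ([(.cap, 2)] : List (Kind × ℕ)))) ((.cup, (p : ℕ)) :: (bw w' ++ ([(.cap, 2)] : List (Kind × ℕ)))) := by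
  have h1 := ((bw_eqd h).widen 1).ctx [(.cup, (p : ℕ))] ([(.cap, 2)] : List (Kind × ℕ)) (cnt_cupp p) (by
    rw [List.append_assoc, cnt_app (cnt_cupp p), cnt_app (cnt_bwk w 1)]
    decide)
  simpa using h1

theorem Tg_wd (p : Fin 2) (w : List (Fin 2 × Bool)) :
    EqD 2 ((.cup, (p : ℕ)) :: (bw w ++ ([(.cap, 2)] : List (Kind × ℕ)))) (Tg p (wd w)) :=
  Tg_congr p (by rw [wd_rep])

theorem tgl_Tg (w : List (Fin 2 × Bool)) : EqD 2 (tgl w) (Tg 1 (wd w)) := Tg_wd 1 w

theorem Tg_pre (p : Fin 2) (u : List (Fin 2 × Bool)) (g : Br 2)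
    (h : EqD 1 ((.cup, (p : ℕ)) :: bw u) [(.cup, (p : ℕ))]) : EqD 2 (Tg p (wd u * g)) (Tg p g) := by
  have h1 := (h.widen 1).right (bw (rep g) ++ ([(.cap, 2)] : List (Kind × ℕ))) (by
    have e : ((.cup, (p : ℕ)) :: bw u : Diag) = [(.cup, (p : ℕ))] ++ bw u := rfl
    rw [e, List.append_assoc, cnt_app (cnt_cupp p), cnt_app (cnt_bwk u 1),
      cnt_app (cnt_bwk (rep g) 1)]
    decide)
  have h2 := Tg_wd p (u ++ rep g)
  rw [wd_append, wd_rep] at h2
  refine h2.symm.trans ?_
  simpa [bw_append, Tg] using h1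

theorem Tg_sp (p : Fin 2) (g : Br 2) : EqD 2 (Tg p (sg p * g)) (Tg p g) := by
  fin_cases p
  · have h := Tg_pre 0 [(0, true)] g (EqD.of_chk [(0, false, .u1 0 true)] rfl)
    simpa [wd] using h
  · have h := Tg_pre 1 [(1, true)] g (EqD.of_chk [(0, false, .u1 1 true)] rfl)
    simpa [wd] using h

theorem Tg_D2 (p : Fin 2) (g : Br 2) : EqD 2 (Tg p (D2 * g)) (Tg p g) := by
  fin_cases p
  · have h := Tg_pre 0 [(0, true), (1, true), (0, true), (1, true), (0, true), (1, true)] g
      (EqD.of_chk [(0, false, .u1 0 true), (0, false, .su 0 true), (1, false, .r2 0 false),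
        (0, false, .u1 1 true), (0, true, .su 0 false), (1, false, .r2 1 false)] rfl)
    simpa [wd, D2, mul_assoc] using h
  · have h := Tg_pre 1 [(0, true), (1, true), (0, true), (1, true), (0, true), (1, true)] g
      (EqD.of_chk [(0, true, .su 0 false), (1, false, .r2 1 false), (0, false, .u1 0 true),
        (0, false, .su 0 true), (1, false, .r2 0 false), (0, false, .u1 1 true)] rfl)
    simpa [wd, D2, mul_assoc] using h

theorem Tg_zpow (p : Fin 2) (k : Br 2) (hk : ∀ g, EqD 2 (Tg p (k * g)) (Tg p g)) (c : ℤ)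
    (g : Br 2) : EqD 2 (Tg p (k ^ c * g)) (Tg p g) := by
  have hi : ∀ g, EqD 2 (Tg p (k⁻¹ * g)) (Tg p g) := by
    intro g
    have h := hk (k⁻¹ * g)
    rw [mul_inv_cancel_left] at h
    exact h.symm
  induction c using Int.induction_on with
  | zero => simpa using EqD.refl (Tg p g)
  | succ n ih =>
    have h1 : k ^ ((n : ℤ) + 1) * g = k * (k ^ (n : ℤ) * g) := by
      rw [← mul_assoc, ← zpow_one_add, add_comm]
    rw [h1]
    exact (hk _).trans ih
  | pred n ih =>
    have h1 : k ^ (-(n : ℤ) - 1) * g = k⁻¹ * (k ^ (-(n : ℤ)) * g) := by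
      rw [← mul_assoc, ← zpow_neg_one, ← zpow_add]
      congr 2
      ring
    rw [h1]
    exact (hi _).trans ih

/-- The first strands leave the tangle. -/
theorem Tg_s0z (p : Fin 2) (g : Br 2) (c : ℤ) :
    EqD 2 (Tg p (g * sg 0 ^ c)) (Tg p g ++ ht c) := by
  set w2 : List (Fin 2 × Bool) := List.replicate c.natAbs (0, decide (0 < c)) with hw2
  have hw : wd w2 = (sg 0 : Br 2) ^ c := by
    rw [hw2, wd_replicate]
    by_cases hc : 0 < c
    · rw [decide_eq_true hc, if_pos rfl, ← zpow_natCast]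
      congr 1
      omega
    · rw [decide_eq_false hc]
      simp only [Bool.false_eq_true, if_false]
      rw [inv_pow, ← zpow_natCast, ← zpow_neg]
      congr 1
      omega
  have hb : bw w2 = ht c := by simp [bw, hw2, ht]
  have h1 := Tg_wd p (rep g ++ w2)
  rw [wd_append, wd_rep, hw, bw_append, hb] at h1
  refine h1.symm.trans ?_
  have h2 : EqD 4 (ht c ++ sh 2 ([(.cap, 0)] : List (Kind × ℕ))) (sh 2 ([(.cap, 0)] : List (Kind × ℕ)) ++ ht c) :=
    far_words (ht c) ([(.cap, 0)] : List (Kind × ℕ)) 2 2 2 (cnt_ht c) (by decide)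
  have c1 : cnt 2 ((.cup, (p : ℕ)) :: bw (rep g)) = some 4 := by
    have e : ((.cup, (p : ℕ)) :: bw (rep g) : Diag) = [(.cup, (p : ℕ))] ++ bw (rep g) := rfl
    rw [e, cnt_app (cnt_cupp p), cnt_bwk (rep g) 1]
  have h3 := h2.left _ c1
  simpa [Tg] using h3

/-- A minimum at the position 0. -/
theorem Tg_flip (g : Br 2) : EqD 2 (Tg 1 (sg 0 * sg 1 * g)) (Tg 0 g) := by
  have h1 := Tg_wd 1 ([(0, true), (1, true)] ++ rep g)
  rw [wd_append, wd_rep] at h1
  have e : wd [((0 : Fin 2), true), (1, true)] = (sg 0 * sg 1 : Br 2) := by simp [wd]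
  rw [e] at h1
  refine h1.symm.trans ?_
  have h2 := (nat_cup0.widen 1).right (bw (rep g) ++ ([(.cap, 2)] : List (Kind × ℕ))) (by
    rw [cnt_app (show cnt 2 ([((.cup : Kind), 1), (.crs true, 0), (.crs true, 1)] : List (Kind × ℕ)) = some 4 from rfl),
      cnt_app (cnt_bwk (rep g) 1)]
    decide)
  simpa [Tg, bw_append, bw_cons] using h2

/-! ### Normal form -/

/-- the diagram `D` with the vector `v` is the tangle of the word `x` and `c` half twists -/
def Frm (D : Diag) (v : ℤ × ℤ) (p : Fin 2) (x : List ℤ) (c : ℤ) : Prop :=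
  EqD 2 D (Tg p (W (p + 1) x) ++ ht c) ∧ PM v (shv c (act (bv p) (W (p + 1) x)))

theorem shv_shv (a b : ℤ) (v : ℤ × ℤ) : shv a (shv b v) = shv (a + b) v := by
  simp only [shv]
  ext
  · simp only []; ring
  · rfl

theorem shv_neg (a : ℤ) (v : ℤ × ℤ) : shv a (-v) = -shv a v := by
  simp only [shv]
  ext
  · simp only [Prod.fst_neg, Prod.snd_neg]; ring
  · rfl

theorem PM.shv {v w : ℤ × ℤ} (h : PM v w) (a : ℤ) : PM (shv a v) (shv a w) := by
  rcases h with rfl | rfl
  · exact Or.inl rfl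
  · exact Or.inr (shv_neg a w)

theorem Frm.trans {D : Diag} {v : ℤ × ℤ} {p : Fin 2} {x y : List ℤ} {c c' : ℤ}
    (h : Frm D v p x c) (h' : Frm (Tg p (W (p + 1) x)) (act (bv p) (W (p + 1) x)) p y c') :
    Frm D v p y (c + c') := by
  obtain ⟨h1, h2⟩ := h
  obtain ⟨h3, h4⟩ := h'
  constructor
  · refine h1.trans ?_
    have s1 := h3.right (ht c) (by rw [cnt_app (cnt_Tg p _), cnt_ht]; simp)
    have s2 := (ht_add c' c).left _ (cnt_Tg p (W (p + 1) y))
    rw [List.append_assoc] at s1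
    rw [add_comm c c']
    exact s1.trans s2
  · refine h2.trans ?_
    have := h4.shv c
    rw [shv_shv] at this
    exact this

/-- a pure braid after a minimum -/
theorem frm_pure (p : Fin 2) {g : Br 2} (hg : g ∈ H) :
    ∃ x : List ℤ, Frm (Tg p g) (act (bv p) g) p x 0 := by
  obtain ⟨c, y, rfl⟩ := H_form hg
  have key : ∀ q : Fin 2, ∃ x : List ℤ, EqD 2 (Tg p (W q y)) (Tg p (W (p + 1) x)) ∧
      act (bv p) (W q y) = act (bv p) (W (p + 1) x) := by
    intro q
    by_cases hq : q = p + 1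
    · exact ⟨y, by rw [hq]; exact EqD.refl _, by rw [hq]⟩
    · have hq' : q = p := by
        revert hq
        fin_cases p <;> fin_cases q <;> simp
      subst hq'
      cases y with
      | nil => exact ⟨[], EqD.refl _, rfl⟩
      | cons a l =>
        refine ⟨l, ?_, ?_⟩
        · rw [W_cons]
          exact Tg_zpow q _ (Tg_sp q) _ _
        · rw [W_cons, act_mul, act_bv]
  obtain ⟨x, h1, h2⟩ := key 0
  refine ⟨x, ?_, ?_⟩
  · rw [ht_zero, List.append_nil]
    exact (Tg_zpow p _ (Tg_D2 p) _ _).trans h1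
  · rw [act_mul]
    refine PM.trans ((PM_act_D2 (bv p) c).act _) ?_
    rw [h2]
    left
    simp [shv]

/-- zero elimination -/
theorem frm_red (p : Fin 2) : ∀ (n : ℕ) (y : List ℤ), y.length ≤ n →
    ∃ (x : List ℤ) (c : ℤ), Even c ∧ (∀ a ∈ x, a ≠ 0) ∧ (x = [] ∨ p + pl x.length = 1) ∧
      Frm (Tg p (W (p + 1) y)) (act (bv p) (W (p + 1) y)) p x c := by
  have base : ∀ g g' : Br 2, EqD 2 (Tg p g) (Tg p g') → act (bv p) g = act (bv p) g' →
      ∀ (x : List ℤ) (c : ℤ), Frm (Tg p g') (act (bv p) g') p x c → Frm (Tg p g) (act (bv p) g) p x c := by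
    intro g g' h h' x c hf
    refine ⟨h.trans hf.1, ?_⟩
    rw [h']
    exact hf.2
  intro n
  induction n with
  | zero =>
    intro y hy
    have : y = [] := List.length_eq_zero_iff.1 (by omega)
    subst this
    exact ⟨[], 0, by simp, by simp, Or.inl rfl, by rw [ht_zero, List.append_nil]; exact EqD.refl _,
      by left; simp [shv]⟩
  | succ n ih =>
    intro y hy
    by_cases hz : ∃ a ∈ y, a = 0
    · obtain ⟨a, ha, rfl⟩ := hz
      obtain ⟨u, v, rfl⟩ := List.append_of_mem ha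
      rcases v with _ | ⟨b, v⟩
      · -- the last entry is zero
        obtain ⟨x, c, h0, h1, h2, h3⟩ := ih u (by simp at hy; omega)
        have e : W (p + 1) (u ++ [0]) = W (p + 1) u := by
          rw [W_append, W_cons, W_nil, mul_zero, zpow_zero, mul_one, mul_one]
        exact ⟨x, c, h0, h1, h2, by rw [e]; exact h3⟩
      · rcases List.eq_nil_or_concat u with rfl | ⟨u, a, rfl⟩
        · -- the first entry is zero
          obtain ⟨x, c, h0, h1, h2, h3⟩ := ih v (by simp at hy; omega)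
          have e : W (p + 1) ([] ++ 0 :: b :: v) = sg p ^ (2 * b) * W (p + 1) v := by
            rw [List.nil_append, W_cons, W_cons, mul_zero, zpow_zero, one_mul, fin2_two]
          refine ⟨x, c, h0, h1, h2, ?_⟩
          rw [e]
          refine base _ _ (Tg_zpow p _ (Tg_sp p) _ _) ?_ x c h3
          rw [act_mul, act_bv]
        · obtain ⟨x, c, h0, h1, h2, h3⟩ := ih (u ++ (a + b) :: v) (by simp at hy ⊢; omega)
          have e : (u.concat a) ++ 0 :: b :: v = u ++ (a :: 0 :: b :: v) := by simp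
          have e' : W (p + 1) ((u.concat a) ++ 0 :: b :: v) = W (p + 1) (u ++ (a + b) :: v) := by
            rw [e, W_append, W_append]
            congr 1
            rw [W_cons, W_cons, W_cons, W_cons, mul_zero, zpow_zero, one_mul, fin2_two,
              ← mul_assoc, ← zpow_add, mul_add]
          exact ⟨x, c, h0, h1, h2, by rw [e']; exact h3⟩
    · by_cases hl : y = [] ∨ p + pl y.length = 1
      · exact ⟨y, 0, by simp, fun a ha h0 => hz ⟨a, ha, h0⟩, hl,
          by rw [ht_zero, List.append_nil]; exact EqD.refl _, by left; simp [shv]⟩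
      · push Not at hl
        obtain ⟨hne, hl⟩ := hl
        rcases List.eq_nil_or_concat y with rfl | ⟨u, a, rfl⟩
        · exact absurd rfl hne
        · obtain ⟨x, c, h0, h1, h2, h3⟩ := ih u (by simp at hy; omega)
          have hp : p + 1 + pl u.length = 0 := by
            rw [List.length_concat, pl] at hl
            revert hl
            generalize pl u.length = q
            fin_cases p <;> fin_cases q <;> simp
          have e : W (p + 1) (u.concat a) = W (p + 1) u * sg 0 ^ (2 * a) := by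
            rw [List.concat_eq_append, W_append, hp, W_cons, W_nil, mul_one]
          refine ⟨x, 2 * a + c, (even_two_mul a).add h0, h1, h2, ?_⟩
          have hf : Frm (Tg p (W (p + 1) (u.concat a))) (act (bv p) (W (p + 1) (u.concat a))) p u
              (2 * a) := by
            rw [e]
            refine ⟨Tg_s0z p _ _, ?_⟩
            rw [act_mul, act_s0z]
            exact PM.refl _
          exact hf.trans h3

/-- **Normal form of rational tangles**, first part. -/
theorem frm_tgl (w : List (Fin 2 × Bool)) : ∃ (p : Fin 2) (x : List ℤ) (c : ℤ),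
    (p = 0 → Even c) ∧ (∀ a ∈ x, a ≠ 0) ∧ (x = [] ∨ p + pl x.length = 1) ∧
      Frm (tgl w) (tvec (0, 1) w) p x c := by
  obtain ⟨t, ht', h⟩ := coset w
  have h1 : wd w * t⁻¹ ∈ H := by
    have : (QuotientGroup.mk' H) (wd w * t⁻¹) = 1 := by
      rw [map_mul, map_inv, h, mul_inv_cancel]
    exact (QuotientGroup.eq_one_iff _).1 this
  set k := wd w * t⁻¹ with hk
  have h2 : wd w = k * t := by rw [hk, inv_mul_cancel_right]
  have hv : tvec (0, 1) w = act (bv 1) (wd w) := tvec_wd w (0, 1)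
  -- it suffices to treat the braid up to the stabiliser of the minimum
  have fin : ∀ (p : Fin 2) (g : Br 2) (c : ℤ), g ∈ H → (p = 0 → Even c) →
      EqD 2 (tgl w) (Tg p g ++ ht c) → PM (tvec (0, 1) w) (shv c (act (bv p) g)) →
      ∃ (p : Fin 2) (x : List ℤ) (c : ℤ), (p = 0 → Even c) ∧ (∀ a ∈ x, a ≠ 0) ∧
        (x = [] ∨ p + pl x.length = 1) ∧ Frm (tgl w) (tvec (0, 1) w) p x c := by
    intro p g c hg hc hE hP
    obtain ⟨y, hy1, hy2⟩ := frm_pure p hg
    obtain ⟨x, c', k0, k1, k2, k3⟩ := frm_red p y.length y le_rfl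
    refine ⟨p, x, c + c', fun hp => (hc hp).add k0, k1, k2, ?_⟩
    have hf : Frm (tgl w) (tvec (0, 1) w) p y c := by
      constructor
      · refine hE.trans ?_
        rw [ht_zero, List.append_nil] at hy1
        exact hy1.right (ht c) (by rw [cnt_app (cnt_Tg p _), cnt_ht]; simp)
      · refine hP.trans ?_
        have := hy2.shv c
        rw [shv_shv, add_zero] at this
        exact this
    exact hf.trans k3
  have hs1 : ∀ g ∈ H, (sg 1)⁻¹ * g * sg 1 ∈ H := by
    intro g hg
    have := H_normal.conj_mem g hg (sg 1)⁻¹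
    simpa using this
  have hT : EqD 2 (tgl w) (Tg 1 (wd w)) := tgl_Tg w
  have tA : ∀ g : Br 2, g ∈ H → wd w = g → ∃ (p : Fin 2) (x : List ℤ) (c : ℤ),
      (p = 0 → Even c) ∧ (∀ a ∈ x, a ≠ 0) ∧ (x = [] ∨ p + pl x.length = 1) ∧
        Frm (tgl w) (tvec (0, 1) w) p x c := by
    intro g hg hw
    refine fin 1 g 0 hg (by simp) ?_ ?_
    · rw [ht_zero, List.append_nil, ← hw]; exact hT
    · rw [hv, hw]; left; simp [shv]
  have s1a : ∀ g : Br 2, EqD 2 (Tg 1 (g * sg 1)) (Tg 1 ((sg 1)⁻¹ * g * sg 1)) := by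
    intro g
    have h4 := Tg_sp 1 ((sg 1)⁻¹ * g * sg 1)
    have e : sg 1 * ((sg 1)⁻¹ * g * sg 1) = g * sg 1 := by group
    rw [e] at h4
    exact h4
  have s1b : ∀ g : Br 2, act (bv 1) (g * sg 1) = act (bv 1) ((sg 1)⁻¹ * g * sg 1) := by
    intro g
    have e : g * sg 1 = sg 1 * ((sg 1)⁻¹ * g * sg 1) := by group
    have h5 := act_bv 1 1
    rw [zpow_one] at h5
    conv_lhs => rw [e, act_mul, h5]
  have flip_v : ∀ g : Br 2, PM (act (bv 1) (sg 0 * sg 1 * g)) (act (bv 0) g) := by
    intro g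
    rw [act_mul]
    refine PM.act ?_ g
    right
    rw [act_mul]
    have a0 := act_sg (bv 1) 0 true
    have a1 := act_sg (lact (0, true) (bv 1)) 1 true
    simp only [if_true] at a0 a1
    rw [a0, a1]
    rfl
  -- the tangle of `g σ_0 σ_1` with `g` pure
  have tC : ∀ g : Br 2, g ∈ H → EqD 2 (tgl w) (Tg 1 (g * (sg 0 * sg 1))) →
      PM (tvec (0, 1) w) (act (bv 1) (g * (sg 0 * sg 1))) → ∃ (p : Fin 2) (x : List ℤ) (c : ℤ),
      (p = 0 → Even c) ∧ (∀ a ∈ x, a ≠ 0) ∧ (x = [] ∨ p + pl x.length = 1) ∧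
        Frm (tgl w) (tvec (0, 1) w) p x c := by
    intro g hg hE hP
    have e : g * (sg 0 * sg 1) = sg 0 * sg 1 * ((sg 0 * sg 1)⁻¹ * g * (sg 0 * sg 1)) := by group
    have hm : (sg 0 * sg 1)⁻¹ * g * (sg 0 * sg 1) ∈ H := by
      have := H_normal.conj_mem g hg (sg 0 * sg 1)⁻¹
      simpa using this
    refine fin 0 _ 0 hm (by simp) ?_ ?_
    · rw [ht_zero, List.append_nil]
      rw [e] at hE
      exact hE.trans (Tg_flip _)
    · rw [e] at hP
      refine hP.trans ((flip_v _).trans ?_)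
      left; simp [shv]
  simp only [List.mem_cons, List.not_mem_nil, or_false] at ht'
  rcases ht' with rfl | rfl | rfl | rfl | rfl | rfl
  · exact tA k h1 (by rw [h2, mul_one])
  · refine fin 1 k 1 h1 (by simp) ?_ ?_
    · have h5 := Tg_s0z 1 k 1
      rw [zpow_one, ← h2] at h5
      exact hT.trans h5
    · rw [hv, h2, act_mul]
      have h5 := act_s0z (act (bv 1) k) 1
      rw [zpow_one] at h5
      rw [h5]
      exact PM.refl _
  · refine fin 1 _ 0 (hs1 k h1) (by simp) ?_ ?_
    · rw [ht_zero, List.append_nil]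
      refine hT.trans ?_
      rw [h2]
      exact s1a k
    · rw [hv, h2, s1b]; left; simp [shv]
  · refine fin 1 _ 1 (hs1 k h1) (by simp) ?_ ?_
    · refine hT.trans ?_
      rw [h2, ← mul_assoc]
      have h5 := Tg_s0z 1 (k * sg 1) 1
      rw [zpow_one] at h5
      exact h5.trans ((s1a k).right (ht 1) (by rw [cnt_app (cnt_Tg 1 _), cnt_ht]; simp))
    · rw [hv, h2, ← mul_assoc, act_mul, s1b]
      have h5 := act_s0z (act (bv 1) ((sg 1)⁻¹ * k * sg 1)) 1
      rw [zpow_one] at h5
      rw [h5]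
      exact PM.refl _
  · refine tC k h1 (by rw [← h2]; exact hT) (by rw [hv, h2]; exact PM.refl _)
  · -- `σ_0 σ_1 σ_0 = σ_1 σ_0 σ_1`
    have e : k * (sg 0 * sg 1 * sg 0) = k * sg 1 * (sg 0 * sg 1) := by
      rw [bb]; group
    have e2 : k * sg 1 * (sg 0 * sg 1) = sg 1 * ((sg 1)⁻¹ * k * sg 1 * (sg 0 * sg 1)) := by group
    refine tC ((sg 1)⁻¹ * k * sg 1) (hs1 k h1) ?_ ?_
    · refine hT.trans ?_
      rw [h2, e, e2]
      exact Tg_sp 1 _
    · rw [hv, h2, e, e2, act_mul]
      have h5 := act_bv 1 1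
      rw [zpow_one] at h5
      rw [h5]
      exact PM.refl _

end Pool.Agent.Mont
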