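import Pool.Agent.Mont.Top
import Pool.Agent.TB.Cfu
import Pool.Agent.MTR.Adv
import Pool.Agent.MTR.Chno
import Pool.Agent.MTA.Stmts

/-!
Montesinos knots: comparison of the normal forms with those used in the analysis.
-/

namespace Pool.Agent.Mont

open Pool.Agent.LibH11 Pool.Agent.LibH11.Sliced Pool.Agent.TB Pool.Agent.TwoBr Pool.Agent.MTR

theorem act_s1z (v : ℤ × ℤ) (c : ℤ) : act v (sg 1 ^ c) = (v.1, v.2 + c * v.1) := by
  have h0 : ∀ v : ℤ × ℤ, act v (sg 1) = (v.1, v.2 + v.1) := by
    intro v
    have := act_sg v 1 true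
    simpa [lact] using this
  have h1 : ∀ v : ℤ × ℤ, act v (sg 1)⁻¹ = (v.1, v.2 - v.1) := by
    intro v
    have := act_sg v 1 false
    simpa [lact] using this
  induction c using Int.induction_on with
  | zero => rw [zpow_zero, act_one]; simp
  | succ n ih =>
    rw [zpow_add_one, act_mul, ih, h0]
    ext
    · rfl
    · simp only; ring
  | pred n ih =>
    rw [zpow_sub_one, act_mul, ih, h1]
    ext
    · rfl
    · simp only; ring

theorem act_two (v : ℤ × ℤ) (a b : ℤ) :
    act v (sg 0 ^ (2 * b) * (sg 1 ^ (2 * a) * 1)) =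
      (v.1 - 2 * b * v.2, v.2 + 2 * a * (v.1 - 2 * b * v.2)) := by
  rw [mul_one, act_mul, act_s0z, act_s1z]
  rfl

theorem nvec_even : ∀ y : List ℤ, Even y.length →
    tvec (0, 1) (wordOf 0 y.reverse) = lastv y
  | [], _ => rfl
  | [_], h => by simp at h
  | a :: b :: l, h => by
    have hl : Even l.length := by
      simp only [List.length_cons] at h
      rw [show l.length + 1 + 1 = l.length + 2 by ring, Nat.even_add] at h
      exact h.2 even_two
    have ih := nvec_even l hl
    have e1 : (a :: b :: l).reverse = l.reverse ++ [b, a] := by simp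
    rw [tvec_wd] at ih ⊢
    change act (0, 1) (W 0 _) = _ at ih ⊢
    rw [e1, W_append, List.length_reverse, pl_even hl, W_cons, W_cons, W_nil, act_mul, ih]
    have e2 : (0 : Fin 2) + 0 = 0 := rfl
    have e3 : (0 : Fin 2) + 1 = 1 := rfl
    rw [e2, e3, act_two, CFU.lastv_cons2]

theorem nvec_odd : ∀ y : List ℤ, Odd y.length →
    tvec (1, 0) (wordOf 1 y.reverse) = lastv y
  | [], h => by simp at h
  | [c], _ => by
    rw [tvec_wd]
    change act (1, 0) (W 1 _) = _
    rw [List.reverse_singleton, W_cons, W_nil, mul_one, act_s1z]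
    simp [lastv, chain]
  | a :: b :: l, h => by
    have hl : Odd l.length := by
      simp only [List.length_cons] at h
      rw [show l.length + 1 + 1 = l.length + 2 by ring, Nat.odd_add] at h
      exact h.2 even_two
    have ih := nvec_odd l hl
    have e1 : (a :: b :: l).reverse = l.reverse ++ [b, a] := by simp
    rw [tvec_wd] at ih ⊢
    change act (1, 0) (W 1 _) = _ at ih ⊢
    rw [e1, W_append, List.length_reverse, pl_odd (Nat.not_even_iff_odd.2 hl), W_cons, W_cons,
      W_nil, act_mul, ih]
    have e2 : (1 : Fin 2) + 1 = 0 := rfl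
    have e3 : (0 : Fin 2) + 1 = 1 := rfl
    rw [e2, e3, act_two, CFU.lastv_cons2]

theorem nvec_lastv {t : NT} (h : NOk t) : nvec t = lastv t.2.reverse := by
  obtain ⟨f, x⟩ := t
  cases f
  · have := nvec_even x.reverse (by rw [List.length_reverse]; exact h.2.1)
    rw [List.reverse_reverse] at this
    exact this
  · have := nvec_odd x.reverse (by rw [List.length_reverse]; exact h.2)
    rw [List.reverse_reverse] at this
    exact this

theorem Tt_tgd (t : NT) : Tt t = MT.tgd t := by
  obtain ⟨f, x⟩ := t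
  cases f <;> rfl

theorem mdiag_eq (ts : List NT) (e : ℤ) : mdiag ts e = MT.mdiag ts e := by
  have h : Tt = MT.tgd := funext Tt_tgd
  rw [mdiag, MT.mdiag, h, List.append_assoc]
  rfl

theorem Nrm.nft {ts : List NT} {e : ℤ} (h : Nrm ts e) : MTA.NFT ts e := by
  obtain ⟨h1, h2⟩ := h
  refine ⟨⟨?_, ?_, ?_⟩, ?_⟩
  · rintro ⟨f, x⟩ ht hf
    have := h1 _ ht
    simp only at hf
    subst hf
    exact this.2.1
  · rintro ⟨f, x⟩ ht hf
    have := h1 _ ht
    simp only at hf
    subst hf
    exact this.2
  · rcases h2 with ⟨h3, h4⟩ | ⟨h3, h4⟩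
    · left
      refine ⟨?_, h4⟩
      unfold MT.ntr
      rw [List.countP_eq_zero]
      intro t ht
      rw [h3 t ht]
      decide
    · right
      refine ⟨?_, h4⟩
      unfold MT.ntr
      rw [List.countP_eq_length_filter]
      exact h3
  · rintro ⟨f, x⟩ ht
    have := h1 _ ht
    cases f
    · exact ⟨this.2.2, this.1⟩
    · refine ⟨?_, this.1⟩
      rintro h
      simp only at h
      subst h
      have := this.2
      simp at this

/-- the slope of a word -/
noncomputable def lsl (x : List ℤ) : ℚ := ((lastv x).1 : ℚ) / (lastv x).2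

theorem nslope_eq {t : NT} (h : NOk t) : nslope t = lsl t.2.reverse := by
  rw [nslope, nvec_lastv h, lsl]

/-- Nondegenerate lists of tangles: no `N - 2` of the slopes have an integer sum. -/
def NDu (us : List (List (Fin 2 × Bool))) : Prop :=
  ∀ (u v : List (Fin 2 × Bool)) (rest : List (List (Fin 2 × Bool))),
    us.Perm (u :: v :: rest) → ∀ m : ℤ, (rest.map slope).sum ≠ m

theorem sum_forall2 {us : List (List (Fin 2 × Bool))} {ws : List (List ℤ)}
    (h : List.Forall₂ (fun u x => ∃ m : ℤ, slope u = lsl x - m) us ws) :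
    ∃ m : ℤ, (us.map slope).sum = (ws.map lsl).sum - m := by
  induction h with
  | nil => exact ⟨0, by simp⟩
  | cons h _ ih =>
    obtain ⟨m, hm⟩ := h
    obtain ⟨n, hn⟩ := ih
    refine ⟨m + n, ?_⟩
    simp only [List.map_cons, List.sum_cons]
    rw [hm, hn]
    push_cast
    ring

theorem lastv_ne_zero {x : List ℤ} (h0 : ∀ a ∈ x, a ≠ 0) : (lastv x).2 ≠ 0 := by
  have h := (chno x).2.2.2 h0
  have h1 := h.1
  intro h2
  rw [h2, abs_zero] at h1
  exact absurd h1 (not_lt.2 (abs_nonneg _))

theorem nd_of {us : List (List (Fin 2 × Bool))} {ws : List (List ℤ)} (e : ℤ)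
    (h : List.Forall₂ (fun u x => ∃ m : ℤ, slope u = lsl x - m) us ws)
    (h0 : ∀ x ∈ ws, ∀ a ∈ x, a ≠ 0) (hnd : NDu us) : ND e ws := by
  intro x y rest hp hdiv
  have h1 : Relation.Comp (List.Forall₂ (fun u x => ∃ m : ℤ, slope u = lsl x - m)) List.Perm us
      (x :: y :: rest) := ⟨ws, h, hp⟩
  rw [List.forall₂_comp_perm_eq_perm_comp_forall₂] at h1
  obtain ⟨us', hp', h2⟩ := h1
  cases h2 with
  | cons hu h2 =>
    rename_i u us1
    cases h2 with
    | cons hv h3 =>
      rename_i v us2
      obtain ⟨m, hm⟩ := sum_forall2 h3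
      obtain ⟨k, hk⟩ := hdiv
      have had := adv chno
      have h5 : ∀ x ∈ rest, (lastv x).2 ≠ 0 := by
        intro z hz
        refine lastv_ne_zero (h0 z ?_)
        rw [hp.mem_iff]
        simp [hz]
      have h6 := had.2.2.2.1 e rest h5
      have h7 : ((totv e rest).2 : ℚ) ≠ 0 := by
        have h8 := had.2.2.1 e rest
        have h9 : (totv e rest).2 ≠ 0 := by
          rw [h8]
          rw [Ne, List.prod_eq_zero_iff]
          rintro h10
          rw [List.mem_map] at h10
          obtain ⟨z, hz, hz'⟩ := h10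
          exact h5 z hz hz'
        exact_mod_cast h9
      rw [hk] at h6
      push_cast at h6
      have h8 := mul_left_cancel₀ h7 h6
      refine hnd u v us2 hp' (k + e - m) ?_
      rw [hm]
      push_cast
      rw [h8]
      unfold lsl
      ring

theorem forall2_lsl {us : List (List (Fin 2 × Bool))} {ts : List NT} (hok : ∀ t ∈ ts, NOk t)
    (h : List.Forall₂ (fun u t => ∃ m : ℤ, slope u = nslope t - m) us ts) :
    List.Forall₂ (fun u x => ∃ m : ℤ, slope u = lsl x - m) us (MTA.wrds ts) := by
  induction h with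
  | nil => exact List.Forall₂.nil
  | cons h _ ih =>
    rename_i u t us ts h1
    refine List.Forall₂.cons ?_ (ih fun t ht => hok t (List.mem_cons_of_mem _ ht))
    obtain ⟨m, hm⟩ := h
    exact ⟨m, by rw [hm, nslope_eq (hok t List.mem_cons_self)]⟩

theorem fract_forall2 {us : List (List (Fin 2 × Bool))} {ts : List NT}
    (h : List.Forall₂ (fun u t => ∃ m : ℤ, slope u = nslope t - m) us ts) :
    us.map (fun u => Int.fract (slope u)) = ts.map (fun t => Int.fract (nslope t)) := by
  induction h with
  | nil => rfl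
  | cons h _ ih =>
    obtain ⟨m, hm⟩ := h
    rw [List.map_cons, List.map_cons, ih, hm, Int.fract_sub_intCast]

end Pool.Agent.Mont
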