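import Pool.Agent.Mont.Asm
import Pool.Agent.TB.Klk

/-!
Montesinos knots: the parities of long diagrams in normal form.
-/

namespace Pool.Agent.Mont

open Pool.Agent.LibH11 Pool.Agent.LibH11.Sliced Pool.Agent.TB Pool.Agent.TwoBr

theorem run_twd5 (lab : ℕ → ℕ) (c : ℕ) :
    ∀ (x : List ℤ) (p : ℕ), p ≤ 1 → run (twd p x) (5, lab, c) = some (5, lab, c) := by
  intro x
  induction x with
  | nil => intro p _; rfl
  | cons a l ih =>
    intro p hp
    rw [twd, run_append, KLK.run_tw p 5 lab c a (by omega)]
    exact ih (1 - p) (by omega)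

/-- The words do not change the labels. -/
theorem run_Tt (t : NT) (lab : ℕ → ℕ) (c : ℕ) :
    run (Tt t) (3, lab, c) = run (Tt (t.1, [])) (3, lab, c) := by
  obtain ⟨f, x⟩ := t
  cases f
  · show run ((.cup, 1) :: (twd 0 x ++ [(.cap, 2)])) (3, lab, c) =
      run ((.cup, 1) :: (twd 0 [] ++ [(.cap, 2)])) (3, lab, c)
    simp only [run, step]
    rw [if_pos (by omega)]
    simp only [Option.bind_some]
    rw [run_append, run_append, run_twd5 _ _ x 0 (by omega), run_twd5 _ _ [] 0 (by omega)]
  · show run ((.cup, 0) :: (twd 1 x ++ [(.cap, 2)])) (3, lab, c) =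
      run ((.cup, 0) :: (twd 1 [] ++ [(.cap, 2)])) (3, lab, c)
    simp only [run, step]
    rw [if_pos (by omega)]
    simp only [Option.bind_some]
    rw [run_append, run_append, run_twd5 _ _ x 1 (by omega), run_twd5 _ _ [] 1 (by omega)]

/-- a tangle with flag `false` -/
theorem run_false {x : List ℤ} {lab : ℕ → ℕ} {c : ℕ} {s : State}
    (h : run (Tt (false, x)) (3, lab, c) = some s) : ∃ (lab' : ℕ → ℕ) (c' : ℕ), s = (3, lab', c') ∧
      (lab 1 = lab 2 → lab' 1 = lab' 2) ∧ (lab 0 = lab 1 → lab' 0 = lab' 1) := by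
  rw [run_Tt] at h
  simp only [Tt, twd, List.nil_append, run, step] at h
  rw [if_pos (show 1 ≤ 3 by omega)] at h
  simp only [Option.bind_some] at h
  obtain ⟨s2, h2, h3⟩ := Option.bind_eq_some_iff.1 h
  rw [Option.ite_none_right_eq_some] at h2
  obtain ⟨h4, h5⟩ := h2
  simp only [Option.some.injEq] at h3 h5
  subst h3
  refine ⟨_, _, h5.symm, ?_, ?_⟩
  · intro h6
    simp [h6]
  · intro h6
    simp [h6]

/-- a tangle with flag `true` -/
theorem run_true {x : List ℤ} {lab : ℕ → ℕ} {c : ℕ} {s : State}
    (h : run (Tt (true, x)) (3, lab, c) = some s) : ∃ (lab' : ℕ → ℕ) (c' : ℕ), s = (3, lab', c') ∧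
      lab 0 ≠ lab 1 ∧ lab' 0 = lab' 1 := by
  rw [run_Tt] at h
  simp only [Tt, twd, List.nil_append, run, step] at h
  rw [if_pos (show 0 ≤ 3 by omega)] at h
  simp only [Option.bind_some] at h
  obtain ⟨s2, h2, h3⟩ := Option.bind_eq_some_iff.1 h
  rw [Option.ite_none_right_eq_some] at h2
  obtain ⟨h4, h5⟩ := h2
  simp only [Option.some.injEq] at h3 h5
  subst h3
  refine ⟨_, _, h5.symm, ?_, ?_⟩
  · simpa using h4.2
  · simp

/-- after a tangle with flag `true`, the other flags are `false` -/
theorem run_after : ∀ (ts : List NT) (lab : ℕ → ℕ) (c : ℕ) (s : State), lab 0 = lab 1 →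
    run ((ts.map Tt).flatten) (3, lab, c) = some s → ∀ t ∈ ts, t.1 = false := by
  intro ts
  induction ts with
  | nil => intro _ _ _ _ _ t ht; simp at ht
  | cons t ts ih =>
    intro lab c s hl h
    rw [List.map_cons, List.flatten_cons, run_append] at h
    obtain ⟨s1, h1, h2⟩ := Option.bind_eq_some_iff.1 h
    obtain ⟨f, x⟩ := t
    cases f
    · obtain ⟨lab', c', rfl, -, h4⟩ := run_false h1
      intro t ht
      rcases List.mem_cons.1 ht with rfl | ht
      · rfl
      · exact ih lab' c' s (h4 hl) h2 t ht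
    · obtain ⟨lab', c', rfl, h4, -⟩ := run_true h1
      exact absurd hl h4

/-- at most one flag is `true`; if there is none then the last two labels agree at the end -/
theorem run_before : ∀ (ts : List NT) (lab : ℕ → ℕ) (c : ℕ) (s : State), lab 1 = lab 2 →
    run ((ts.map Tt).flatten) (3, lab, c) = some s →
      ((ts.filter fun t => t.1).length = 1) ∨
        ((∀ t ∈ ts, t.1 = false) ∧ ∃ (lab' : ℕ → ℕ) (c' : ℕ), s = (3, lab', c') ∧
          lab' 1 = lab' 2) := by
  intro ts
  induction ts with
  | nil =>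
    intro lab c s hl h
    right
    simp only [List.map_nil, List.flatten_nil, run, Option.some.injEq] at h
    exact ⟨by simp, lab, c, h.symm, hl⟩
  | cons t ts ih =>
    intro lab c s hl h
    rw [List.map_cons, List.flatten_cons, run_append] at h
    obtain ⟨s1, h1, h2⟩ := Option.bind_eq_some_iff.1 h
    obtain ⟨f, x⟩ := t
    cases f
    · obtain ⟨lab', c', rfl, h3, -⟩ := run_false h1
      rcases ih lab' c' s (h3 hl) h2 with h5 | ⟨h5, h6⟩
      · left
        simpa using h5
      · right
        refine ⟨?_, h6⟩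
        intro t ht
        rcases List.mem_cons.1 ht with rfl | ht
        · rfl
        · exact h5 t ht
    · left
      obtain ⟨lab', c', rfl, -, h4⟩ := run_true h1
      have h5 := run_after ts lab' c' s h4 h2
      have h6 : ts.filter (fun t => t.1) = [] := by
        rw [List.filter_eq_nil_iff]
        intro t ht
        rw [h5 t ht]
        simp
      simp [h6]

theorem run_ht_even {e : ℤ} (he : Even e) (lab : ℕ → ℕ) (c : ℕ) :
    run (ht e) (3, lab, c) = some (3, lab, c) := by
  unfold ht
  have h1 : Even e.natAbs := Int.natAbs_even.2 he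
  obtain ⟨k, hk⟩ := h1
  rw [hk, ← two_mul]
  exact KLK.run_two _ 0 3 lab c (by omega) k

/-- **The parities of long diagrams in normal form.** -/
theorem parity (ts : List NT) (e : ℤ) (h : IsLongKnot (mdiag ts e)) :
    ((ts.filter fun t => t.1).length = 1) ∨ ((∀ t ∈ ts, t.1 = false) ∧ Odd e) := by
  obtain ⟨lab, c, h⟩ := h
  unfold mdiag at h
  simp only [run, step] at h
  rw [if_pos (by omega)] at h
  simp only [Option.bind_some] at h
  rw [List.append_assoc, run_append] at h
  obtain ⟨s1, h1, h2⟩ := Option.bind_eq_some_iff.1 h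
  rcases run_before ts _ _ s1 (by simp) h1 with h3 | ⟨h3, lab', c', rfl, h4⟩
  · exact Or.inl h3
  · right
    refine ⟨h3, ?_⟩
    rw [← Int.not_even_iff_odd]
    intro he
    rw [run_append, run_ht_even he] at h2
    simp only [Option.bind_some, run, step] at h2
    rw [if_neg (by
      rintro ⟨-, h5⟩
      exact h5 h4)] at h2
    simp at h2

end Pool.Agent.Mont
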