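import Pool.Agent.Mont.Flip

/-!
Diagrams rotated about a vertical axis and rotated in the plane; the reverse of a long knot given by
an arc.
-/

namespace Pool.Agent.Mont

open Pool.Agent.LibH11 Pool.Agent.LibH11.Sliced Pool.Agent.TB Pool.Agent.TwoBr Pool.Agent.TS

/-- the diagram (with `a` strands at the bottom) rotated about a vertical axis -/
def hD : ℕ → Diag → Diag
  | _, [] => []
  | a, (k, i) :: w => (k, a - k.ins - i) :: hD (a - k.ins + k.outs) w

/-- the diagram (with `a` strands at the bottom) rotated in the plane -/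
def pD : ℕ → Diag → Diag
  | _, [] => []
  | a, (k, i) :: w => pD (a - k.ins + k.outs) w ++ [(flipK k, a - k.ins - i)]

theorem pD_hD : ∀ (w : Diag) {a : ℕ}, cnt a w ≠ none → pD a (hD a w) = flipD w := by
  intro w
  induction w with
  | nil => intro a _; rfl
  | cons p w ih =>
    obtain ⟨k, i⟩ := p
    intro a h
    obtain ⟨h1, h2⟩ := cnt_cons_ne h
    rw [hD, pD, ih h2, flipD_cons]
    congr 3
    omega

theorem cnt_hD : ∀ (w : Diag) {a b : ℕ}, cnt a w = some b → cnt a (hD a w) = some b := by
  intro w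
  induction w with
  | nil => intro a b h; exact h
  | cons p w ih =>
    obtain ⟨k, i⟩ := p
    intro a b h
    obtain ⟨h1, h2⟩ := cnt_cons_some h
    simp only [hD, cnt]
    rw [if_pos (by omega), ih h2]

theorem cnt_pD : ∀ (w : Diag) {a b : ℕ}, cnt a w = some b → cnt b (pD a w) = some a := by
  intro w
  induction w with
  | nil =>
    intro a b h
    simp only [cnt, Option.some.injEq] at h
    subst h
    rfl
  | cons p w ih =>
    obtain ⟨k, i⟩ := p
    intro a b h
    obtain ⟨h1, h2⟩ := cnt_cons_some h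
    rw [pD, cnt_app (ih h2)]
    simp only [cnt, flipK_ins, flipK_outs]
    rw [if_pos (by omega)]
    congr 1
    omega

/-! ### Rotation in the plane -/

/-- nested maxima -/
def NC : ℕ → Diag
  | 0 => []
  | n + 1 => (.cap, n) :: NC n

theorem cnt_NC : ∀ (n m : ℕ), cnt (n + n + m) (NC n) = some m := by
  intro n
  induction n with
  | zero => intro m; simp [NC, cnt]
  | succ n ih =>
    intro m
    have h := ih m
    rw [NC]
    simp only [cnt]
    rw [if_pos (show n + Kind.cap.ins ≤ n + 1 + (n + 1) + m by simp only [Kind.ins]; omega)]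
    rw [show n + 1 + (n + 1) + m - Kind.cap.ins + Kind.cap.outs = n + n + m by
      simp only [Kind.ins, Kind.outs]; omega]
    exact h

theorem np_base (k : Kind) (i : ℕ) :
    EqD (i + k.ins + (i + k.outs)) ([(k, i)] ++ NC (i + k.outs))
      ([(flipK k, i + k.ins)] ++ NC (i + k.ins)) := by
  cases k with
  | cup =>
    have h : EqD 2 ([(.cup, 0), (.cap, 1), (.cap, 0)] : List (Kind × ℕ)) ([(.cap, 0)] : List (Kind × ℕ)) :=
      EqD.of_chk [(0, false, .zz 0)] rfl
    have h2 := ((h.sh i).widen i).right (NC i) (by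
      simp only [sh_cons, sh_nil, List.cons_append, List.nil_append, cnt, Kind.ins, Kind.outs]
      have := cnt_NC i 0
      rw [if_pos (by omega), if_pos (by omega), if_pos (by omega)]
      rw [show 2 + i + i - 0 + 2 - 2 + 0 - 2 + 0 = i + i + 0 by omega, this]
      simp)
    simp only [sh_cons, sh_nil, List.cons_append, List.nil_append] at h2
    rw [show 1 + i = i + 1 by omega, show 0 + i = i by omega, show 2 + i + i = i + 0 + (i + 2) by omega] at h2
    exact h2
  | cap =>
    have h : EqD 2 ([(.cap, 0)] : List (Kind × ℕ)) ([(.cup, 2), (.cap, 1), (.cap, 0)] : List (Kind × ℕ)) :=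
      EqD.of_chk [(0, true, .zg 1)] rfl
    have h2 := ((h.sh i).widen i).right (NC i) (by
      simp only [sh_cons, sh_nil, List.cons_append, List.nil_append, cnt, Kind.ins, Kind.outs]
      have := cnt_NC i 0
      rw [if_pos (by omega)]
      rw [show 2 + i + i - 2 + 0 = i + i + 0 by omega, this]
      simp)
    simp only [sh_cons, sh_nil, List.cons_append, List.nil_append] at h2
    rw [show 1 + i = i + 1 by omega, show 0 + i = i by omega, show 2 + i = i + 2 by omega,
      show i + 2 + i = i + 2 + (i + 0) by omega] at h2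
    exact h2
  | crs c =>
    have h : EqD 4 ([(.crs c, 0), (.cap, 1), (.cap, 0)] : List (Kind × ℕ)) ([(.crs c, 2), (.cap, 1), (.cap, 0)] : List (Kind × ℕ)) := by
      cases c
      · exact EqD.of_chk [(0, true, .sa 0 true), (1, false, .far .cap .cap 0 0),
          (0, true, .sa 1 false)] rfl
      · exact EqD.of_chk [(0, true, .sa 0 false), (1, false, .far .cap .cap 0 0),
          (0, true, .sa 1 true)] rfl
    have h2 := ((h.sh i).widen i).right (NC i) (by
      simp only [sh_cons, sh_nil, List.cons_append, List.nil_append, cnt, Kind.ins, Kind.outs]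
      have := cnt_NC i 0
      rw [if_pos (by omega), if_pos (by omega), if_pos (by omega)]
      rw [show 4 + i + i - 2 + 2 - 2 + 0 - 2 + 0 = i + i + 0 by omega, this]
      simp)
    simp only [sh_cons, sh_nil, List.cons_append, List.nil_append] at h2
    rw [show 1 + i = i + 1 by omega, show 0 + i = i by omega, show 2 + i = i + 2 by omega,
      show 4 + i + i = i + 2 + (i + 2) by omega] at h2
    exact h2

theorem np_slice (k : Kind) (i : ℕ) : ∀ r : ℕ,
    EqD (i + k.ins + r + (i + k.outs + r)) ([(k, i)] ++ NC (i + k.outs + r))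
      ([(flipK k, i + k.ins + r + r)] ++ NC (i + k.ins + r)) := by
  intro r
  induction r with
  | zero => exact np_base k i
  | succ r ih =>
    have ci : Kind.cap.ins = 2 := rfl
    have co : Kind.cap.outs = 0 := rfl
    have hfi := flipK_ins k
    have hfo := flipK_outs k
    have hN : i + k.ins + (r + 1) + (i + k.outs + (r + 1)) =
        i + k.ins + r + (i + k.outs + r) + 2 := by omega
    have cap : ∀ j, j + 2 ≤ i + k.ins + r + (i + k.outs + r) + 2 →
        cnt (i + k.ins + r + (i + k.outs + r) + 2) ([((.cap : Kind), j)] : List (Kind × ℕ)) =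
          some (i + k.ins + r + (i + k.outs + r)) := by
      intro j hj
      rw [cnt_one (by omega)]
      congr 1
    have n1 : NC (i + k.outs + (r + 1)) = [(.cap, i + k.outs + r)] ++ NC (i + k.outs + r) := rfl
    have n2 : NC (i + k.ins + (r + 1)) = [(.cap, i + k.ins + r)] ++ NC (i + k.ins + r) := rfl
    have f1 : EqD (i + k.ins + r + (i + k.outs + r) + 2) [(k, i), (.cap, i + k.outs + r)]
        [(.cap, i + k.ins + r), (k, i)] := by
      refine EqD.move (Move.far k .cap i r) ?_ ?_
      · simp only [cnt]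
        rw [if_pos (by omega), if_pos (by omega)]
        simp
      · simp only [cnt]
        rw [if_pos (by omega), if_pos (by omega)]
        simp
    have f2 : EqD (i + k.ins + r + (i + k.outs + r) + 2)
        [(.cap, i + k.ins + r), (flipK k, i + k.ins + r + r)]
        [(flipK k, i + k.ins + (r + 1) + (r + 1)), (.cap, i + k.ins + r)] := by
      have hm := Move.far .cap (flipK k) (i + k.ins + r) r
      have e1 : i + k.ins + r + Kind.cap.outs + r = i + k.ins + r + r := by omega
      have e2 : i + k.ins + r + Kind.cap.ins + r = i + k.ins + (r + 1) + (r + 1) := by omega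
      rw [e1, e2] at hm
      refine EqD.move hm ?_ ?_
      · simp only [cnt]
        rw [if_pos (by omega), if_pos (by omega)]
        simp
      · simp only [cnt]
        rw [if_pos (by omega), if_pos (by omega)]
        simp
    have cNC : cnt (i + k.outs + r + (i + k.outs + r)) (NC (i + k.outs + r)) = some 0 :=
      cnt_NC _ 0
    have cNC2 : cnt (i + k.ins + r + (i + k.ins + r)) (NC (i + k.ins + r)) = some 0 :=
      cnt_NC _ 0
    have s1 := f1.right (NC (i + k.outs + r)) (by
      rw [show [(k, i), (.cap, i + k.outs + r)] ++ NC (i + k.outs + r) =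
        (k, i) :: (.cap, i + k.outs + r) :: NC (i + k.outs + r) from rfl]
      simp only [cnt]
      rw [if_pos (by omega), if_pos (by omega)]
      rw [show i + k.ins + r + (i + k.outs + r) + 2 - k.ins + k.outs - Kind.cap.ins +
        Kind.cap.outs = i + k.outs + r + (i + k.outs + r) by omega, cNC]
      simp)
    have s2 := ih.left [(.cap, i + k.ins + r)] (cap _ (by omega))
    have s3 := f2.right (NC (i + k.ins + r)) (by
      rw [show [(.cap, i + k.ins + r), (flipK k, i + k.ins + r + r)] ++ NC (i + k.ins + r) =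
        (.cap, i + k.ins + r) :: (flipK k, i + k.ins + r + r) :: NC (i + k.ins + r) from rfl]
      simp only [cnt, flipK_ins, flipK_outs]
      rw [if_pos (by omega), if_pos (by omega)]
      rw [show i + k.ins + r + (i + k.outs + r) + 2 - Kind.cap.ins + Kind.cap.outs - k.outs +
        k.ins = i + k.ins + r + (i + k.ins + r) by omega, cNC2]
      simp)
    rw [hN, n1, n2]
    simp only [List.append_assoc, List.cons_append, List.nil_append] at s1 s2 s3 ⊢
    exact (s1.trans s2).trans s3

/-- A diagram passes through nested maxima. -/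
theorem np_word : ∀ (w : Diag) {a b : ℕ}, cnt a w = some b →
    EqD (a + b) (w ++ NC b) (sh a (pD a w) ++ NC a) := by
  intro w
  induction w with
  | nil =>
    intro a b h
    simp only [cnt, Option.some.injEq] at h
    subst h
    exact EqD.refl _
  | cons p w ih =>
    obtain ⟨k, i⟩ := p
    intro a b h
    obtain ⟨h1, h2⟩ := cnt_cons_some h
    have hw := ih h2
    obtain ⟨r, rfl⟩ := Nat.exists_eq_add_of_le h1
    have e1 : i + k.ins + r - k.ins + k.outs = i + k.outs + r := by omega
    rw [e1] at h2 hw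
    have c1 : cnt (i + k.ins + r + b) [(k, i)] = some (i + k.outs + r + b) := by
      rw [cnt_one (by omega)]
      congr 1
      omega
    have cp : cnt b (pD (i + k.outs + r) w) = some (i + k.outs + r) := cnt_pD w h2
    have s1 := hw.left [(k, i)] c1
    have hf := far_left k (i := i) (N := i + k.ins + r) (by omega) (pD (i + k.outs + r) w) b
      (by rw [cp]; simp)
    rw [e1] at hf
    have cNC : cnt (i + k.outs + r + (i + k.outs + r)) (NC (i + k.outs + r)) = some 0 :=
      cnt_NC _ 0
    have s2 := hf.right (NC (i + k.outs + r)) (by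
      rw [show ((k, i) :: sh (i + k.outs + r) (pD (i + k.outs + r) w) : Diag) =
        [(k, i)] ++ sh (i + k.outs + r) (pD (i + k.outs + r) w) from rfl, List.append_assoc,
        cnt_app c1]
      have : cnt (i + k.outs + r + b) (sh (i + k.outs + r) (pD (i + k.outs + r) w)) =
          some (i + k.outs + r + (i + k.outs + r)) := by
        rw [add_comm, cnt_sh, cp]
        rfl
      rw [cnt_app this, cNC]
      simp)
    have c2 : cnt (i + k.ins + r + b) (sh (i + k.ins + r) (pD (i + k.outs + r) w)) =
        some (i + k.ins + r + (i + k.outs + r)) := by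
      rw [add_comm, cnt_sh, cp]
      simp [add_comm]
    have s3 := (np_slice k i r).left _ c2
    have e2 : pD (i + k.ins + r) ((k, i) :: w) = pD (i + k.outs + r) w ++ [(flipK k, r)] := by
      rw [pD, e1]
      congr 3
      omega
    rw [e2, sh_append, sh_cons, sh_nil, add_comm r]
    simp only [List.append_assoc, List.cons_append, List.nil_append] at s1 s2 s3 ⊢
    exact (s1.trans s2).trans s3

/-! ### Rotation about the vertical axis -/

/-- half twists -/
def Dl (e : Bool) : ℕ → Diag
  | 0 => []
  | n + 1 => XX e n ++ sh 1 (Dl e n)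

theorem cnt_Dl (e : Bool) : ∀ n : ℕ, cnt n (Dl e n) = some n := by
  intro n
  induction n with
  | zero => rfl
  | succ n ih =>
    rw [Dl, cnt_app (NATX.cnt_XX e n _ le_rfl), cnt_sh, ih]
    rfl

/-- the first strand moves to the right across `n` strands -/
def YY (e : Bool) : ℕ → Diag
  | 0 => []
  | n + 1 => (Kind.crs e, 0) :: sh 1 (YY e n)

theorem cnt_YY (e : Bool) : ∀ n N : ℕ, n + 1 ≤ N → cnt N (YY e n) = some N := by
  intro n
  induction n with
  | zero => intro N _; rfl
  | succ n ih =>
    intro N h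
    obtain ⟨M, rfl⟩ : ∃ M, N = M + 1 := ⟨N - 1, by omega⟩
    rw [YY]
    simp only [cnt, Kind.ins, Kind.outs]
    rw [if_pos (by omega), show M + 1 - 2 + 2 = M + 1 by omega, cnt_sh, ih M (by omega)]
    rfl

theorem XX_snoc (e : Bool) : ∀ n : ℕ, XX e (n + 1) = sh 1 (XX e n) ++ ([(Kind.crs e, 0)] : List (Kind × ℕ)) := by
  intro n
  rw [add_comm, NATX.XX_add]
  rfl

theorem XY (e : Bool) : ∀ n : ℕ, EqD (n + 1) (XX (!e) n ++ YY e n) [] := by
  intro n
  induction n with
  | zero => exact EqD.refl _
  | succ n ih =>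
    rw [XX_snoc, YY]
    have c1 : cnt (n + 1 + 1) (sh 1 (XX (!e) n)) = some (n + 1 + 1) := by
      rw [cnt_sh, NATX.cnt_XX _ n _ le_rfl]
      rfl
    have h : EqD (n + 1 + 1) ([(Kind.crs (!e), 0), (Kind.crs e, 0)] : List (Kind × ℕ)) [] := by
      have hm := Move.r2 0 (!e)
      rw [Bool.not_not] at hm
      refine EqD.move hm ?_ ?_
      · simp [cnt, Kind.ins, Kind.outs]
      · simp [cnt]
    have s1 := h.ctx (sh 1 (XX (!e) n)) (sh 1 (YY e n)) c1 (by
      rw [List.append_assoc, cnt_app c1]
      simp only [cnt, List.cons_append, List.nil_append, Kind.ins, Kind.outs]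
      rw [if_pos (by omega), if_pos (by omega), show n + 1 + 1 - 2 + 2 - 2 + 2 = n + 1 + 1 by omega,
        cnt_sh, cnt_YY e n _ le_rfl]
      simp)
    have s2 := ih.sh 1
    rw [sh_append] at s2
    simp only [List.append_assoc, List.cons_append, List.nil_append, sh_nil] at s1 s2 ⊢
    exact s1.trans s2

theorem YX (e : Bool) : ∀ n : ℕ, EqD (n + 1) (YY e n ++ XX (!e) n) [] := by
  intro n
  induction n with
  | zero => exact EqD.refl _
  | succ n ih =>
    rw [XX_snoc, YY]
    have s2 := ih.sh 1
    rw [sh_append, sh_nil] at s2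
    have c1 : cnt (n + 1 + 1) ([(Kind.crs e, 0)] : List (Kind × ℕ)) = some (n + 1 + 1) := by
      simp [cnt, Kind.ins, Kind.outs]
    have s1 := s2.ctx ([(Kind.crs e, 0)] : List (Kind × ℕ)) ([(Kind.crs (!e), 0)] : List (Kind × ℕ)) c1 (by
      rw [List.append_assoc, cnt_app c1, List.append_assoc]
      have k1 : cnt (n + 1 + 1) (sh 1 (YY e n)) = some (n + 1 + 1) := by
        rw [cnt_sh, cnt_YY e n _ le_rfl]
        rfl
      have k2 : cnt (n + 1 + 1) (sh 1 (XX (!e) n)) = some (n + 1 + 1) := by
        rw [cnt_sh, NATX.cnt_XX _ n _ le_rfl]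
        rfl
      rw [cnt_app k1, cnt_app k2]
      simp [cnt, Kind.ins, Kind.outs])
    have h : EqD (n + 1 + 1) ([(Kind.crs e, 0), (Kind.crs (!e), 0)] : List (Kind × ℕ)) [] := by
      refine EqD.move (Move.r2 0 e) ?_ ?_
      · simp [cnt, Kind.ins, Kind.outs]
      · simp [cnt]
    simp only [List.append_assoc, List.cons_append, List.nil_append] at s1 h ⊢
    exact s1.trans h

/-- the first strand passes across a diagram -/
theorem naty (e : Bool) {f : Diag} {n m : ℕ} (h : cnt n f = some m) :
    EqD (n + 1) (YY e n ++ f) (sh 1 f ++ YY e m) := by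
  have hn := natx (!e) f n m h
  have cf : cnt (n + 1) f = some (m + 1) := cnt_widen 1 _ _ _ h
  have csf : cnt (n + 1) (sh 1 f) = some (m + 1) := by rw [cnt_sh, h]; rfl
  have cYn := cnt_YY e n (n + 1) le_rfl
  have cYm := cnt_YY e m (m + 1) le_rfl
  have cXn := NATX.cnt_XX (!e) n (n + 1) le_rfl
  have cXm := NATX.cnt_XX (!e) m (m + 1) le_rfl
  have s1 := (XY e m).symm.left (YY e n ++ f) (N := n + 1) (by rw [cnt_app cYn, cf])
  have s2 := hn.ctx (YY e n) (YY e m) cYn (by
    rw [List.append_assoc, cnt_app cYn, List.append_assoc, cnt_app cf, cnt_app cXm, cYm]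
    simp)
  have s3 := (YX e n).right (sh 1 f ++ YY e m) (by
    rw [List.append_assoc, cnt_app cYn, cnt_app cXn, cnt_app csf, cYm]
    simp)
  rw [List.append_nil] at s1
  simp only [List.append_assoc, List.nil_append] at s1 s2 s3 ⊢
  exact (s1.trans s2).trans s3

/-- the half twist with the first strand first -/
theorem Dl_first (e : Bool) : ∀ n : ℕ, EqD (n + 1) (Dl e (n + 1)) (YY e n ++ Dl e n) := by
  intro n
  induction n with
  | zero => exact EqD.refl _
  | succ n ih =>
    have cX1 := NATX.cnt_XX e (n + 1) (n + 1 + 1) le_rfl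
    have s1 := (ih.sh 1).left (XX e (n + 1)) cX1
    have hy := naty e (f := XX e n) (n := n + 1) (m := n + 1) (NATX.cnt_XX e n _ le_rfl)
    have cYn := cnt_YY e (n + 1) (n + 1 + 1) le_rfl
    have cD : cnt (n + 1 + 1) (sh 1 (Dl e n)) = some (n + 1 + 1) := by
      have h0 : cnt (n + 1) (Dl e n) = some (n + 1) := cnt_widen 1 _ _ _ (cnt_Dl e n)
      rw [cnt_sh, h0]
      rfl
    have s2 := hy.symm.right (sh 1 (Dl e n)) (by
      have k1 : cnt (n + 1 + 1) (sh 1 (XX e n)) = some (n + 1 + 1) := by
        rw [cnt_sh, NATX.cnt_XX e n _ le_rfl]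
        rfl
      rw [List.append_assoc, cnt_app k1, cnt_app cYn, cD]
      simp)
    have e1 : XX e (n + 1) ++ sh 1 (YY e n ++ Dl e n) =
        sh 1 (XX e n) ++ YY e (n + 1) ++ sh 1 (Dl e n) := by
      rw [XX_snoc, sh_append, YY]
      simp
    have e2 : YY e (n + 1) ++ XX e n ++ sh 1 (Dl e n) = YY e (n + 1) ++ Dl e (n + 1) := by
      rw [Dl, List.append_assoc]
    have e3 : Dl e (n + 1 + 1) = XX e (n + 1) ++ sh 1 (Dl e (n + 1)) := rfl
    rw [e1] at s1
    rw [e2] at s2
    rw [e3]
    exact s1.trans s2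

theorem nh_base (e : Bool) (k : Kind) :
    EqD k.ins ([(k, 0)] ++ Dl e k.outs) (Dl e k.ins ++ [(k, 0)]) := by
  cases k with
  | cup =>
    cases e
    · exact EqD.of_chk [(0, false, .u1 0 false)] rfl
    · exact EqD.of_chk [(0, false, .u1 0 true)] rfl
  | cap =>
    cases e
    · exact EqD.of_chk [(0, true, .a1 0 false)] rfl
    · exact EqD.of_chk [(0, true, .a1 0 true)] rfl
  | crs c =>
    cases e <;> cases c
    · exact EqD.refl _
    · exact EqD.of_chk [(0, false, .r2 0 true), (0, true, .r2 0 false)] rfl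
    · exact EqD.of_chk [(0, false, .r2 0 false), (0, true, .r2 0 true)] rfl
    · exact EqD.refl _

theorem nh_zero (e : Bool) (k : Kind) : ∀ i : ℕ,
    EqD (i + k.ins) ([(k, i)] ++ Dl e (i + k.outs)) (Dl e (i + k.ins) ++ [(k, 0)]) := by
  intro i
  induction i with
  | zero =>
    have h := nh_base e k
    rw [show 0 + k.ins = k.ins by omega, show 0 + k.outs = k.outs by omega]
    exact h
  | succ i ih =>
    have e1 : i + 1 + k.ins = i + k.ins + 1 := by omega
    have e2 : i + 1 + k.outs = i + k.outs + 1 := by omega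
    rw [e1, e2]
    have c1 : cnt (i + k.ins + 1) [(k, i + 1)] = some (i + k.outs + 1) := by
      rw [cnt_one (by omega)]
      congr 1
      omega
    have c0 : cnt (i + k.ins) [(k, i)] = some (i + k.outs) := by
      rw [cnt_one (by omega)]
      congr 1
      omega
    have cD : cnt (i + k.outs + 1) (Dl e (i + k.outs)) = some (i + k.outs + 1) :=
      cnt_widen 1 _ _ _ (cnt_Dl e _)
    have cD' : cnt (i + k.ins + 1) (Dl e (i + k.ins)) = some (i + k.ins + 1) :=
      cnt_widen 1 _ _ _ (cnt_Dl e _)
    have s1 := (Dl_first e (i + k.outs)).left [(k, i + 1)] c1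
    have s2 := (naty e c0).symm.right (Dl e (i + k.outs)) (by
      rw [sh_cons, sh_nil, List.append_assoc, cnt_app c1,
        cnt_app (cnt_YY e _ _ le_rfl), cD]
      simp)
    have s3 := (ih.widen 1).left (YY e (i + k.ins)) (cnt_YY e _ _ le_rfl)
    have s4 := (Dl_first e (i + k.ins)).symm.right [(k, 0)] (by
      rw [List.append_assoc, cnt_app (cnt_YY e _ _ le_rfl), cnt_app cD',
        cnt_one (by omega)]
      simp)
    simp only [sh_cons, sh_nil, List.append_assoc, List.cons_append, List.nil_append] at s1 s2 s3 s4 ⊢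
    exact ((s1.trans s2).trans s3).trans s4

theorem nh_slice (e : Bool) (k : Kind) (i : ℕ) : ∀ r : ℕ,
    EqD (i + k.ins + r) ([(k, i)] ++ Dl e (i + k.outs + r)) (Dl e (i + k.ins + r) ++ [(k, r)]) := by
  intro r
  induction r with
  | zero => exact nh_zero e k i
  | succ r ih =>
    have e1 : i + k.ins + (r + 1) = i + k.ins + r + 1 := by omega
    have e2 : i + k.outs + (r + 1) = i + k.outs + r + 1 := by omega
    have cD : cnt (i + k.outs + r + 1) (sh 1 (Dl e (i + k.outs + r))) =
        some (i + k.outs + r + 1) := by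
      rw [cnt_sh, cnt_Dl]
      rfl
    have c1 : cnt (i + k.ins + r + 1) [(k, i)] = some (i + k.outs + r + 1) := by
      rw [cnt_one (by omega)]
      congr 1
      omega
    have s1 := (NATX.slice e k i r).right (sh 1 (Dl e (i + k.outs + r))) (by
      rw [show ((k, i) :: XX e (i + k.outs + r) : Diag) = [(k, i)] ++ XX e (i + k.outs + r) from rfl,
        List.append_assoc, cnt_app c1, cnt_app (NATX.cnt_XX e _ _ le_rfl), cD]
      simp)
    have s2 := (ih.sh 1).left (XX e (i + k.ins + r)) (NATX.cnt_XX e _ _ le_rfl)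
    rw [e1, e2, Dl, Dl]
    rw [sh_append, sh_append] at s2
    simp only [sh_cons, sh_nil, List.append_assoc, List.cons_append, List.nil_append] at s1 s2 ⊢
    exact s1.trans s2

/-- A diagram passes through half twists. -/
theorem nh_word (e : Bool) : ∀ (w : Diag) {a b : ℕ}, cnt a w = some b →
    EqD a (w ++ Dl e b) (Dl e a ++ hD a w) := by
  intro w
  induction w with
  | nil =>
    intro a b h
    simp only [cnt, Option.some.injEq] at h
    subst h
    simp only [hD, List.nil_append, List.append_nil]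
    exact EqD.refl _
  | cons p w ih =>
    obtain ⟨k, i⟩ := p
    intro a b h
    obtain ⟨h1, h2⟩ := cnt_cons_some h
    have hw := ih h2
    obtain ⟨r, rfl⟩ := Nat.exists_eq_add_of_le h1
    have e1 : i + k.ins + r - k.ins + k.outs = i + k.outs + r := by omega
    rw [e1] at h2 hw
    have c1 : cnt (i + k.ins + r) [(k, i)] = some (i + k.outs + r) := by
      rw [cnt_one (by omega)]
      congr 1
    have s1 := hw.left [(k, i)] c1
    have s2 := (nh_slice e k i r).right (hD (i + k.outs + r) w) (by
      rw [List.append_assoc, cnt_app c1, cnt_app (cnt_Dl e _), cnt_hD w h2]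
      simp)
    have e2 : hD (i + k.ins + r) ((k, i) :: w) = (k, r) :: hD (i + k.outs + r) w := by
      rw [hD, e1]
      congr 2
      omega
    rw [e2]
    simp only [List.append_assoc, List.cons_append, List.nil_append] at s1 s2 ⊢
    exact s1.trans s2

/-! ### The reverse of an arc -/

/-- The long strand enters an arc from the other side. -/
theorem arc_left (e : Bool) {G : Diag} (hG : cnt 0 G = some 2) :
    EqD 1 (G ++ ([(.crs e, 0), (.cap, 1)] : List (Kind × ℕ))) (sh 1 G ++ ([(.cap, 0)] : List (Kind × ℕ))) := by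
  have hn := natx (!e) G 0 2 hG
  have c1 : cnt 1 G = some 3 := cnt_widen 1 _ _ _ hG
  have cS : cnt 1 (sh 1 G) = some 3 := by
    rw [show (1 : ℕ) = 0 + 1 from rfl, cnt_sh, hG]
    rfl
  have h : EqD 3 (XX (!e) 2 ++ ([(.cap, 0)] : List (Kind × ℕ))) ([(.crs e, 0), (.cap, 1)] : List (Kind × ℕ)) := by
    cases e
    · exact EqD.of_chk [(1, false, .a1 0 true), (0, false, .sa 0 true)] rfl
    · exact EqD.of_chk [(1, false, .a1 0 false), (0, false, .sa 0 false)] rfl
  have s1 := h.left G c1
  have s2 := hn.right ([(.cap, 0)] : List (Kind × ℕ)) (by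
    rw [List.append_assoc, cnt_app c1, cnt_app (NATX.cnt_XX (!e) 2 3 le_rfl)]
    decide)
  have e1 : XX (!e) 0 ++ sh 1 G ++ ([((.cap : Kind), 0)] : List (Kind × ℕ)) = sh 1 G ++ ([(.cap, 0)] : List (Kind × ℕ)) := rfl
  rw [e1] at s2
  rw [List.append_assoc] at s2
  exact s1.symm.trans s2

/-- **The reverse of a long knot given by an arc.** -/
theorem arc_rev {G : Diag} (hG : cnt 0 G = some 2) :
    EqD 1 (flipD (G ++ ([(.cap, 1)] : List (Kind × ℕ)))) (sh 1 G ++ ([(.cap, 0)] : List (Kind × ℕ))) := by
  have h1 := nh_word true G hG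
  have e0 : Dl true 0 ++ hD 0 G = hD 0 G := rfl
  have e2 : Dl true 2 = ([(.crs true, 0)] : List (Kind × ℕ)) := rfl
  rw [e0, e2] at h1
  have h2 := np_word (hD 0 G) (cnt_hD G hG)
  rw [pD_hD G (by rw [hG]; simp)] at h2
  have e3 : NC 2 = ([(.cap, 1), (.cap, 0)] : List (Kind × ℕ)) := rfl
  have e4 : sh 0 (flipD G) ++ NC 0 = flipD G := by
    rw [sh_zero]
    exact List.append_nil _
  rw [e3, e4] at h2
  have h1' : EqD 2 (G ++ ([(.crs true, 0)] : List (Kind × ℕ))) (hD 0 G) := h1.widen 2
  have cG2 : cnt 2 G = some 4 := cnt_widen 2 _ _ _ hG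
  have cG1 : cnt 1 G = some 3 := cnt_widen 1 _ _ _ hG
  have cG3 : cnt 3 G = some 5 := cnt_widen 3 _ _ _ hG
  have h3 := h1'.right ([(.cap, 1), (.cap, 0)] : List (Kind × ℕ)) (by
    rw [List.append_assoc, cnt_app cG2]
    decide)
  have h4 : EqD 2 (flipD G) (G ++ ([(.crs true, 0)] : List (Kind × ℕ)) ++ ([(.cap, 1), (.cap, 0)] : List (Kind × ℕ))) :=
    (h3.trans h2).symm
  have c1 : cnt 1 ([((.cup : Kind), 1)] : List (Kind × ℕ)) = some 3 := rfl
  have s1 := (h4.widen 1).left ([(.cup, 1)] : List (Kind × ℕ)) c1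
  have hf : EqD 1 (G ++ ([(.cup, 3)] : List (Kind × ℕ))) (([(.cup, 1)] : List (Kind × ℕ)) ++ G) := by
    have := far_words G ([(.cup, 1)] : List (Kind × ℕ)) 0 2 1 hG (by decide)
    rw [sh_zero] at this
    exact this
  have s2 := hf.symm.right (([(.crs true, 0)] : List (Kind × ℕ)) ++ ([(.cap, 1), (.cap, 0)] : List (Kind × ℕ))) (by
    rw [List.append_assoc, cnt_app c1, cnt_app cG3]
    decide)
  have h5 : EqD 3 (([(.cup, 3)] : List (Kind × ℕ)) ++ (([(.crs true, 0)] : List (Kind × ℕ)) ++ ([(.cap, 1), (.cap, 0)] : List (Kind × ℕ))))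
      ([(.crs true, 0), (.cap, 1)] : List (Kind × ℕ)) :=
    EqD.of_chk [(0, true, .far (.crs true) .cup 0 1), (1, true, .far .cap .cup 1 0),
      (2, false, .zg 0)] rfl
  have s3 := h5.left G cG1
  have s4 := arc_left true hG
  rw [flipD_append]
  have e5 : flipD ([((.cap : Kind), 1)] : List (Kind × ℕ)) = ([(.cup, 1)] : List (Kind × ℕ)) := rfl
  rw [e5]
  simp only [List.append_assoc] at s1 s2 s3 s4 ⊢
  exact ((s1.trans s2).trans s3).trans s4

end Pool.Agent.Mont
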