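import Pool.Agent.Mont.Rot

/-!
Long Montesinos diagrams with a tangle through which no strand runs from bottom to top: they are
equivalent to their reverses.
-/

namespace Pool.Agent.Mont

open Pool.Agent.LibH11 Pool.Agent.LibH11.Sliced Pool.Agent.TB Pool.Agent.TwoBr Pool.Agent.TS

/-- The diagram moves around the closure. -/
def P4 (g : Diag) : Prop :=
  cnt 4 g = some 4 ∧ ∀ w : Diag, cnt 4 w = some 4 → EqD 1 (L4 (g ++ w)) (L4 (w ++ g))

theorem P4.nil : P4 [] := by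
  refine ⟨rfl, fun w _ => ?_⟩
  rw [List.nil_append, List.append_nil]
  exact EqD.refl _

theorem P4.append {g g' : Diag} (h : P4 g) (h' : P4 g') : P4 (g ++ g') := by
  obtain ⟨c, k⟩ := h
  obtain ⟨c', k'⟩ := h'
  refine ⟨by rw [cnt_app c, c'], fun w hw => ?_⟩
  have s1 := k (g' ++ w) (by rw [cnt_app c', hw])
  have s2 := k' (w ++ g) (by rw [cnt_app hw, c])
  simp only [List.append_assoc] at s1 s2 ⊢
  exact s1.trans s2

theorem P4.congr {g g' : Diag} (h : P4 g) (he : EqD 4 g g') : P4 g' := by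
  obtain ⟨c, k⟩ := h
  have c' : cnt 4 g' = some 4 := by rw [← he.cnt_eq]; exact c
  refine ⟨c', fun w hw => ?_⟩
  have cw : cnt 7 w = some 7 := cnt_widen 3 _ _ _ hw
  have cg : cnt 7 g = some 7 := cnt_widen 3 _ _ _ c
  have h7 : EqD 7 g g' := he.widen 3
  have s1 := L4_congr (h7.right w (by rw [cnt_app cg, cw]; simp)) (by rw [cnt_app cg, cw])
  have s2 := L4_congr (h7.left w cw) (by rw [cnt_app cw, cg])
  exact (s1.symm.trans (k w hw)).trans s2

theorem P4.crs1 (e : Bool) : P4 ([(.crs e, 1)] : List (Kind × ℕ)) := ⟨rfl, fun _ hw => L4_crs e hw⟩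

theorem P4.full (e : Bool) : P4 ([(.crs e, 0), (.crs e, 0)] : List (Kind × ℕ)) := ⟨rfl, fun _ hw => L4_full e hw⟩

/-- a crossing of the last two strands moves to the other end -/
theorem L4_crs2 (e : Bool) {w : Diag} (hw : cnt 4 w = some 4) :
    EqD 1 (L4 (([(.crs e, 2)] : List (Kind × ℕ)) ++ w)) (L4 (w ++ ([(.crs e, 2)] : List (Kind × ℕ)))) := by
  have cw : cnt 7 w = some 7 := cnt_widen 3 _ _ _ hw
  have hb : EqD 1 (([(.cup, 1), (.cup, 2), (.cup, 3)] : List (Kind × ℕ)) ++ ([(.crs e, 2)] : List (Kind × ℕ)))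
      (([(.cup, 1), (.cup, 2), (.cup, 3)] : List (Kind × ℕ)) ++ ([(.crs e, 4)] : List (Kind × ℕ))) := by
    cases e
    · exact EqD.of_chk [(2, true, .su 2 true), (1, true, .far .cup .cup 2 0),
        (2, true, .su 3 false)] rfl
    · exact EqD.of_chk [(2, true, .su 2 false), (1, true, .far .cup .cup 2 0),
        (2, true, .su 3 true)] rfl
  have ht : EqD 7 (([(.crs e, 4)] : List (Kind × ℕ)) ++ ([(.cap, 3), (.cap, 2), (.cap, 1)] : List (Kind × ℕ)))
      (([(.crs e, 2)] : List (Kind × ℕ)) ++ ([(.cap, 3), (.cap, 2), (.cap, 1)] : List (Kind × ℕ))) := by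
    cases e
    · exact EqD.of_chk [(0, false, .sa 3 false), (1, true, .far .cap .cap 2 0),
        (0, false, .sa 2 true)] rfl
    · exact EqD.of_chk [(0, false, .sa 3 true), (1, true, .far .cap .cap 2 0),
        (0, false, .sa 2 false)] rfl
  have hf : EqD 7 (w ++ ([(.crs e, 4)] : List (Kind × ℕ))) (([(.crs e, 4)] : List (Kind × ℕ)) ++ w) :=
    far_words w ([(.crs e, 0)] : List (Kind × ℕ)) 4 4 3 hw (by simp [cnt, Kind.ins, Kind.outs])
  have c1 : cnt 1 ([((.cup : Kind), 1), (.cup, 2), (.cup, 3)] : List (Kind × ℕ)) = some 7 := rfl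
  have c5 : cnt 7 ([(Kind.crs e, 4)] : List (Kind × ℕ)) = some 7 := rfl
  have s1 := hb.right (w ++ ([(.cap, 3), (.cap, 2), (.cap, 1)] : List (Kind × ℕ))) (by
    rw [cnt_app (show cnt 1 (([(.cup, 1), (.cup, 2), (.cup, 3)] : List (Kind × ℕ)) ++ ([(Kind.crs e, 2)] : List (Kind × ℕ))) = some 7 from rfl),
      cnt_app cw]
    decide)
  have s2 := hf.symm.ctx ([((.cup : Kind), 1), (.cup, 2), (.cup, 3)] : List (Kind × ℕ)) ([(.cap, 3), (.cap, 2), (.cap, 1)] : List (Kind × ℕ)) c1 (by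
    rw [List.append_assoc, cnt_app c1, List.append_assoc, cnt_app c5, cnt_app cw]
    decide)
  have s3 := ht.left (([((.cup : Kind), 1), (.cup, 2), (.cup, 3)] : List (Kind × ℕ)) ++ w) (N := 1) (by
    rw [cnt_app c1, cw])
  unfold L4
  simp only [List.append_assoc] at s1 s2 s3 ⊢
  exact (s1.trans s2).trans s3

theorem P4.crs2 (e : Bool) : P4 ([(.crs e, 2)] : List (Kind × ℕ)) := ⟨rfl, fun _ hw => L4_crs2 e hw⟩

theorem P4.rep {c : Kind × ℕ} (h : P4 [c]) : ∀ k : ℕ, P4 (List.replicate k c) := by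
  intro k
  induction k with
  | zero => exact P4.nil
  | succ k ih => exact h.append ih

theorem P4.rep2 {c : Kind × ℕ} (h : P4 [c, c]) : ∀ k : ℕ, P4 (List.replicate (2 * k) c) := by
  intro k
  induction k with
  | zero => exact P4.nil
  | succ k ih =>
    have e1 : List.replicate (2 * (k + 1)) c = [c, c] ++ List.replicate (2 * k) c := by
      rw [show 2 * (k + 1) = 2 * k + 1 + 1 by ring, List.replicate_succ, List.replicate_succ]
      rfl
    rw [e1]
    exact h.append ih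

theorem P4.tw0 (a : ℤ) : P4 (tw 0 a) := P4.rep2 (P4.full _) _

theorem P4.tw1 (a : ℤ) : P4 (tw 1 a) := P4.rep (P4.crs1 _) _

theorem P4.tw2 (a : ℤ) : P4 (tw 2 a) := P4.rep (P4.crs2 _) _

theorem sh_tw (p : ℕ) (a : ℤ) : sh 1 (tw p a) = tw (p + 1) a := by
  simp [tw, sh]

theorem P4.V : ∀ (x : List ℤ) (p : ℕ), p ≤ 1 → P4 (sh 1 (twd p x)) := by
  intro x
  induction x with
  | nil => intro p _; exact P4.nil
  | cons a x ih =>
    intro p hp
    rw [twd, sh_append, sh_tw]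
    refine P4.append ?_ (ih (1 - p) (by omega))
    interval_cases p
    · exact P4.tw1 a
    · exact P4.tw2 a

/-- the conjugate by the first crossing moves around the closure -/
def Q4 (g : Diag) : Prop := cnt 4 g = some 4 ∧ P4 (([(.crs true, 0)] : List (Kind × ℕ)) ++ g ++ ([(.crs false, 0)] : List (Kind × ℕ)))

theorem c4 (e : Bool) : cnt 4 ([(Kind.crs e, 0)] : List (Kind × ℕ)) = some 4 := rfl

theorem r2_ft (N : ℕ) (h : 2 ≤ N) : EqD N (([(.crs false, 0)] : List (Kind × ℕ)) ++ ([(.crs true, 0)] : List (Kind × ℕ))) [] := by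
  have hm := Move.r2 0 false
  refine EqD.move hm ?_ (Option.some_ne_none N)
  have a1 : cnt N ([(Kind.crs false, 0)] : List (Kind × ℕ)) = some N := by
    show (if 0 + 2 ≤ N then some (N - 2 + 2) else none) = some N
    rw [if_pos (by omega), Nat.sub_add_cancel h]
  have a2 : cnt N ([(Kind.crs true, 0)] : List (Kind × ℕ)) = some N := by
    show (if 0 + 2 ≤ N then some (N - 2 + 2) else none) = some N
    rw [if_pos (by omega), Nat.sub_add_cancel h]
  rw [cnt_append]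
  simp only [a1, a2, Option.bind_some]
  exact Option.some_ne_none N

theorem r2_tf (N : ℕ) (h : 2 ≤ N) : EqD N (([(.crs true, 0)] : List (Kind × ℕ)) ++ ([(.crs false, 0)] : List (Kind × ℕ))) [] := by
  have hm := Move.r2 0 true
  refine EqD.move hm ?_ (Option.some_ne_none N)
  have a1 : cnt N ([(Kind.crs false, 0)] : List (Kind × ℕ)) = some N := by
    show (if 0 + 2 ≤ N then some (N - 2 + 2) else none) = some N
    rw [if_pos (by omega), Nat.sub_add_cancel h]
  have a2 : cnt N ([(Kind.crs true, 0)] : List (Kind × ℕ)) = some N := by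
    show (if 0 + 2 ≤ N then some (N - 2 + 2) else none) = some N
    rw [if_pos (by omega), Nat.sub_add_cancel h]
  rw [cnt_append]
  simp only [a1, a2, Option.bind_some]
  exact Option.some_ne_none N

theorem Q4.append {g g' : Diag} (h : Q4 g) (h' : Q4 g') : Q4 (g ++ g') := by
  obtain ⟨c, k⟩ := h
  obtain ⟨c', k'⟩ := h'
  refine ⟨by rw [cnt_app c, c'], (k.append k').congr ?_⟩
  have s := (r2_ft 4 (by omega)).ctx (([(.crs true, 0)] : List (Kind × ℕ)) ++ g) (g' ++ ([(.crs false, 0)] : List (Kind × ℕ))) (N := 4) (by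
    rw [cnt_app (c4 _), c]) (by
    rw [List.append_assoc, List.append_assoc, cnt_app (c4 _), cnt_app c, List.append_assoc,
      cnt_app (c4 _), cnt_app (c4 _), cnt_app c', c4]
    simp)
  simp only [List.append_assoc, List.nil_append] at s ⊢
  exact s

theorem Q4.tw2 (a : ℤ) : Q4 (tw 2 a) := by
  have c2 : cnt 4 (tw 2 a) = some 4 := (P4.tw2 a).1
  refine ⟨c2, (P4.tw2 a).congr ?_⟩
  have hv : cnt 2 (tw 0 a) = some 2 := cnt_twN a 0 (by omega)
  have hf := far_words ([(.crs true, 0)] : List (Kind × ℕ)) (tw 0 a) 2 2 2 rfl (by rw [hv]; simp)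
  have e1 : sh 2 (tw 0 a) = tw 2 a := by simp [tw, sh]
  rw [e1] at hf
  have s1 := hf.right ([(.crs false, 0)] : List (Kind × ℕ)) (by
    rw [List.append_assoc, cnt_app (c4 _), cnt_app c2, c4]
    simp)
  have s2 := (r2_tf 4 (by omega)).left (tw 2 a) c2
  simp only [List.append_assoc, List.append_nil] at s1 s2 ⊢
  exact (s1.trans s2).symm

theorem conj_pow {G : Type*} [Group G] {x y : G} (h : x * y * x = y * x * y) (k : ℤ) :
    x * y ^ k * x⁻¹ = y⁻¹ * x ^ k * y := by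
  have h1 : x * y * x⁻¹ = y⁻¹ * x * y := by
    have : y * (x * y * x⁻¹) * x = y * (y⁻¹ * x * y) * x := by
      calc y * (x * y * x⁻¹) * x = y * x * y := by group
        _ = x * y * x := h.symm
        _ = _ := by group
    exact mul_left_cancel (mul_right_cancel this)
  rw [← conj_zpow, h1]
  have := conj_zpow (i := k) (a := y⁻¹) (b := x)
  rw [inv_inv] at this
  exact this

theorem Q4.tw1 (a : ℤ) : Q4 (tw 1 a) := by
  refine ⟨(P4.tw1 a).1, (((P4.crs1 false).append (P4.tw0 a)).append (P4.crs1 true)).congr ?_⟩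
  have hw : wd ([((1 : Fin 2), false)] ++ wordOf 0 [a] ++ [(1, true)]) =
      wd ([((0 : Fin 2), true)] ++ wordOf 1 [a] ++ [(0, false)]) := by
    have e1 : wd (wordOf 0 [a]) = (sg 0 : Br 2) ^ (2 * a) := by
      have := W_cons 0 a []
      rw [W_nil, mul_one] at this
      exact this
    have e2 : wd (wordOf 1 [a]) = (sg 1 : Br 2) ^ (2 * a) := by
      have := W_cons 1 a []
      rw [W_nil, mul_one] at this
      exact this
    rw [wd_append, wd_append, wd_append, wd_append, e1, e2]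
    have e3 : wd [((1 : Fin 2), false)] = (sg 1)⁻¹ := by simp [wd]
    have e4 : wd [((1 : Fin 2), true)] = sg 1 := by simp [wd]
    have e5 : wd [((0 : Fin 2), true)] = sg 0 := by simp [wd]
    have e6 : wd [((0 : Fin 2), false)] = (sg 0)⁻¹ := by simp [wd]
    rw [e3, e4, e5, e6]
    exact (conj_pow (sg_braid (n := 2) 0 1 rfl) (2 * a)).symm
  have h := (bw_eqd hw).widen 1
  rw [bw_append, bw_append, bw_append, bw_append, bw_wordOf, bw_wordOf] at h
  have e7 : ∀ p : ℕ, twd p [a] = tw p a := fun p => List.append_nil _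
  have e8 : twd ((0 : Fin 2) : ℕ) [a] = tw 0 a := e7 0
  have e9 : twd ((1 : Fin 2) : ℕ) [a] = tw 1 a := e7 1
  rw [e8, e9] at h
  exact h

theorem Q4.V : ∀ (x : List ℤ) (p : ℕ), p ≤ 1 → Q4 (sh 1 (twd p x)) := by
  intro x
  induction x with
  | nil =>
    intro p _
    refine ⟨rfl, P4.nil.congr ?_⟩
    exact (r2_tf 4 (by omega)).symm
  | cons a x ih =>
    intro p hp
    rw [twd, sh_append, sh_tw]
    refine Q4.append ?_ (ih (1 - p) (by omega))
    interval_cases p
    · exact Q4.tw1 a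
    · exact Q4.tw2 a

/-- the minimum on the right moves to the other end -/
theorem L4_cup2 {w : Diag} (hw : cnt 4 w = some 2) :
    EqD 1 (Lc (([(.cup, 2)] : List (Kind × ℕ)) ++ w)) (L4 (w ++ ([(.cup, 2)] : List (Kind × ℕ)))) := by
  have cw5 : cnt 5 w = some 3 := cnt_widen 1 _ _ _ hw
  have cw : cnt 7 w = some 5 := cnt_widen 3 _ _ _ hw
  have ht : EqD 5 (([(.cup, 2)] : List (Kind × ℕ)) ++ ([(.cap, 3), (.cap, 2), (.cap, 1)] : List (Kind × ℕ))) (([(.cap, 2)] : List (Kind × ℕ)) ++ ([(.cap, 1)] : List (Kind × ℕ))) :=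
    EqD.of_chk [(0, false, .zz 2)] rfl
  have hb : EqD 1 (([(.cup, 1), (.cup, 2), (.cup, 3)] : List (Kind × ℕ)) ++ ([(.cap, 4)] : List (Kind × ℕ))) ([(.cup, 1), (.cup, 2)] : List (Kind × ℕ)) :=
    EqD.of_chk [(2, false, .zz 3)] rfl
  have hf : EqD 7 (w ++ ([(.cap, 2)] : List (Kind × ℕ))) (([(.cap, 4)] : List (Kind × ℕ)) ++ w) :=
    far_words w ([(.cap, 0)] : List (Kind × ℕ)) 4 2 3 hw (by decide)
  have c1 : cnt 1 ([((.cup : Kind), 1), (.cup, 2), (.cup, 3)] : List (Kind × ℕ)) = some 7 := rfl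
  have s1 := ht.left (([((.cup : Kind), 1), (.cup, 2), (.cup, 3)] : List (Kind × ℕ)) ++ w) (N := 1) (by
    rw [cnt_app c1, cw])
  have s2 := hf.ctx ([((.cup : Kind), 1), (.cup, 2), (.cup, 3)] : List (Kind × ℕ)) ([(.cap, 1)] : List (Kind × ℕ)) c1 (by
    rw [List.append_assoc, cnt_app c1, List.append_assoc, cnt_app cw]
    decide)
  have s3 := hb.right (w ++ ([(.cap, 1)] : List (Kind × ℕ))) (by
    rw [List.append_assoc, cnt_app c1, cnt_app (show cnt 7 ([((.cap : Kind), 4)] : List (Kind × ℕ)) = some 5 from rfl),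
      cnt_app cw5]
    decide)
  unfold L4 Lc
  simp only [List.append_assoc, List.cons_append, List.nil_append] at s1 s2 s3 ⊢
  exact ((s1.trans s2).trans s3).symm

/-- the arc of a diagram from two to four strands -/
def Ga (w : Diag) : Diag := ([(.cup, 0), (.cup, 1)] : List (Kind × ℕ)) ++ w ++ ([(.cap, 3), (.cap, 2)] : List (Kind × ℕ))

theorem cnt_Ga {w : Diag} (hw : cnt 2 w = some 4) : cnt 0 (Ga w) = some 2 := by
  have cw : cnt 4 w = some 6 := cnt_widen 2 _ _ _ hw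
  rw [Ga, List.append_assoc, cnt_app (show cnt 0 ([((.cup : Kind), 0), (.cup, 1)] : List (Kind × ℕ)) = some 4 from rfl),
    cnt_app cw]
  rfl

/-- the long strand turns back at once -/
theorem L4_turn {w : Diag} (hw : cnt 2 w = some 4) :
    EqD 1 (L4 (([(.cap, 0)] : List (Kind × ℕ)) ++ w)) (Ga w ++ ([(.cap, 1)] : List (Kind × ℕ))) := by
  have cw5 : cnt 5 w = some 7 := cnt_widen 3 _ _ _ hw
  have hb : EqD 1 (([(.cup, 1), (.cup, 2), (.cup, 3)] : List (Kind × ℕ)) ++ ([(.cap, 0)] : List (Kind × ℕ))) ([(.cup, 0), (.cup, 1)] : List (Kind × ℕ)) :=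
    EqD.of_chk [(2, true, .far .cap .cup 0 1), (1, true, .far .cap .cup 0 0), (0, false, .zg 0)] rfl
  have s1 := hb.right (w ++ ([(.cap, 3), (.cap, 2), (.cap, 1)] : List (Kind × ℕ))) (by
    rw [List.append_assoc,
      cnt_app (show cnt 1 ([((.cup : Kind), 1), (.cup, 2), (.cup, 3)] : List (Kind × ℕ)) = some 7 from rfl),
      cnt_app (show cnt 7 ([((.cap : Kind), 0)] : List (Kind × ℕ)) = some 5 from rfl), cnt_app cw5]
    decide)
  unfold L4 Ga
  simp only [List.append_assoc, List.cons_append, List.nil_append] at s1 ⊢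
  exact s1

/-- the rotated form of a tangle with flag `true` -/
def Xr (x : List ℤ) : Diag := ([(.cup, 2)] : List (Kind × ℕ)) ++ (sh 1 (twd 0 x) ++ ([(.cap, 0)] : List (Kind × ℕ)))

theorem cnt_Xr (x : List ℤ) : cnt 2 (Xr x) = some 2 := by
  rw [Xr, cnt_app (show cnt 2 ([((.cup : Kind), 2)] : List (Kind × ℕ)) = some 4 from rfl), cnt_app (P4.V x 0 (by omega)).1]
  rfl

/-- the word of the diagram after the turn of the long strand -/
def Wr (x : List ℤ) (Z : Diag) : Diag := Z ++ (([(.cup, 2)] : List (Kind × ℕ)) ++ sh 1 (twd 0 x))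

theorem cnt_Wr (x : List ℤ) {Z : Diag} (hZ : cnt 2 Z = some 2) : cnt 2 (Wr x Z) = some 4 := by
  rw [Wr, cnt_app hZ, cnt_app (show cnt 2 ([((.cup : Kind), 2)] : List (Kind × ℕ)) = some 4 from rfl)]
  exact (P4.V x 0 (by omega)).1

theorem partC' (x : List ℤ) {Z : Diag} (hZ : cnt 2 Z = some 2) :
    EqD 1 (Lc (Xr x ++ Z)) (Ga (Wr x Z) ++ ([(.cap, 1)] : List (Kind × ℕ))) := by
  have cV := (P4.V x 0 (by omega)).1
  have ca : cnt 4 ([((.cap : Kind), 0)] : List (Kind × ℕ)) = some 2 := rfl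
  have cu : cnt 2 ([((.cup : Kind), 2)] : List (Kind × ℕ)) = some 4 := rfl
  have h1 := L4_cup2 (w := sh 1 (twd 0 x) ++ (([(.cap, 0)] : List (Kind × ℕ)) ++ Z)) (by
    rw [cnt_app cV, cnt_app ca, hZ])
  have h2 := (P4.V x 0 (by omega)).2 (([(.cap, 0)] : List (Kind × ℕ)) ++ (Z ++ ([(.cup, 2)] : List (Kind × ℕ)))) (by
    rw [cnt_app ca, cnt_app hZ, cu])
  have h3 := L4_turn (cnt_Wr x hZ)
  unfold Xr
  unfold Wr at h3 ⊢
  simp only [List.append_assoc] at h1 h2 h3 ⊢
  exact (h1.trans h2).trans h3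

theorem partB' (x : List ℤ) {Z : Diag} (hZ : cnt 2 Z = some 2) :
    EqD 1 (Lc (([(.crs true, 0)] : List (Kind × ℕ)) ++ (Xr x ++ Z) ++ ([(.crs false, 0)] : List (Kind × ℕ))))
      (sh 1 (Ga (Wr x Z)) ++ ([(.cap, 0)] : List (Kind × ℕ))) := by
  have cV := (P4.V x 0 (by omega)).1
  have cV7 : cnt 7 (sh 1 (twd 0 x)) = some 7 := cnt_widen 3 _ _ _ cV
  have cV6 : cnt 6 (sh 1 (twd 0 x)) = some 6 := cnt_widen 2 _ _ _ cV
  have cZ5 : cnt 5 Z = some 5 := cnt_widen 3 _ _ _ hZ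
  have cZ4 : cnt 4 Z = some 4 := cnt_widen 2 _ _ _ hZ
  have ca : cnt 4 ([((.cap : Kind), 0)] : List (Kind × ℕ)) = some 2 := rfl
  have ca7 : cnt 7 ([((.cap : Kind), 0)] : List (Kind × ℕ)) = some 5 := rfl
  have cu : cnt 2 ([((.cup : Kind), 2)] : List (Kind × ℕ)) = some 4 := rfl
  have cu5 : cnt 5 ([((.cup : Kind), 2)] : List (Kind × ℕ)) = some 7 := rfl
  have cc : ∀ e N, 2 ≤ N → cnt N ([(Kind.crs e, 0)] : List (Kind × ℕ)) = some N := by
    intro e N hN
    rw [cnt_one (by simpa [Kind.ins] using hN)]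
    simp only [Kind.ins, Kind.outs]
    congr 1
    omega
  -- step 1: the crossing and the minimum
  have f1 : EqD 2 (([(.crs true, 0)] : List (Kind × ℕ)) ++ ([(.cup, 2)] : List (Kind × ℕ))) (([(.cup, 2)] : List (Kind × ℕ)) ++ ([(.crs true, 0)] : List (Kind × ℕ))) :=
    EqD.of_chk [(0, false, .far (.crs true) .cup 0 0)] rfl
  have t1 := f1.right (sh 1 (twd 0 x) ++ (([(.cap, 0)] : List (Kind × ℕ)) ++ (Z ++ ([(.crs false, 0)] : List (Kind × ℕ))))) (by
    rw [List.append_assoc, cnt_app (cc _ _ (by omega)), cnt_app cu, cnt_app cV, cnt_app ca,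
      cnt_app hZ, cc _ _ (by omega)]
    simp)
  have ct1 : cnt 2 (([(.crs true, 0)] : List (Kind × ℕ)) ++ ([(.cup, 2)] : List (Kind × ℕ)) ++
      (sh 1 (twd 0 x) ++ (([(.cap, 0)] : List (Kind × ℕ)) ++ (Z ++ ([(Kind.crs false, 0)] : List (Kind × ℕ)))))) = some 2 := by
    rw [List.append_assoc, cnt_app (cc _ _ (by omega)), cnt_app cu, cnt_app cV, cnt_app ca,
      cnt_app hZ, cc _ _ (by omega)]
  have s1 := close_eqd t1 ct1
  -- step 2: the minimum moves
  have s2 := L4_cup2 (w := ([(.crs true, 0)] : List (Kind × ℕ)) ++ (sh 1 (twd 0 x) ++ (([(.cap, 0)] : List (Kind × ℕ)) ++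
      (Z ++ ([(.crs false, 0)] : List (Kind × ℕ)))))) (by
    rw [cnt_app (cc _ _ (by omega)), cnt_app cV, cnt_app ca, cnt_app hZ, cc _ _ (by omega)])
  -- step 3: insert a pair of crossings
  have t3 := (r2_ft 7 (by omega)).symm.ctx (([(.crs true, 0)] : List (Kind × ℕ)) ++ sh 1 (twd 0 x))
    (([(.cap, 0)] : List (Kind × ℕ)) ++ (Z ++ (([(.crs false, 0)] : List (Kind × ℕ)) ++ ([(.cup, 2)] : List (Kind × ℕ))))) (N := 7) (by
      rw [cnt_app (cc _ _ (by omega)), cV7]) (by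
      rw [List.append_nil, List.append_assoc, cnt_app (cc _ _ (by omega)), cnt_app cV7,
        cnt_app ca7, cnt_app cZ5, cnt_app (cc _ _ (by omega)), cu5]
      simp)
  have s3 := L4_congr t3 (by
    rw [List.append_nil, List.append_assoc, cnt_app (cc _ _ (by omega)), cnt_app cV7,
        cnt_app ca7, cnt_app cZ5, cnt_app (cc _ _ (by omega)), cu5])
  -- step 4: the conjugate moves around
  have s4 := (Q4.V x 0 (by omega)).2.2 (([(.crs true, 0)] : List (Kind × ℕ)) ++ (([(.cap, 0)] : List (Kind × ℕ)) ++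
      (Z ++ (([(.crs false, 0)] : List (Kind × ℕ)) ++ ([(.cup, 2)] : List (Kind × ℕ)))))) (by
    rw [cnt_app (cc _ _ (by omega)), cnt_app ca, cnt_app hZ, cnt_app (cc _ _ (by omega)), cu])
  -- step 5: cancellations
  have f5 : EqD 7 (([(.crs true, 0)] : List (Kind × ℕ)) ++ ([(.cap, 0)] : List (Kind × ℕ))) ([(.cap, 0)] : List (Kind × ℕ)) :=
    EqD.of_chk [(0, false, .a1 0 true)] rfl
  have f6 : EqD 5 (([(.crs false, 0)] : List (Kind × ℕ)) ++ ([(.cup, 2)] : List (Kind × ℕ)) ++ ([(.crs true, 0)] : List (Kind × ℕ))) ([(.cup, 2)] : List (Kind × ℕ)) :=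
    EqD.of_chk [(0, false, .far (.crs false) .cup 0 0), (1, false, .r2 0 false)] rfl
  have t5 := f5.right (Z ++ (([(.crs false, 0)] : List (Kind × ℕ)) ++ (([(.cup, 2)] : List (Kind × ℕ)) ++ (([(.crs true, 0)] : List (Kind × ℕ)) ++
      (sh 1 (twd 0 x) ++ ([(.crs false, 0)] : List (Kind × ℕ))))))) (by
    rw [List.append_assoc, cnt_app (cc _ _ (by omega)), cnt_app ca7, cnt_app cZ5,
      cnt_app (cc _ _ (by omega)), cnt_app cu5, cnt_app (cc _ _ (by omega)), cnt_app cV7,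
      cc _ _ (by omega)]
    simp)
  have s5 := L4_congr t5 (by
    rw [List.append_assoc, cnt_app (cc _ _ (by omega)), cnt_app ca7, cnt_app cZ5,
      cnt_app (cc _ _ (by omega)), cnt_app cu5, cnt_app (cc _ _ (by omega)), cnt_app cV7,
      cc _ _ (by omega)])
  have t6 := f6.ctx (([(.cap, 0)] : List (Kind × ℕ)) ++ Z) (sh 1 (twd 0 x) ++ ([(.crs false, 0)] : List (Kind × ℕ))) (N := 7) (by
      rw [cnt_app ca7, cZ5]) (by
      rw [List.append_assoc, List.append_assoc, cnt_app ca7, cnt_app cZ5, List.append_assoc,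
        List.append_assoc, cnt_app (cc _ _ (by omega)), cnt_app cu5, cnt_app (cc _ _ (by omega)),
        cnt_app cV7, cc _ _ (by omega)]
      simp)
  have s6 := L4_congr t6 (by
      rw [List.append_assoc, List.append_assoc, cnt_app ca7, cnt_app cZ5, List.append_assoc,
        List.append_assoc, cnt_app (cc _ _ (by omega)), cnt_app cu5, cnt_app (cc _ _ (by omega)),
        cnt_app cV7, cc _ _ (by omega)])
  -- step 7: the turn
  have s7 := L4_turn (w := Wr x Z ++ ([(.crs false, 0)] : List (Kind × ℕ))) (by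
    rw [cnt_app (cnt_Wr x hZ), c4])
  -- step 8
  have cW4 : cnt 5 (Wr x Z) = some 7 := cnt_widen 3 _ _ _ (cnt_Wr x hZ)
  have f8 : EqD 7 (([(.crs false, 0)] : List (Kind × ℕ)) ++ ([(.cap, 3), (.cap, 2)] : List (Kind × ℕ))) (([(.cap, 3), (.cap, 2)] : List (Kind × ℕ)) ++ ([(.crs false, 0)] : List (Kind × ℕ))) :=
    EqD.of_chk [(0, false, .far (.crs false) .cap 0 1), (1, false, .far (.crs false) .cap 0 0)] rfl
  have s8 := f8.ctx (([(.cup, 0), (.cup, 1)] : List (Kind × ℕ)) ++ Wr x Z) ([(.cap, 1)] : List (Kind × ℕ)) (N := 1) (by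
    rw [cnt_app (show cnt 1 ([((.cup : Kind), 0), (.cup, 1)] : List (Kind × ℕ)) = some 5 from rfl), cW4]) (by
    rw [List.append_assoc, List.append_assoc,
      cnt_app (show cnt 1 ([((.cup : Kind), 0), (.cup, 1)] : List (Kind × ℕ)) = some 5 from rfl), cnt_app cW4]
    decide)
  have s9 := arc_left false (cnt_Ga (cnt_Wr x hZ))
  have e9 : Ga (Wr x Z) ++ ([(Kind.crs false, 0), (.cap, 1)] : List (Kind × ℕ)) =
      ([(.cup, 0), (.cup, 1)] : List (Kind × ℕ)) ++ Wr x Z ++ (([(.cap, 3), (.cap, 2)] : List (Kind × ℕ)) ++ ([(.crs false, 0)] : List (Kind × ℕ))) ++ ([(.cap, 1)] : List (Kind × ℕ)) := by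
    simp [Ga]
  rw [e9] at s9
  have e7 : Ga (Wr x Z ++ ([(Kind.crs false, 0)] : List (Kind × ℕ))) ++ ([(.cap, 1)] : List (Kind × ℕ)) =
      ([(.cup, 0), (.cup, 1)] : List (Kind × ℕ)) ++ Wr x Z ++ (([(.crs false, 0)] : List (Kind × ℕ)) ++ ([(.cap, 3), (.cap, 2)] : List (Kind × ℕ))) ++ ([(.cap, 1)] : List (Kind × ℕ)) := by
    simp [Ga]
  rw [e7] at s7
  have s789 := (s7.trans s8).trans s9
  refine EqD.trans ?_ s789
  unfold Xr Wr
  have e1 : ∀ Y : Diag, ((.cup, 1) :: (Y ++ ([(.cap, 1)] : List (Kind × ℕ))) : Diag) = Lc Y := fun _ => rfl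
  rw [e1, e1] at s1
  simp only [List.append_assoc, List.nil_append] at s1 s2 s3 s4 s5 s6 ⊢
  exact ((((s1.trans s2).trans s3).trans s4).trans s5).trans s6

/-- **Reversal**: the diagram is equivalent to itself turned upside down. -/
theorem rev_Xr (x : List ℤ) {Z : Diag} (hZ : cnt 2 Z = some 2)
    (hc : EqD 2 (([(.crs true, 0)] : List (Kind × ℕ)) ++ (Xr x ++ Z) ++ ([(.crs false, 0)] : List (Kind × ℕ))) (Xr x ++ Z)) :
    EqD 1 (Lc (Xr x ++ Z)) (flipD (Lc (Xr x ++ Z))) := by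
  have cX : cnt 2 (Xr x ++ Z) = some 2 := by rw [cnt_app (cnt_Xr x), hZ]
  have h1 := partC' x hZ
  have h2 := partB' x hZ
  have h3 := close_eqd hc (by rw [hc.cnt_eq]; exact cX)
  have cL : cnt 1 (Lc (Xr x ++ Z)) = some 1 := by
    have c3 : cnt 3 (Xr x ++ Z) = some 3 := cnt_widen 1 _ _ _ cX
    show cnt 3 ((Xr x ++ Z) ++ ([(.cap, 1)] : List (Kind × ℕ))) = some 1
    rw [cnt_app c3]
    rfl
  have h4 := EqD_flip h1 cL
  have h5 := arc_rev (cnt_Ga (cnt_Wr x hZ))
  exact ((h3.symm.trans h2).trans h5.symm).trans h4.symm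

end Pool.Agent.Mont
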