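import Pool.Agent.Mont.Rvs
import Pool.Agent.Mont.NF2

/-!
Montesinos knots with a tangle of even denominator are invertible.
-/

namespace Pool.Agent.Mont

open Pool.Agent.LibH11 Pool.Agent.LibH11.Sliced Pool.Agent.TB Pool.Agent.TwoBr

theorem fm_wordOf : ∀ (x : List ℤ) (p : Fin 2), fm (wordOf p x) = wordOf (p + 1) x := by
  intro x
  induction x with
  | nil => intro p; rfl
  | cons a l ih =>
    intro p
    rw [wordOf, wordOf]
    unfold fm at ih ⊢
    rw [List.map_append, ih, List.map_replicate]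

/-- the rotated form -/
theorem Tt_Xr (x : List ℤ) : EqD 2 (Tt (true, x)) (Xr x) := by
  have h1 := Tt_Tg 0 x
  have h2 := Tg_flip (W (0 + 1) x)
  have h3 := tgl_Tg ([(0, true), (1, true)] ++ wordOf (0 + 1) x)
  have e1 : wd ([((0 : Fin 2), true), (1, true)] ++ wordOf (0 + 1) x) =
      sg 0 * sg 1 * W (0 + 1) x := by
    rw [wd_append]
    have e2 : wd [((0 : Fin 2), true), (1, true)] = (sg 0 * sg 1 : Br 2) := by simp [wd]
    rw [e2]
    rfl
  rw [e1] at h3
  have h4 := tgl_rot ([(0, true), (1, true)] ++ wordOf (0 + 1) x)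
  have e3 : fm ([((0 : Fin 2), true), (1, true)] ++ wordOf (0 + 1) x) =
      [((1 : Fin 2), true), (0, true)] ++ wordOf 0 x := by
    have e4 := fm_wordOf x (0 + 1)
    unfold fm at e4 ⊢
    rw [List.map_append, e4]
    rfl
  rw [tglr, e3, bw_append, bw_wordOf] at h4
  have e5 : bw [((1 : Fin 2), true), (0, true)] = [(.crs true, 1), (.crs true, 0)] := rfl
  rw [e5] at h4
  have cV := (P4.V x 0 (by omega)).1
  have h5 : EqD 2 [(.cup, 1), (.crs true, 2), (.crs true, 1)] [(.cup, 2)] :=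
    EqD.of_chk [(0, false, .su 1 true), (1, false, .r2 1 false)] rfl
  have h6 := h5.right (sh 1 (twd 0 x) ++ [(.cap, 0)]) (by
    rw [cnt_app (show cnt 2 [((.cup : Kind), 1), (.crs true, 2), (.crs true, 1)] = some 4 from rfl),
      cnt_app cV]
    decide)
  have h7 : EqD 2 (Tt (fp 0, x)) (tgl ([(0, true), (1, true)] ++ wordOf (0 + 1) x)) :=
    (h1.trans h2.symm).trans h3.symm
  have h8 := h7.trans h4
  have e6 : ((.cup, 1) :: (sh 1 ([(Kind.crs true, 1), (.crs true, 0)] ++ twd ((0 : Fin 2) : ℕ) x) ++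
      [(.cap, 0)]) : Diag) = [(.cup, 1), (.crs true, 2), (.crs true, 1)] ++
      (sh 1 (twd 0 x) ++ [(.cap, 0)]) := by
    rw [sh_append]
    rfl
  rw [e6] at h8
  exact h8.trans h6

/-- A diagram whose first tangle has the flag `true` is equivalent to itself turned upside down. -/
theorem inv_first (x : List ℤ) (rest : List NT) (e : ℤ) :
    EqD 1 (mdiag ((true, x) :: rest) e) (flipD (mdiag ((true, x) :: rest) e)) := by
  set Z : Diag := (rest.map Tt).flatten ++ ht e with hZ
  have cZ : cnt 2 Z = some 2 := cnt_body rest e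
  have e1 : (((true, x) :: rest).map Tt).flatten ++ ht e = Tt (true, x) ++ Z := by
    rw [List.map_cons, List.flatten_cons, List.append_assoc]
  have cT : cnt 2 (Tt (true, x) ++ Z) = some 2 := by rw [cnt_app (cnt_Tt _), cZ]
  have h1 : EqD 2 (Tt (true, x) ++ Z) (Xr x ++ Z) := (Tt_Xr x).right Z (by rw [cT]; simp)
  have h2 : EqD 1 (mdiag ((true, x) :: rest) e) (Lc (Xr x ++ Z)) := by
    rw [mdiag_eq_Lc, e1]
    exact close_eqd h1 cT
  -- conjugation by a half twist
  have c1 : cnt 2 [(Kind.crs true, 0)] = some 2 := rfl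
  have c2 : cnt 2 [(Kind.crs false, 0)] = some 2 := rfl
  have cX : cnt 2 (Xr x ++ Z) = some 2 := by rw [cnt_app (cnt_Xr x), cZ]
  have hc : EqD 2 ([(.crs true, 0)] ++ (Xr x ++ Z) ++ [(.crs false, 0)]) (Xr x ++ Z) := by
    have k1 := h1.symm.ctx [(.crs true, 0)] [(.crs false, 0)] c1 (by
      rw [List.append_assoc, cnt_app c1, cnt_app cX, c2]
      simp)
    have k2 := (flat_ht ((true, x) :: rest) 1).right (ht e ++ ht (-1)) (by
      rw [List.append_assoc, cnt_app (cnt_ht 1), cnt_app (cnt_flat _), cnt_app (cnt_ht e), cnt_ht]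
      simp)
    have cF : cnt 2 ((((true, x) :: rest).map Tt).flatten) = some 2 := cnt_flat _
    have k3 := (ht_add e (-1)).left ((((true, x) :: rest).map Tt).flatten ++ ht 1) (show _ = some 2 by
      rw [cnt_app cF, cnt_ht])
    have k4 := (ht_add 1 (e + -1)).left ((((true, x) :: rest).map Tt).flatten) cF
    rw [show (1 : ℤ) + (e + -1) = e by ring] at k4
    have e2 : ht 1 = [(Kind.crs true, 0)] := rfl
    have e3 : ht (-1) = [(Kind.crs false, 0)] := rfl
    have e4 : [(Kind.crs true, 0)] ++ (Tt (true, x) ++ Z) ++ [(Kind.crs false, 0)] =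
        ht 1 ++ (((true, x) :: rest).map Tt).flatten ++ (ht e ++ ht (-1)) := by
      rw [← e1, e2, e3]
      simp only [List.append_assoc]
    rw [e4] at k1
    have k5 : EqD 2 ((((true, x) :: rest).map Tt).flatten ++ ht 1 ++ (ht e ++ ht (-1)))
        (Tt (true, x) ++ Z) := by
      rw [← e1]
      refine k3.trans ?_
      rw [List.append_assoc]
      exact k4
    exact ((k1.trans k2).trans k5).trans h1
  have h3 := rev_Xr x cZ hc
  have cm : cnt 1 (mdiag ((true, x) :: rest) e) = some 1 := by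
    rw [h2.cnt_eq, Lc]
    have c3 : cnt 3 (Xr x ++ Z) = some 3 := cnt_widen 1 _ _ _ cX
    show cnt 3 ((Xr x ++ Z) ++ [(.cap, 1)]) = some 1
    rw [cnt_app c3]
    rfl
  exact (h2.trans h3).trans (EqD_flip h2 cm).symm

/-- **Inversion**: the same for any position of the tangle. -/
theorem inv_mdiag {ts : List NT} {e : ℤ} (h : Nrm ts e) (hf : ∃ t ∈ ts, t.1 = true) :
    EqD 1 (mdiag ts e) (flipD (mdiag ts e)) := by
  obtain ⟨⟨f, x⟩, hm, hf⟩ := hf
  simp only at hf
  subst hf
  obtain ⟨l1, l2, rfl⟩ := List.append_of_mem hm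
  have h1 := cyc_mdiag l1 ((true, x) :: l2) e (flags_split h (List.Perm.refl _))
  have h2 := inv_first x (l2 ++ l1) e
  rw [← List.cons_append] at h2
  have c2 : cnt 1 (mdiag (l1 ++ (true, x) :: l2) e) = some 1 := by
    show cnt 3 (((l1 ++ (true, x) :: l2).map Tt).flatten ++ ht e ++ [(.cap, 1)]) = some 1
    rw [cnt_app (cnt_widen 1 _ _ _ (cnt_body _ e))]
    rfl
  exact (h1.trans h2).trans (EqD_flip h1 c2).symm

/-- Three tangles, one with the flag `true`: every order of the tangles gives the same knot. -/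
theorem three_mdiag' {ts ts' : List NT} {e : ℤ} (h : Nrm ts e) (h3 : ts.length = 3)
    (hp : ts.Perm ts') (hf : ∃ t ∈ ts, t.1 = true) : EqD 1 (mdiag ts e) (mdiag ts' e) := by
  rcases three_mdiag h h3 hp with h1 | h1
  · exact h1
  · exact (inv_mdiag h hf).trans h1

/-! ### Parity of the denominator -/

/-- the parity of a vector -/
def par2 (v : ℤ × ℤ) : Bool × Bool := (decide (v.1 % 2 = 1), decide (v.2 % 2 = 1))

theorem lact_two (p : Fin 2) (e : Bool) (v : ℤ × ℤ) :
    (lact (p, e) (lact (p, e) v)).1 % 2 = v.1 % 2 ∧ (lact (p, e) (lact (p, e) v)).2 % 2 = v.2 % 2 := by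
  obtain ⟨b, a⟩ := v
  fin_cases p <;> cases e <;> constructor
  · show (b + a + a) % 2 = b % 2; omega
  · rfl
  · show (b - a - a) % 2 = b % 2; omega
  · rfl
  · rfl
  · show (a - b - b) % 2 = a % 2; omega
  · rfl
  · show (a + b + b) % 2 = a % 2; omega

theorem lact_mod {v w : ℤ × ℤ} (h1 : v.1 % 2 = w.1 % 2) (h2 : v.2 % 2 = w.2 % 2)
    (p : Fin 2 × Bool) : (lact p v).1 % 2 = (lact p w).1 % 2 ∧ (lact p v).2 % 2 = (lact p w).2 % 2 := by
  obtain ⟨i, e⟩ := p
  obtain ⟨b, a⟩ := v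
  obtain ⟨d, c⟩ := w
  simp only at h1 h2
  fin_cases i <;> cases e <;> simp only [lact, Fin.zero_eta, Fin.mk_one] <;> omega

theorem tvec_mod (u : List (Fin 2 × Bool)) : ∀ {v w : ℤ × ℤ}, v.1 % 2 = w.1 % 2 →
    v.2 % 2 = w.2 % 2 → (tvec v u).1 % 2 = (tvec w u).1 % 2 ∧ (tvec v u).2 % 2 = (tvec w u).2 % 2 := by
  induction u with
  | nil => intro v w h1 h2; exact ⟨h1, h2⟩
  | cons p u ih =>
    intro v w h1 h2
    obtain ⟨k1, k2⟩ := lact_mod h1 h2 p
    exact ih k1 k2

theorem tvec_append (v : ℤ × ℤ) (u w : List (Fin 2 × Bool)) :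
    tvec v (u ++ w) = tvec (tvec v u) w := List.foldl_append

theorem tvec_rep_two (p : Fin 2) (e : Bool) : ∀ (n : ℕ) (v : ℤ × ℤ),
    (tvec v (List.replicate (2 * n) (p, e))).1 % 2 = v.1 % 2 ∧
      (tvec v (List.replicate (2 * n) (p, e))).2 % 2 = v.2 % 2 := by
  intro n
  induction n with
  | zero => intro v; exact ⟨rfl, rfl⟩
  | succ n ih =>
    intro v
    have e1 : List.replicate (2 * (n + 1)) (p, e) =
        (p, e) :: (p, e) :: List.replicate (2 * n) (p, e) := by
      rw [show 2 * (n + 1) = 2 * n + 1 + 1 by ring, List.replicate_succ, List.replicate_succ]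
    rw [e1]
    obtain ⟨k1, k2⟩ := ih (lact (p, e) (lact (p, e) v))
    obtain ⟨k3, k4⟩ := lact_two p e v
    exact ⟨k1.trans k3, k2.trans k4⟩

theorem tvec_wordOf_mod : ∀ (x : List ℤ) (p : Fin 2) (v : ℤ × ℤ),
    (tvec v (wordOf p x)).1 % 2 = v.1 % 2 ∧ (tvec v (wordOf p x)).2 % 2 = v.2 % 2 := by
  intro x
  induction x with
  | nil => intro p v; exact ⟨rfl, rfl⟩
  | cons a l ih =>
    intro p v
    rw [wordOf, tvec_append]
    obtain ⟨k1, k2⟩ := ih (p + 1) (tvec v (List.replicate (2 * a.natAbs) (p, decide (0 < a))))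
    obtain ⟨k3, k4⟩ := tvec_rep_two p (decide (0 < a)) a.natAbs v
    exact ⟨k1.trans k3, k2.trans k4⟩

/-- The flag of a tangle is the parity of its denominator. -/
theorem nvec_par (t : NT) : (nvec t).2 % 2 = if t.1 then 0 else 1 := by
  obtain ⟨f, x⟩ := t
  cases f
  · exact (tvec_wordOf_mod x 0 (0, 1)).2
  · exact (tvec_wordOf_mod x 1 (1, 0)).2

theorem nvec_coprime (t : NT) : IsCoprime (nvec t).1 (nvec t).2 := by
  obtain ⟨f, x⟩ := t
  cases f
  · exact tvec_coprime _
  · have h := tvec_det (wordOf 1 x) (1, 0) (0, 1)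
    rw [det2, det2] at h
    refine ⟨(tvec (0, 1) (wordOf 1 x)).2, -(tvec (0, 1) (wordOf 1 x)).1, ?_⟩
    simp only at h
    show (tvec (0, 1) (wordOf 1 x)).2 * (tvec (1, 0) (wordOf 1 x)).1 +
      -(tvec (0, 1) (wordOf 1 x)).1 * (tvec (1, 0) (wordOf 1 x)).2 = 1
    linear_combination h

theorem den_par {u : List (Fin 2 × Bool)} {t : NT} {m : ℤ} (h : slope u = nslope t - m)
    (hu : den u ≠ 0) (ht : (nvec t).2 ≠ 0) : Even (den u) ↔ Even (nvec t).2 := by
  have hc := tvec_coprime u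
  have hn := nvec_coprime t
  unfold den at *
  rw [slope, nslope] at h
  set b := (tvec (0, 1) u).1
  set a := (tvec (0, 1) u).2
  set b' := (nvec t).1
  set a' := (nvec t).2
  have ha : (a : ℚ) ≠ 0 := by exact_mod_cast hu
  have ha' : (a' : ℚ) ≠ 0 := by exact_mod_cast ht
  have e1 : b * a' = (b' - m * a') * a := by
    have : (b : ℚ) * a' = (b' - m * a') * a := by
      field_simp at h
      linarith
    exact_mod_cast this
  have d1 : a ∣ a' := by
    have k1 : a ∣ b * a' := ⟨b' - m * a', by rw [e1]; ring⟩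
    exact hc.symm.dvd_of_dvd_mul_left k1
  have d2 : a' ∣ a := by
    have k0 : IsCoprime a' (b' - m * a') := by
      have := (IsCoprime.add_mul_right_left hn.symm.symm (-m)).symm
      rwa [show b' + -m * a' = b' - m * a' by ring] at this
    have k1 : a' ∣ (b' - m * a') * a := ⟨b, by rw [← e1]; ring⟩
    exact k0.dvd_of_dvd_mul_left k1
  constructor
  · intro h2
    exact (even_iff_two_dvd.1 h2).trans d1 |> even_iff_two_dvd.2
  · intro h2
    exact (even_iff_two_dvd.1 h2).trans d2 |> even_iff_two_dvd.2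

end Pool.Agent.Mont
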