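import Pool.Agent.Mont.Par

/-!
Montesinos knots: normal form of long Montesinos diagrams.
-/

namespace Pool.Agent.Mont

open Pool.Agent.LibH11 Pool.Agent.LibH11.Sliced Pool.Agent.TB Pool.Agent.TwoBr

/-- Equivalent lists of tangles give equivalent diagrams. -/
theorem close_eqd {x y : Diag} (h : EqD 2 x y) (hx : cnt 2 x = some 2) :
    EqD 1 ((.cup, 1) :: (x ++ [(.cap, 1)])) ((.cup, 1) :: (y ++ [(.cap, 1)])) := by
  have h1 := (h.widen 1).ctx [(.cup, 1)] [(.cap, 1)] (show cnt 1 [(.cup, 1)] = some 3 from rfl) (by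
    rw [List.append_assoc, cnt_app (show cnt 1 [((.cup : Kind), 1)] = some 3 from rfl),
      cnt_app (cnt_widen 1 _ _ _ hx)]
    decide)
  simpa using h1

theorem cnt_tgls : ∀ us : List (List (Fin 2 × Bool)), cnt 2 ((us.map tgl).flatten) = some 2 := by
  intro us
  induction us with
  | nil => rfl
  | cons u us ih => rw [List.map_cons, List.flatten_cons, cnt_app (cnt_tgl u), ih]

theorem forall2_split {α β : Type*} {R : α → β → Prop} {us : List α} {l1 l2 : List β} {t t' : β}
    (h : List.Forall₂ R us (l1 ++ t :: l2)) (ht : ∀ u, R u t → R u t') :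
    List.Forall₂ R us (l1 ++ t' :: l2) := by
  induction l1 generalizing us with
  | nil =>
    cases h with
    | cons h1 h2 => exact List.Forall₂.cons (ht _ h1) h2
  | cons s l1 ih =>
    cases h with
    | cons h1 h2 => exact List.Forall₂.cons h1 (ih h2)

/-- **Normal form of long Montesinos diagrams.** -/
theorem mont_nf (us : List (List (Fin 2 × Bool))) (h : IsLongKnot (mont us))
    (hd : ∀ u ∈ us, 2 ≤ |den u|) : ∃ (ts : List NT) (e : ℤ), Nrm ts e ∧
      EqD 1 (mont us) (mdiag ts e) ∧
      List.Forall₂ (fun u t => ∃ m : ℤ, slope u = nslope t - m) us ts ∧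
      (us.map slope).sum = (ts.map nslope).sum - e := by
  obtain ⟨ts, e, h1, h2, h3, h4⟩ := list_nf us hd
  have h5 : EqD 1 (mont us) (mdiag ts e) := close_eqd h3 (cnt_tgls us)
  have h6 := h5.isLongKnot h
  rcases parity ts e h6 with h7 | h7
  · by_cases he : Even e
    · exact ⟨ts, e, ⟨fun t ht => (h2 t ht).1, Or.inr ⟨h7, he⟩⟩, h5, h1, h4⟩
    · -- change the parity of `e`
      have hex : ∃ t ∈ ts, t.1 = true := by
        have : (ts.filter fun t => t.1) ≠ [] := by
          intro h8
          rw [h8] at h7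
          simp at h7
        obtain ⟨t, ht⟩ := List.exists_mem_of_ne_nil _ this
        rw [List.mem_filter] at ht
        exact ⟨t, ht.1, ht.2⟩
      obtain ⟨⟨f, x⟩, hmem, hf⟩ := hex
      simp only at hf
      subst hf
      obtain ⟨l1, l2, rfl⟩ := List.append_of_mem hmem
      obtain ⟨y, c, k0, k1, k2, k3, k4⟩ := list_adj l1 l2 x e (h2 _ hmem).2
      refine ⟨l1 ++ (true, y) :: l2, c + (e - 1), ⟨?_, Or.inr ⟨?_, ?_⟩⟩, ?_, ?_, ?_⟩
      · intro t htt
        rcases List.mem_append.1 htt with h8 | h8
        · exact (h2 t (List.mem_append_left _ h8)).1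
        · rcases List.mem_cons.1 h8 with rfl | h8
          · exact k1
          · exact (h2 t (List.mem_append_right _ (List.mem_cons_of_mem _ h8))).1
      · simpa using h7
      · have h9 : Odd e := Int.not_even_iff_odd.1 he
        exact k0.add (h9.sub_odd odd_one)
      · have c1 : cnt 2 (((l1 ++ (true, x) :: l2).map Tt).flatten ++ ht e) = some 2 := by
          rw [cnt_app (cnt_flat _), cnt_ht]
        exact h5.trans (close_eqd k4 c1)
      · refine forall2_split h1 ?_
        rintro u ⟨m, hm⟩
        refine ⟨m - 1 + c, ?_⟩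
        rw [hm]
        push_cast
        linarith
      · rw [h4]
        simp only [List.map_append, List.map_cons, List.sum_append, List.sum_cons]
        push_cast
        linarith
  · exact ⟨ts, e, ⟨fun t ht => (h2 t ht).1, Or.inl h7⟩, h5, h1, h4⟩

end Pool.Agent.Mont
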